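import Pool.Agent.Lib.MP_7d8448_anB.Av

set_option autoImplicit false

namespace Pool.Agent.Lib.MP_7d8448_an

open Complex Metric Filter Topology

namespace Approx2

lemma norm_cav_le {F : ℂ → ℂ} {R C : ℝ} (hR : 0 < R) (h : ∀ ξ, ‖ξ‖ = R → ‖F ξ‖ ≤ C) :
    ‖Real.circleAverage F 0 R‖ ≤ C := by
  rw [Real.circleAverage_def, norm_smul]
  have hpi : 0 < 2 * Real.pi := Real.two_pi_pos
  have h1 : ‖∫ θ in (0:ℝ)..2 * Real.pi, F (circleMap 0 R θ)‖ ≤ C * |2 * Real.pi - 0| := by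
    apply intervalIntegral.norm_integral_le_of_norm_le_const
    intro θ _
    apply h
    simp [abs_of_pos hR]
  rw [sub_zero, abs_of_pos hpi] at h1
  rw [norm_inv, Real.norm_eq_abs, abs_of_pos hpi]
  calc (2 * Real.pi)⁻¹ * ‖∫ θ in (0:ℝ)..2 * Real.pi, F (circleMap 0 R θ)‖
      ≤ (2 * Real.pi)⁻¹ * (C * (2 * Real.pi)) := by gcongr
    _ = C := by field_simp

lemma cav_const_mul (a : ℂ) (F : ℂ → ℂ) (R : ℝ) :
    Real.circleAverage (fun z => a * F z) 0 R = a * Real.circleAverage F 0 R := by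
  have := Real.circleAverage_fun_smul (a := a) (f := F) (c := (0:ℂ)) (R := R)
  simpa using this

lemma cint_of_cont {F : ℂ → ℂ} {R : ℝ} (h : Continuous fun θ : ℝ => F (circleMap 0 R θ)) :
    CircleIntegrable F 0 R := h.intervalIntegrable _ _

/-- Cauchy coefficient. -/
noncomputable def T (R : ℝ) (f : ℂ → ℂ) (n : ℕ) : ℂ :=
  Real.circleAverage (fun ξ => (ξ⁻¹) ^ n * f ξ) 0 R

lemma ne_zero_of_norm {ξ : ℂ} {R : ℝ} (hR : 0 < R) (h : ‖ξ‖ = R) : ξ ≠ 0 := by
  intro h0; rw [h0, norm_zero] at h; linarith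

lemma cont_circle_inv {R : ℝ} (hR : 0 < R) : Continuous fun θ : ℝ => (circleMap 0 R θ)⁻¹ := by
  apply (continuous_circleMap 0 R).inv₀
  intro θ
  apply ne_zero_of_norm hR
  simp [abs_of_pos hR]

lemma kernel_bound {z ξ : ℂ} {ρ R : ℝ} (h0 : 0 < ρ) (h1 : ρ < R) (hz : ‖z‖ ≤ ρ) (hξ : ‖ξ‖ = R)
    (N : ℕ) : ‖ξ / (ξ - z) - ∑ n ∈ Finset.range N, z ^ n * (ξ⁻¹) ^ n‖ ≤
      (ρ / R) ^ N / (1 - ρ / R) := by
  have hR : 0 < R := h0.trans h1
  have hξ0 : ξ ≠ 0 := ne_zero_of_norm hR hξ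
  set u : ℂ := z * ξ⁻¹ with hu
  have hun : ‖u‖ ≤ ρ / R := by
    rw [hu, norm_mul, norm_inv, hξ, ← div_eq_mul_inv]
    gcongr
  have hq : ρ / R < 1 := (div_lt_one hR).2 h1
  have hu1 : u ≠ 1 := by
    intro h; rw [h, norm_one] at hun; linarith
  have h1u : (1 - u) ≠ 0 := sub_ne_zero.2 (Ne.symm hu1)
  have e1 : ξ / (ξ - z) = 1 / (1 - u) := by
    have : ξ - z = ξ * (1 - u) := by rw [hu]; field_simp
    rw [this]; field_simp
  have e2 : ∑ n ∈ Finset.range N, z ^ n * (ξ⁻¹) ^ n = ∑ n ∈ Finset.range N, u ^ n := by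
    refine Finset.sum_congr rfl fun n _ => ?_
    rw [hu, mul_pow]
  have e3 : ξ / (ξ - z) - ∑ n ∈ Finset.range N, z ^ n * (ξ⁻¹) ^ n = u ^ N / (1 - u) := by
    rw [e1, e2, eq_div_iff h1u, sub_mul, div_mul_cancel₀ _ h1u]
    have := geom_sum_mul u N
    linear_combination this
  rw [e3, norm_div, norm_pow]
  have h4 : 1 - ρ / R ≤ ‖1 - u‖ := by
    have := norm_sub_norm_le (1 : ℂ) u
    rw [norm_one] at this
    linarith
  have h5 : 0 < 1 - ρ / R := by linarith
  gcongr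

lemma one_var {f : ℂ → ℂ} {ρ R M : ℝ} (h0 : 0 < ρ) (h1 : ρ < R)
    (hf : DiffContOnCl ℂ f (ball 0 R)) (hM : ∀ ξ, ‖ξ‖ = R → ‖f ξ‖ ≤ M) {z : ℂ} (hz : ‖z‖ ≤ ρ)
    (N : ℕ) : ‖f z - ∑ n ∈ Finset.range N, z ^ n * T R f n‖ ≤ M * ((ρ / R) ^ N / (1 - ρ / R)) := by
  have hR : 0 < R := h0.trans h1
  have hfc : ContinuousOn f (closedBall 0 R) := by
    have := hf.continuousOn
    rwa [closure_ball _ hR.ne'] at this
  have hcf : Continuous fun θ : ℝ => f (circleMap 0 R θ) := by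
    rw [← continuousOn_univ]
    refine hfc.comp (continuous_circleMap 0 R).continuousOn fun θ _ => ?_
    exact circleMap_mem_closedBall 0 hR.le θ
  have hk : ∀ ξ : ℂ, ‖ξ‖ = R → ξ - z ≠ 0 := by
    intro ξ hξ h
    have : ξ = z := sub_eq_zero.1 h
    rw [this] at hξ; linarith
  have hi1 : CircleIntegrable (fun ξ => (ξ / (ξ - z)) * f ξ) 0 R := by
    apply cint_of_cont
    apply Continuous.mul _ hcf
    apply (continuous_circleMap 0 R).div₀ ((continuous_circleMap 0 R).sub continuous_const)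
    intro θ
    apply hk
    simp [abs_of_pos hR]
  have hi2 : ∀ n ∈ Finset.range N, CircleIntegrable (fun ξ => z ^ n * ((ξ⁻¹) ^ n * f ξ)) 0 R := by
    intro n _
    apply cint_of_cont
    exact continuous_const.mul (((cont_circle_inv hR).pow n).mul hcf)
  have e1 : f z = Real.circleAverage (fun ξ => (ξ / (ξ - z)) * f ξ) 0 R := by
    have h := DiffContOnCl.circleAverage_smul_div (f := f) (c := 0) (R := R) (w := z)
      (by rwa [abs_of_pos hR]) (by rw [abs_of_pos hR, mem_ball_zero_iff]; linarith)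
    rw [← h]
    simp
  have e2 : ∑ n ∈ Finset.range N, z ^ n * T R f n =
      Real.circleAverage (fun ξ => ∑ n ∈ Finset.range N, z ^ n * ((ξ⁻¹) ^ n * f ξ)) 0 R := by
    rw [Real.circleAverage_fun_sum hi2]
    refine Finset.sum_congr rfl fun n _ => ?_
    rw [cav_const_mul]
    rfl
  have hi3 : CircleIntegrable (fun ξ => ∑ n ∈ Finset.range N, z ^ n * ((ξ⁻¹) ^ n * f ξ)) 0 R := by
    apply cint_of_cont
    exact continuous_finsetSum _ fun n _ =>
      continuous_const.mul (((cont_circle_inv hR).pow n).mul hcf)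
  rw [e1, e2, ← Real.circleAverage_fun_sub hi1 hi3]
  apply norm_cav_le hR
  intro ξ hξ
  have e3 : ξ / (ξ - z) * f ξ - ∑ n ∈ Finset.range N, z ^ n * (ξ⁻¹ ^ n * f ξ) =
      (ξ / (ξ - z) - ∑ n ∈ Finset.range N, z ^ n * (ξ⁻¹) ^ n) * f ξ := by
    rw [sub_mul, Finset.sum_mul]
    congr 1
    refine Finset.sum_congr rfl fun n _ => ?_
    ring
  rw [e3, norm_mul, mul_comm M]
  have hM0 : 0 ≤ ‖f ξ‖ := norm_nonneg _
  have hb := kernel_bound h0 h1 hz hξ N
  exact mul_le_mul hb (hM ξ hξ) hM0 ((norm_nonneg _).trans hb)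

/-- Double Cauchy coefficient. -/
noncomputable def TT (R : ℝ) (g : ℂ × ℂ → ℂ) (n m : ℕ) : ℂ :=
  T R (fun w => T R (fun z => g (z, w)) n) m

lemma cont_T {g : ℂ × ℂ → ℂ} {R : ℝ} (hR : 0 < R)
    (hg : ContinuousOn g (closedBall (0 : ℂ × ℂ) R)) (n : ℕ) :
    Continuous fun φ : ℝ => T R (fun z => g (z, circleMap 0 R φ)) n := by
  unfold T
  simp only [Real.circleAverage_def]
  apply Continuous.const_smul
  apply intervalIntegral.continuous_parametric_intervalIntegral_of_continuous'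
  apply Continuous.mul
  · exact ((cont_circle_inv hR).comp continuous_snd).pow n
  · have : Continuous fun p : ℝ × ℝ => ((circleMap 0 R p.2, circleMap 0 R p.1) : ℂ × ℂ) := by
      fun_prop
    rw [← continuousOn_univ]
    refine hg.comp this.continuousOn fun p _ => ?_
    rw [mem_closedBall_zero_iff, Prod.norm_def]
    simp [abs_of_pos hR]

lemma two_var {g : ℂ × ℂ → ℂ} {ρ R M : ℝ} (h0 : 0 < ρ) (h1 : ρ < R)
    (hg : DifferentiableOn ℂ g (ball (0 : ℂ × ℂ) 1)) (hR1 : R < 1) (hM0 : 0 ≤ M)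
    (hM : ∀ p, ‖p‖ ≤ R → ‖g p‖ ≤ M) {z w : ℂ} (hz : ‖z‖ ≤ ρ) (hw : ‖w‖ ≤ ρ)
    (N : ℕ) : ‖g (z, w) - ∑ m ∈ Finset.range N, ∑ n ∈ Finset.range N,
        w ^ m * (z ^ n * TT R g n m)‖ ≤
      M * ((ρ / R) ^ N / (1 - ρ / R)) + (1 - ρ / R)⁻¹ * (M * ((ρ / R) ^ N / (1 - ρ / R))) := by
  have hR : 0 < R := h0.trans h1
  have hq : ρ / R < 1 := (div_lt_one hR).2 h1
  have hq0 : 0 < ρ / R := by positivity
  have hgc : ContinuousOn g (closedBall (0 : ℂ × ℂ) R) :=
    hg.continuousOn.mono (closedBall_subset_ball hR1)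
  -- slices
  have slice1 : ∀ w : ℂ, ‖w‖ ≤ R → DiffContOnCl ℂ (fun z => g (z, w)) (ball 0 R) := by
    intro w hw
    apply DifferentiableOn.diffContOnCl
    rw [closure_ball _ hR.ne']
    refine hg.comp (t := ball (0 : ℂ × ℂ) 1) (f := fun z => (z, w)) ?_ ?_
    · exact (differentiable_id.prodMk (differentiable_const w)).differentiableOn
    · intro z hz
      rw [mem_closedBall_zero_iff] at hz
      rw [mem_ball_zero_iff, Prod.norm_def]
      exact max_lt (by linarith) (by simp only; linarith)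
  have slice2 : ∀ z : ℂ, ‖z‖ ≤ R → DiffContOnCl ℂ (fun w => g (z, w)) (ball 0 R) := by
    intro z hz
    apply DifferentiableOn.diffContOnCl
    rw [closure_ball _ hR.ne']
    refine hg.comp (t := ball (0 : ℂ × ℂ) 1) (f := fun w => (z, w)) ?_ ?_
    · exact ((differentiable_const z).prodMk differentiable_id).differentiableOn
    · intro w hw
      rw [mem_closedBall_zero_iff] at hw
      rw [mem_ball_zero_iff, Prod.norm_def]
      exact max_lt (by simp only; linarith) (by linarith)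
  have hzR : ‖z‖ ≤ R := hz.trans h1.le
  set E : ℝ := M * ((ρ / R) ^ N / (1 - ρ / R)) with hE
  have hE0 : 0 ≤ E := by
    have : 0 < 1 - ρ / R := by linarith
    positivity
  have s1 : ‖g (z, w) - ∑ m ∈ Finset.range N, w ^ m * T R (fun w => g (z, w)) m‖ ≤ E := by
    apply one_var h0 h1 (slice2 z hzR) _ hw
    intro ξ hξ
    apply hM
    rw [Prod.norm_def]
    exact max_le hzR hξ.le
  have s2 : ∀ m, ‖T R (fun w => g (z, w)) m - ∑ n ∈ Finset.range N, z ^ n * TT R g n m‖ ≤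
      (R⁻¹) ^ m * E := by
    intro m
    have hi1 : CircleIntegrable (fun ξ => (ξ⁻¹) ^ m * g (z, ξ)) 0 R := by
      apply cint_of_cont
      apply ((cont_circle_inv hR).pow m).mul
      have : Continuous fun θ : ℝ => ((z, circleMap 0 R θ) : ℂ × ℂ) := by fun_prop
      rw [← continuousOn_univ]
      refine hgc.comp this.continuousOn fun p _ => ?_
      rw [mem_closedBall_zero_iff, Prod.norm_def]
      simp [abs_of_pos hR, hzR]
    have hi2 : ∀ n ∈ Finset.range N,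
        CircleIntegrable (fun ξ => z ^ n * ((ξ⁻¹) ^ m * T R (fun z => g (z, ξ)) n)) 0 R := by
      intro n _
      apply cint_of_cont
      exact continuous_const.mul (((cont_circle_inv hR).pow m).mul (cont_T hR hgc n))
    have hi3 : CircleIntegrable (fun ξ => ∑ n ∈ Finset.range N,
        z ^ n * ((ξ⁻¹) ^ m * T R (fun z => g (z, ξ)) n)) 0 R := by
      apply cint_of_cont
      exact continuous_finsetSum _ fun n _ =>
        continuous_const.mul (((cont_circle_inv hR).pow m).mul (cont_T hR hgc n))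
    have e2 : ∑ n ∈ Finset.range N, z ^ n * TT R g n m =
        Real.circleAverage (fun ξ => ∑ n ∈ Finset.range N,
          z ^ n * ((ξ⁻¹) ^ m * T R (fun z => g (z, ξ)) n)) 0 R := by
      rw [Real.circleAverage_fun_sum hi2]
      refine Finset.sum_congr rfl fun n _ => ?_
      rw [cav_const_mul]
      rfl
    rw [e2]
    show ‖Real.circleAverage (fun ξ => (ξ⁻¹) ^ m * g (z, ξ)) 0 R - _‖ ≤ _
    rw [← Real.circleAverage_fun_sub hi1 hi3]
    apply norm_cav_le hR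
    intro ξ hξ
    have e3 : ξ⁻¹ ^ m * g (z, ξ) - ∑ n ∈ Finset.range N,
        z ^ n * (ξ⁻¹ ^ m * T R (fun z => g (z, ξ)) n) =
        ξ⁻¹ ^ m * (g (z, ξ) - ∑ n ∈ Finset.range N, z ^ n * T R (fun z => g (z, ξ)) n) := by
      rw [mul_sub, Finset.mul_sum]
      congr 1
      refine Finset.sum_congr rfl fun n _ => ?_
      ring
    rw [e3, norm_mul, norm_pow, norm_inv, hξ]
    gcongr
    apply one_var h0 h1 (slice1 ξ hξ.le) _ hz
    intro η hη
    apply hM
    rw [Prod.norm_def]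
    exact max_le hη.le hξ.le
  have s3 : ‖∑ m ∈ Finset.range N, w ^ m * T R (fun w => g (z, w)) m -
      ∑ m ∈ Finset.range N, ∑ n ∈ Finset.range N, w ^ m * (z ^ n * TT R g n m)‖ ≤
      (1 - ρ / R)⁻¹ * E := by
    rw [← Finset.sum_sub_distrib]
    calc ‖∑ m ∈ Finset.range N, (w ^ m * T R (fun w => g (z, w)) m -
          ∑ n ∈ Finset.range N, w ^ m * (z ^ n * TT R g n m))‖
        ≤ ∑ m ∈ Finset.range N, ‖w ^ m * T R (fun w => g (z, w)) m -
          ∑ n ∈ Finset.range N, w ^ m * (z ^ n * TT R g n m)‖ := norm_sum_le _ _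
      _ ≤ ∑ m ∈ Finset.range N, (ρ / R) ^ m * E := by
        refine Finset.sum_le_sum fun m _ => ?_
        rw [← Finset.mul_sum, ← mul_sub, norm_mul, norm_pow]
        calc ‖w‖ ^ m * ‖T R (fun w => g (z, w)) m - ∑ n ∈ Finset.range N, z ^ n * TT R g n m‖
            ≤ ρ ^ m * ((R⁻¹) ^ m * E) := by
              gcongr
              exact s2 m
          _ = (ρ / R) ^ m * E := by rw [div_eq_mul_inv, mul_pow]; ring
      _ = (∑ m ∈ Finset.range N, (ρ / R) ^ m) * E := by rw [Finset.sum_mul]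
      _ ≤ (1 - ρ / R)⁻¹ * E := by
        gcongr
        rw [← tsum_geometric_of_lt_one hq0.le hq]
        exact (summable_geometric_of_lt_one hq0.le hq).sum_le_tsum _ fun i _ => by positivity
  calc ‖g (z, w) - ∑ m ∈ Finset.range N, ∑ n ∈ Finset.range N, w ^ m * (z ^ n * TT R g n m)‖
      = ‖(g (z, w) - ∑ m ∈ Finset.range N, w ^ m * T R (fun w => g (z, w)) m) +
          (∑ m ∈ Finset.range N, w ^ m * T R (fun w => g (z, w)) m -
            ∑ m ∈ Finset.range N, ∑ n ∈ Finset.range N, w ^ m * (z ^ n * TT R g n m))‖ := by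
        congr 1; ring
    _ ≤ E + (1 - ρ / R)⁻¹ * E := (norm_add_le _ _).trans (add_le_add s1 s3)

end Approx2

/-- Uniform polynomial approximation of dilates of a holomorphic function on the bidisc.
Proof: double Cauchy formula on the circles of radius `ρ' ∈ (ρ,1)` (`DiffContOnCl.circleAverage_smul_div`),
`ρ' ζ/(ρ' ζ - z) = ∑ (z/(ρ' ζ))^n`, truncate both geometric series. -/
lemma exists_mvpoly_approx {g : ℂ × ℂ → ℂ} (hg : DifferentiableOn ℂ g (ball (0 : ℂ × ℂ) 1))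
    {ρ : ℝ} (h0 : 0 < ρ) (h1 : ρ < 1) {ε : ℝ} (hε : 0 < ε) :
    ∃ P : MvPolynomial (Fin 2) ℂ, ∀ z w : ℂ, ‖z‖ ≤ 1 → ‖w‖ ≤ 1 →
      ‖MvPolynomial.eval ![z, w] P - g (ρ * z, ρ * w)‖ ≤ ε := by
  obtain ⟨R, hR1, hR2⟩ := exists_between h1
  have hR : 0 < R := h0.trans hR1
  have hq : ρ / R < 1 := (div_lt_one hR).2 hR1
  have hq0 : 0 < ρ / R := by positivity
  have hgc : ContinuousOn g (closedBall (0 : ℂ × ℂ) R) :=
    hg.continuousOn.mono (closedBall_subset_ball hR2)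
  obtain ⟨M, hM⟩ := (isCompact_closedBall (0 : ℂ × ℂ) R).exists_bound_of_continuousOn hgc
  have hM' : ∀ p, ‖p‖ ≤ R → ‖g p‖ ≤ M := fun p hp => hM p (by simpa using hp)
  have hM0 : 0 ≤ M := (norm_nonneg _).trans (hM' 0 (by simpa using hR.le))
  have hlim : Tendsto (fun N : ℕ => M * ((ρ / R) ^ N / (1 - ρ / R)) +
      (1 - ρ / R)⁻¹ * (M * ((ρ / R) ^ N / (1 - ρ / R)))) atTop (𝓝 0) := by
    have h2 := tendsto_pow_atTop_nhds_zero_of_lt_one hq0.le hq
    have h3 : Tendsto (fun N : ℕ => M * ((ρ / R) ^ N / (1 - ρ / R))) atTop (𝓝 0) := by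
      have := (h2.div_const (1 - ρ / R)).const_mul M
      simpa using this
    have := h3.add (h3.const_mul ((1 - ρ / R)⁻¹))
    simpa using this
  obtain ⟨N, hN⟩ := ((hlim.eventually (gt_mem_nhds hε))).exists
  refine ⟨∑ m ∈ Finset.range N, ∑ n ∈ Finset.range N,
    MvPolynomial.C ((ρ : ℂ) ^ m * (ρ : ℂ) ^ n * Approx2.TT R g n m) *
      MvPolynomial.X 0 ^ n * MvPolynomial.X 1 ^ m, fun z w hz hw => ?_⟩
  have hz' : ‖(ρ : ℂ) * z‖ ≤ ρ := by
    rw [norm_mul, Complex.norm_real, Real.norm_eq_abs, abs_of_pos h0]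
    nlinarith
  have hw' : ‖(ρ : ℂ) * w‖ ≤ ρ := by
    rw [norm_mul, Complex.norm_real, Real.norm_eq_abs, abs_of_pos h0]
    nlinarith
  have key := Approx2.two_var h0 hR1 hg hR2 hM0 hM' hz' hw' N
  rw [norm_sub_rev]
  refine le_trans (le_of_eq ?_) (key.trans hN.le)
  congr 2
  rw [map_sum]
  refine Finset.sum_congr rfl fun m _ => ?_
  rw [map_sum]
  refine Finset.sum_congr rfl fun n _ => ?_
  simp only [map_mul, map_pow, MvPolynomial.eval_C, MvPolynomial.eval_X, Matrix.cons_val_zero,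
    Matrix.cons_val_one]
  ring

end Pool.Agent.Lib.MP_7d8448_an
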