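import Mathlib

set_option autoImplicit false

namespace Pool.Agent.Lib.MP_7d8448_an

open Complex Metric MeasureTheory Filter Topology
open scoped ComplexConjugate

/-- Average over the unit circle. -/
noncomputable def av {E : Type*} [NormedAddCommGroup E] [NormedSpace ℝ E] (F : ℂ → E) : E :=
  Real.circleAverage F 0 1

section general

variable {E : Type*} [NormedAddCommGroup E] [NormedSpace ℝ E]

omit [NormedSpace ℝ E] in
lemma ci {F : ℂ → E} (h : ContinuousOn F (sphere 0 1)) : CircleIntegrable F 0 1 :=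
  h.circleIntegrable zero_le_one

lemma av_congr {F G : ℂ → E} (h : ∀ z, ‖z‖ = 1 → F z = G z) : av F = av G := by
  apply Real.circleAverage_congr_sphere
  intro z hz
  exact h z (by simpa using hz)

lemma av_add {F G : ℂ → E} (hF : ContinuousOn F (sphere 0 1)) (hG : ContinuousOn G (sphere 0 1)) :
    av (fun z => F z + G z) = av F + av G :=
  Real.circleAverage_fun_add (ci hF) (ci hG)

lemma av_sub {F G : ℂ → E} (hF : ContinuousOn F (sphere 0 1)) (hG : ContinuousOn G (sphere 0 1)) :
    av (fun z => F z - G z) = av F - av G :=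
  Real.circleAverage_fun_sub (ci hF) (ci hG)

lemma av_sum {ι : Type*} {t : Finset ι} {F : ι → ℂ → E}
    (h : ∀ i ∈ t, ContinuousOn (F i) (sphere 0 1)) :
    av (fun z => ∑ i ∈ t, F i z) = ∑ i ∈ t, av (F i) :=
  Real.circleAverage_fun_sum fun i hi => ci (h i hi)

end general

lemma av_re {F : ℂ → ℂ} (hF : ContinuousOn F (sphere 0 1)) :
    av (fun z => (F z).re) = (av F).re :=
  Complex.reCLM.circleAverage_comp_comm (ci hF)

lemma av_const_mul (a : ℂ) (F : ℂ → ℂ) : av (fun z => a * F z) = a * av F := by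
  have := Real.circleAverage_fun_smul (a := a) (f := F) (c := (0:ℂ)) (R := 1)
  simpa [av] using this

lemma av_real_const_mul (a : ℝ) (F : ℂ → ℝ) : av (fun z => a * F z) = a * av F := by
  have := Real.circleAverage_fun_smul (a := a) (f := F) (c := (0:ℂ)) (R := 1)
  simpa [av] using this

lemma av_const (a : ℝ) : av (fun _ => a) = a := Real.circleAverage_const a 0 1

lemma av_nonneg {F : ℂ → ℝ} (h : ∀ z, ‖z‖ = 1 → 0 ≤ F z) : 0 ≤ av F :=
  Real.circleAverage_nonneg_of_nonneg fun z hz => h z (by simpa using hz)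

lemma av_mono {F G : ℂ → ℝ} (hF : ContinuousOn F (sphere 0 1)) (hG : ContinuousOn G (sphere 0 1))
    (h : ∀ z, ‖z‖ = 1 → F z ≤ G z) : av F ≤ av G :=
  Real.circleAverage_mono (ci hF) (ci hG) fun z hz => h z (by simpa using hz)

lemma av_le {F : ℂ → ℝ} (hF : ContinuousOn F (sphere 0 1)) {M : ℝ}
    (h : ∀ z, ‖z‖ = 1 → F z ≤ M) : av F ≤ M := by
  have := av_mono hF continuousOn_const h
  rwa [av_const] at this

/-- Uniform limits pass through averages. -/
lemma tendsto_av {F : ℕ → ℂ → ℝ} {G : ℂ → ℝ} (hF : ∀ n, ContinuousOn (F n) (sphere 0 1))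
    (hG : ContinuousOn G (sphere 0 1)) (h : TendstoUniformlyOn F G atTop (sphere 0 1)) :
    Tendsto (fun n => av (F n)) atTop (𝓝 (av G)) := by
  rw [Metric.tendsto_atTop]
  intro ε hε
  rw [Metric.tendstoUniformlyOn_iff] at h
  obtain ⟨N, hN⟩ := eventually_atTop.1 (h (ε / 2) (by positivity))
  refine ⟨N, fun n hn => ?_⟩
  rw [Real.dist_eq, ← av_sub (hF n) hG, abs_lt]
  have hb : ∀ z, ‖z‖ = 1 → |F n z - G z| ≤ ε / 2 := by
    intro z hz
    have := hN n hn z (by simpa using hz)
    rw [dist_comm, Real.dist_eq] at this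
    exact this.le
  have hc : ContinuousOn (fun z => F n z - G z) (sphere 0 1) := (hF n).sub hG
  constructor
  · have h1 : av (fun _ : ℂ => -(ε / 2)) ≤ av (fun z => F n z - G z) :=
      av_mono continuousOn_const hc fun z hz => (abs_le.1 (hb z hz)).1
    rw [av_const] at h1
    linarith
  · have h1 := av_le hc fun z hz => (abs_le.1 (hb z hz)).2
    linarith

/-- Parseval for absolutely convergent power series on the circle. -/
lemma parseval {b : ℕ → ℂ} (hb : Summable fun n => ‖b n‖) :
    HasSum (fun n => ‖b n‖ ^ 2) (av fun z => ‖∑' n, b n * z ^ n‖ ^ 2) := by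
  have hcont : ContinuousOn (fun z : ℂ => ∑' n, b n * z ^ n) (sphere 0 1) := by
    apply continuousOn_tsum (u := fun n => ‖b n‖)
    · intro n; fun_prop
    · exact hb
    · intro n z hz
      have : ‖z‖ = 1 := by simpa using hz
      simp [this]
  have hunif : TendstoUniformlyOn (fun N (z : ℂ) => ∑ n ∈ Finset.range N, b n * z ^ n)
      (fun z => ∑' n, b n * z ^ n) atTop (sphere 0 1) := by
    apply tendstoUniformlyOn_tsum_nat hb
    intro n z hz
    have : ‖z‖ = 1 := by simpa using hz
    simp [this]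
  have hS : Summable fun n => ‖b n‖ ^ 2 := by
    have h0 := hb.tendsto_atTop_zero
    refine Summable.of_norm_bounded_eventually_nat (g := fun n => ‖b n‖) hb ?_
    have h1 : ∀ᶠ n in atTop, ‖b n‖ < 1 := h0.eventually (gt_mem_nhds one_pos)
    filter_upwards [h1] with n hn
    rw [norm_pow, norm_norm, sq]
    nlinarith [norm_nonneg (b n)]
  have hpart : ∀ N, av (fun z => ‖∑ n ∈ Finset.range N, b n * z ^ n‖ ^ 2)
      = ∑ n ∈ Finset.range N, ‖b n‖ ^ 2 := by
    intro N
    have hcoeff : ∀ i, (∑ n ∈ Finset.range N, Polynomial.C (b n) * Polynomial.X ^ n).coeff i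
        = if i ∈ Finset.range N then b i else 0 := by
      intro i
      rw [Polynomial.finsetSum_coeff]
      simp only [Polynomial.coeff_C_mul_X_pow]
      rw [Finset.sum_ite_eq]
    have h := Polynomial.sum_sq_norm_coeff_eq_circleAverage
      (∑ n ∈ Finset.range N, Polynomial.C (b n) * Polynomial.X ^ n)
    have hsub : (∑ n ∈ Finset.range N, Polynomial.C (b n) * Polynomial.X ^ n).support
        ⊆ Finset.range N := by
      intro i hi
      by_contra hn
      rw [Polynomial.mem_support_iff, hcoeff, if_neg hn] at hi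
      exact hi rfl
    rw [Finset.sum_subset hsub] at h
    · have e1 : ∑ n ∈ Finset.range N, ‖b n‖ ^ 2 = ∑ i ∈ Finset.range N,
          ‖(∑ n ∈ Finset.range N, Polynomial.C (b n) * Polynomial.X ^ n).coeff i‖ ^ 2 := by
        refine Finset.sum_congr rfl fun i hi => ?_
        rw [hcoeff, if_pos hi]
      rw [e1, h]
      apply av_congr
      intro z _
      rw [Polynomial.eval_finsetSum]
      simp
    · intro i _ hi
      rw [Polynomial.notMem_support_iff.1 hi]
      simp
  have hM : ∀ z : ℂ, ‖z‖ = 1 → ∀ N, ‖∑ n ∈ Finset.range N, b n * z ^ n‖ ≤ ∑' n, ‖b n‖ := by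
    intro z hz N
    calc ‖∑ n ∈ Finset.range N, b n * z ^ n‖ ≤ ∑ n ∈ Finset.range N, ‖b n * z ^ n‖ :=
          norm_sum_le _ _
      _ = ∑ n ∈ Finset.range N, ‖b n‖ := by simp [hz]
      _ ≤ ∑' n, ‖b n‖ := hb.sum_le_tsum _ fun i _ => norm_nonneg _
  have hM' : ∀ z : ℂ, ‖z‖ = 1 → ‖∑' n, b n * z ^ n‖ ≤ ∑' n, ‖b n‖ := by
    intro z hz
    have hs : Summable fun n => ‖b n * z ^ n‖ := by simpa [hz] using hb
    refine (norm_tsum_le_tsum_norm hs).trans (le_of_eq ?_)
    simp [hz]
  set M := ∑' n, ‖b n‖ with hMdef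
  have hM0 : 0 ≤ M := tsum_nonneg fun n => norm_nonneg _
  have hunif2 : TendstoUniformlyOn (fun N (z : ℂ) => ‖∑ n ∈ Finset.range N, b n * z ^ n‖ ^ 2)
      (fun z => ‖∑' n, b n * z ^ n‖ ^ 2) atTop (sphere 0 1) := by
    rw [Metric.tendstoUniformlyOn_iff] at hunif ⊢
    intro ε hε
    have hε' : 0 < ε / (2 * M + 1) := by positivity
    filter_upwards [hunif _ hε'] with N hN z hz
    have hz' : ‖z‖ = 1 := by simpa using hz
    have h1 := hN z hz
    rw [dist_eq_norm] at h1
    rw [Real.dist_eq]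
    have h2 := abs_norm_sub_norm_le (∑' n, b n * z ^ n) (∑ n ∈ Finset.range N, b n * z ^ n)
    have h3 := hM z hz' N
    have h4 := hM' z hz'
    set A := ‖∑' n, b n * z ^ n‖
    set B := ‖∑ n ∈ Finset.range N, b n * z ^ n‖
    have hA : 0 ≤ A := norm_nonneg _
    have hB : 0 ≤ B := norm_nonneg _
    have e : A ^ 2 - B ^ 2 = (A - B) * (A + B) := by ring
    rw [e, abs_mul, abs_of_nonneg (add_nonneg hA hB)]
    calc |A - B| * (A + B) ≤ |A - B| * (2 * M) := by gcongr; linarith
      _ ≤ |A - B| * (2 * M + 1) := by gcongr; linarith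
      _ < ε / (2 * M + 1) * (2 * M + 1) := by
        apply mul_lt_mul_of_pos_right _ (by positivity)
        exact lt_of_le_of_lt h2 h1
      _ = ε := by field_simp
  have hlim := tendsto_av (F := fun N z => ‖∑ n ∈ Finset.range N, b n * z ^ n‖ ^ 2)
    (fun N => by fun_prop) (hcont.norm.pow 2) hunif2
  simp only [hpart] at hlim
  rw [hS.hasSum_iff_tendsto_nat]
  exact hlim

end Pool.Agent.Lib.MP_7d8448_an
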