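import Mathlib

set_option autoImplicit false

namespace Pool.Agent.Lib.MP_7d8448_an

noncomputable def Lp (A : ℝ) (k : ℕ) : ℝ := A * 1024 ^ ((k + 1) ^ 2)
noncomputable def ap (A : ℝ) (k : ℕ) : ℝ := A + (1 / 4) * ∑ j ∈ Finset.range (k + 1), Lp A j
noncomputable def Bp (A : ℝ) (k : ℕ) : ℝ := Lp A k - ap A k
noncomputable def Np (A : ℝ) (k : ℕ) : ℕ := ⌈2 ^ k * Lp A k ^ 2 * Real.exp (2 * Bp A k)⌉₊
noncomputable def tp (A : ℝ) (k : ℕ) : ℝ := Lp A k ^ 2 / Np A k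
noncomputable def kp (A : ℝ) (k : ℕ) : ℝ := 1 / (4 ^ (k + 1) * 400 * Lp A (k + 1) ^ 2)
noncomputable def dp (A : ℝ) (k : ℕ) : ℝ := kp A k / Np A k

variable {A : ℝ}

lemma Lp_ge (hA : 1 ≤ A) (k : ℕ) : 1024 ^ (k + 1) ≤ Lp A k := by
  have h1 : (1024 : ℝ) ^ (k + 1) ≤ 1024 ^ ((k + 1) ^ 2) :=
    pow_le_pow_right₀ (by norm_num) (by nlinarith)
  have h2 : (0 : ℝ) < 1024 ^ ((k + 1) ^ 2) := by positivity
  unfold Lp
  nlinarith

lemma Lp_pos (hA : 1 ≤ A) (k : ℕ) : 0 < Lp A k :=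
  lt_of_lt_of_le (by positivity) (Lp_ge hA k)

lemma Lp_ge_1024 (hA : 1 ≤ A) (k : ℕ) : 1024 ≤ Lp A k := by
  refine le_trans ?_ (Lp_ge hA k)
  rw [pow_succ]
  have : (1 : ℝ) ≤ 1024 ^ k := one_le_pow₀ (by norm_num)
  linarith

lemma Lp_mono (hA : 1 ≤ A) {j k : ℕ} (h : j ≤ k) : Lp A j ≤ Lp A k := by
  unfold Lp
  have h1 : (1024 : ℝ) ^ ((j + 1) ^ 2) ≤ 1024 ^ ((k + 1) ^ 2) :=
    pow_le_pow_right₀ (by norm_num) (Nat.pow_le_pow_left (by omega) 2)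
  exact mul_le_mul_of_nonneg_left h1 (by linarith)

lemma Lp_succ_eq (A : ℝ) (k : ℕ) : Lp A (k + 1) = Lp A k * 1024 ^ (2 * k + 3) := by
  unfold Lp
  rw [mul_assoc, ← pow_add]
  congr 2
  ring

lemma Lp_succ_1024 (hA : 1 ≤ A) (k : ℕ) : 1024 * Lp A k ≤ Lp A (k + 1) := by
  rw [Lp_succ_eq]
  have h1 : (1024 : ℝ) ^ 1 ≤ 1024 ^ (2 * k + 3) :=
    pow_le_pow_right₀ (by norm_num) (by omega)
  nlinarith [Lp_pos hA k]

lemma Lp_succ (hA : 1 ≤ A) (k : ℕ) : 29 * (k + 1) * Lp A k ≤ Lp A (k + 1) := by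
  rw [Lp_succ_eq]
  have h1 : (29 * (k + 1) : ℝ) ≤ 1024 ^ (2 * k + 3) := by
    have h2 : k + 1 ≤ 2 ^ k := Nat.succ_le_of_lt Nat.lt_two_pow_self
    have h3 : ((k : ℝ) + 1) ≤ 2 ^ k := by exact_mod_cast h2
    have h4 : (2 : ℝ) ^ k ≤ 1024 ^ (2 * k) := by
      calc (2 : ℝ) ^ k ≤ 1024 ^ k := pow_le_pow_left₀ (by norm_num) (by norm_num) k
        _ ≤ 1024 ^ (2 * k) := pow_le_pow_right₀ (by norm_num) (by omega)
    have h5 : (1024 : ℝ) ^ (2 * k + 3) = 1024 ^ (2 * k) * 1024 ^ 3 := pow_add _ _ _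
    rw [h5]
    have h6 : (0 : ℝ) < 1024 ^ (2 * k) := by positivity
    nlinarith
  nlinarith [Lp_pos hA k]

/-- `a_k ≤ L_k / 3`, hence `a_k ≤ B_k`. -/
lemma ap_le (hA : 1 ≤ A) (k : ℕ) : ap A k ≤ Lp A k / 3 := by
  induction k with
  | zero =>
    simp only [ap, zero_add, Finset.sum_range_one]
    unfold Lp
    norm_num
    linarith
  | succ k ih =>
    have h1 : ap A (k + 1) = ap A k + (1 / 4) * Lp A (k + 1) := by
      unfold ap
      rw [Finset.sum_range_succ _ (k + 1)]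
      ring
    rw [h1]
    have h2 := Lp_succ_1024 hA k
    linarith [Lp_pos hA (k + 1)]

lemma ap_nonneg (hA : 1 ≤ A) (k : ℕ) : 0 ≤ ap A k := by
  unfold ap
  have : 0 ≤ ∑ j ∈ Finset.range (k + 1), Lp A j :=
    Finset.sum_nonneg fun j _ => (Lp_pos hA j).le
  linarith

lemma ap_le_Bp (hA : 1 ≤ A) (k : ℕ) : ap A k ≤ Bp A k := by
  unfold Bp
  linarith [ap_le hA k, Lp_pos hA k]

lemma Bp_nonneg (hA : 1 ≤ A) (k : ℕ) : 0 ≤ Bp A k := (ap_nonneg hA k).trans (ap_le_Bp hA k)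

lemma Bp_ge (hA : 1 ≤ A) (k : ℕ) : 2 / 3 * Lp A k ≤ Bp A k := by
  unfold Bp
  linarith [ap_le hA k]

lemma Bp_le (hA : 1 ≤ A) (k : ℕ) : Bp A k ≤ Lp A k := by
  unfold Bp
  linarith [ap_nonneg hA k]

/-- `y_k`. -/
noncomputable def yp (A : ℝ) (k : ℕ) : ℝ := 2 ^ k * Lp A k ^ 2 * Real.exp (2 * Bp A k)

lemma yp_ge (hA : 1 ≤ A) (k : ℕ) : 2 ^ k * Lp A k ≤ yp A k := by
  unfold yp
  have h1 : (1 : ℝ) ≤ Real.exp (2 * Bp A k) := Real.one_le_exp (by linarith [Bp_nonneg hA k])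
  have h2 := Lp_ge_1024 hA k
  have h3 : Lp A k ≤ Lp A k ^ 2 := by nlinarith
  calc 2 ^ k * Lp A k = 2 ^ k * Lp A k * 1 := (mul_one _).symm
    _ ≤ 2 ^ k * Lp A k ^ 2 * Real.exp (2 * Bp A k) := by
        gcongr

lemma one_le_yp (hA : 1 ≤ A) (k : ℕ) : 1 ≤ yp A k := by
  refine le_trans ?_ (yp_ge hA k)
  have h1 : (1 : ℝ) ≤ 2 ^ k := one_le_pow₀ (by norm_num)
  have h2 := Lp_ge_1024 hA k
  nlinarith

lemma yp_le_Np (A : ℝ) (k : ℕ) : yp A k ≤ Np A k := Nat.le_ceil _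

lemma Np_le (hA : 1 ≤ A) (k : ℕ) : (Np A k : ℝ) ≤ 2 * yp A k := by
  have h1 : (Np A k : ℝ) < yp A k + 1 := Nat.ceil_lt_add_one (by
    have := one_le_yp hA k
    unfold yp at this
    linarith)
  linarith [one_le_yp hA k]

lemma one_le_Np (hA : 1 ≤ A) (k : ℕ) : 1 ≤ Np A k := by
  have h1 := (one_le_yp hA k).trans (yp_le_Np A k)
  exact_mod_cast h1

lemma Np_pos (hA : 1 ≤ A) (k : ℕ) : (0 : ℝ) < Np A k := by
  exact_mod_cast one_le_Np hA k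

lemma Np_ge (hA : 1 ≤ A) (k : ℕ) : 2 ^ k * Lp A k ≤ Np A k :=
  (yp_ge hA k).trans (yp_le_Np A k)

lemma tp_pos (hA : 1 ≤ A) (k : ℕ) : 0 < tp A k :=
  div_pos (pow_pos (Lp_pos hA k) 2) (Np_pos hA k)

lemma tp_mul_exp_le (hA : 1 ≤ A) (k : ℕ) : tp A k * Real.exp (2 * Bp A k) ≤ 1 / 2 ^ k := by
  have h1 := yp_le_Np A k
  have h2 := Np_pos hA k
  unfold tp
  rw [div_mul_eq_mul_div, div_le_div_iff₀ h2 (by positivity)]
  unfold yp at h1
  nlinarith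

/-- Uses `N_j / N_k ≥ exp L_j` for `k < j`. -/
lemma Np_ratio (hA : 1 ≤ A) {k j : ℕ} (h : k < j) :
    Real.exp (Lp A j) * Np A k ≤ Np A j := by
  have h1 : Lp A (k + 1) ≤ Lp A j := Lp_mono hA h
  have h2 := Lp_succ_1024 hA k
  have h3 := Bp_ge hA j
  have h4 := Bp_le hA k
  have h5 := Lp_pos hA k
  have h6 : Lp A j + 2 * Bp A k ≤ 2 * Bp A j := by linarith
  have h7 : Real.exp (Lp A j) * Real.exp (2 * Bp A k) ≤ Real.exp (2 * Bp A j) := by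
    rw [← Real.exp_add]
    exact Real.exp_le_exp.2 h6
  have h8 : (2 : ℝ) * 2 ^ k ≤ 2 ^ j := by
    rw [← pow_succ']
    exact pow_le_pow_right₀ (by norm_num) h
  have h9 : Lp A k ^ 2 ≤ Lp A j ^ 2 := by
    have : Lp A k ≤ Lp A j := Lp_mono hA h.le
    gcongr
  calc Real.exp (Lp A j) * Np A k ≤ Real.exp (Lp A j) * (2 * yp A k) := by
        gcongr
        exact Np_le hA k
    _ = (2 * 2 ^ k) * Lp A k ^ 2 * (Real.exp (Lp A j) * Real.exp (2 * Bp A k)) := by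
        unfold yp
        ring
    _ ≤ 2 ^ j * Lp A j ^ 2 * Real.exp (2 * Bp A j) := by
        gcongr
    _ ≤ Np A j := yp_le_Np A j

lemma exp_ge_sq {x : ℝ} (hx : 0 ≤ x) : x ^ 2 / 2 ≤ Real.exp x := by
  have := Real.pow_div_factorial_le_exp x hx 2
  simpa using this

lemma exp_ge_six {x : ℝ} (hx : 0 ≤ x) : x ^ 6 / 720 ≤ Real.exp x := by
  have := Real.pow_div_factorial_le_exp x hx 6
  have h : ((Nat.factorial 6 : ℕ) : ℝ) = 720 := by norm_num [Nat.factorial]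
  rwa [h] at this

lemma Lp_ge_two (hA : 1 ≤ A) (k : ℕ) : 2 ^ (10 * (k + 1)) ≤ Lp A k := by
  have h := Lp_ge hA k
  have h2 : (1024 : ℝ) ^ (k + 1) = 2 ^ (10 * (k + 1)) := by
    rw [pow_mul]
    norm_num
  rwa [h2] at h

lemma tail_region (hA : 1 ≤ A) (k i : ℕ) :
    4 * Lp A (k + i) / (Np A (k + i) * tp A k) ≤ (1 / 2) ^ (i + 1) := by
  have hNk := Np_pos hA k
  have hNj := Np_pos hA (k + i)
  have hLk := Lp_ge_1024 hA k
  have hLk0 := Lp_pos hA k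
  have hLj0 := Lp_pos hA (k + i)
  have htp : (Np A (k + i) : ℝ) * tp A k = Np A (k + i) * Lp A k ^ 2 / Np A k := by
    unfold tp
    ring
  rcases Nat.eq_zero_or_pos i with rfl | hi
  · simp only [add_zero, zero_add, pow_one] at *
    rw [htp, mul_div_assoc, mul_comm, div_mul_eq_mul_div]
    rw [div_le_iff₀ (by positivity)]
    have : (Np A k : ℝ) * Lp A k ^ 2 / Np A k = Lp A k ^ 2 := by
      field_simp
    rw [this]
    nlinarith
  · have hr := Np_ratio hA (show k < k + i by omega)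
    have hexp := exp_ge_sq hLj0.le
    have h1 : Lp A (k + i) ^ 2 / 2 * Np A k ≤ Np A (k + i) :=
      le_trans (mul_le_mul_of_nonneg_right hexp hNk.le) hr
    have h2 : Lp A (k + i) ^ 2 / 2 ≤ Np A (k + i) * tp A k := by
      rw [htp, le_div_iff₀ hNk]
      have : (1 : ℝ) ≤ Lp A k ^ 2 := by nlinarith
      nlinarith
    have h3 : 0 < (Np A (k + i) : ℝ) * tp A k := mul_pos hNj (tp_pos hA k)
    rw [div_le_iff₀ h3]
    have h4 := Lp_ge_two hA (k + i)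
    have h5 : (2 : ℝ) ^ (i + 1) * 8 ≤ Lp A (k + i) := by
      refine le_trans ?_ h4
      rw [show (8 : ℝ) = 2 ^ 3 by norm_num, ← pow_add]
      exact pow_le_pow_right₀ (by norm_num) (by omega)
    have h6 : 4 * Lp A (k + i) ≤ (1 / 2) ^ (i + 1) * (Lp A (k + i) ^ 2 / 2) := by
      have h7 : (1 / 2 : ℝ) ^ (i + 1) * 2 ^ (i + 1) = 1 := by
        rw [← mul_pow]
        norm_num
      have h8 : (0 : ℝ) < (1 / 2 : ℝ) ^ (i + 1) := by positivity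
      have h9 : 8 ≤ (1 / 2 : ℝ) ^ (i + 1) * Lp A (k + i) := by
        calc (8 : ℝ) = (1 / 2 : ℝ) ^ (i + 1) * (2 ^ (i + 1) * 8) := by
              rw [← mul_assoc, h7, one_mul]
          _ ≤ (1 / 2 : ℝ) ^ (i + 1) * Lp A (k + i) := by gcongr
      nlinarith
    exact h6.trans (mul_le_mul_of_nonneg_left h2 (by positivity))

lemma kp_pos (hA : 1 ≤ A) (k : ℕ) : 0 < kp A k := by
  unfold kp
  have := Lp_pos hA (k + 1)
  positivity

lemma dp_pos (hA : 1 ≤ A) (k : ℕ) : 0 < dp A k := div_pos (kp_pos hA k) (Np_pos hA k)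

lemma kp_lt_one (hA : 1 ≤ A) (k : ℕ) : kp A k < 1 := by
  unfold kp
  have h1 := Lp_ge_1024 hA (k + 1)
  have h2 : (1 : ℝ) ≤ 4 ^ (k + 1) := one_le_pow₀ (by norm_num)
  have h3 : (1 : ℝ) ≤ Lp A (k + 1) ^ 2 := by nlinarith
  rw [div_lt_one (by positivity)]
  have h4 : (400 : ℝ) ≤ 4 ^ (k + 1) * 400 := by linarith
  calc (1 : ℝ) < 400 * 1 := by norm_num
    _ ≤ 4 ^ (k + 1) * 400 * Lp A (k + 1) ^ 2 := by gcongr

lemma dp_lt_one (hA : 1 ≤ A) (k : ℕ) : dp A k < 1 := by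
  unfold dp
  rw [div_lt_one (Np_pos hA k)]
  refine (kp_lt_one hA k).trans_le ?_
  exact_mod_cast one_le_Np hA k

lemma dp_succ_lt (hA : 1 ≤ A) (k : ℕ) : dp A (k + 1) < dp A k := by
  have h1 := Np_ratio hA (Nat.lt_succ_self k)
  have h2 : (1 : ℝ) ≤ Real.exp (Lp A (k + 1)) := Real.one_le_exp (Lp_pos hA (k + 1)).le
  have h3 : (Np A k : ℝ) ≤ Np A (k + 1) := by
    refine le_trans ?_ h1
    have := Np_pos hA k
    nlinarith
  have h4 : kp A (k + 1) < kp A k := by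
    unfold kp
    have e1 : Lp A (k + 1) ≤ Lp A (k + 1 + 1) := Lp_mono hA (by omega)
    have e2 := Lp_pos hA (k + 1)
    have e3 : (4 : ℝ) ^ (k + 1) < 4 ^ (k + 1 + 1) := pow_lt_pow_right₀ (by norm_num) (by omega)
    apply one_div_lt_one_div_of_lt (by positivity)
    calc (4 : ℝ) ^ (k + 1) * 400 * Lp A (k + 1) ^ 2
        < 4 ^ (k + 1 + 1) * 400 * Lp A (k + 1) ^ 2 := by gcongr
      _ ≤ 4 ^ (k + 1 + 1) * 400 * Lp A (k + 1 + 1) ^ 2 := by gcongr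
  unfold dp
  calc kp A (k + 1) / Np A (k + 1) ≤ kp A (k + 1) / Np A k :=
        div_le_div_of_nonneg_left (kp_pos hA _).le (Np_pos hA k) h3
    _ < kp A k / Np A k := div_lt_div_of_pos_right h4 (Np_pos hA k)

lemma Np_mul_dp_self (hA : 1 ≤ A) (k : ℕ) : Np A k * dp A k = kp A k := by
  unfold dp
  rw [mul_div_cancel₀]
  exact (Np_pos hA k).ne'

lemma Np_mul_dp_le (hA : 1 ≤ A) {i k : ℕ} (h : i < k) :
    Np A i * dp A k ≤ Real.exp (-(Lp A k)) := by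
  have h1 := Np_ratio hA h
  have h2 := Np_pos hA k
  have h3 := Real.exp_pos (Lp A k)
  unfold dp
  rw [Real.exp_neg, ← mul_div_assoc, div_le_iff₀ h2]
  have h4 : (Np A i : ℝ) ≤ (Real.exp (Lp A k))⁻¹ * Np A k := by
    rw [inv_mul_eq_div, le_div_iff₀ h3]
    linarith
  have h5 := kp_lt_one hA k
  have h6 := kp_pos hA k
  have h7 := Np_pos hA i
  nlinarith

lemma sum_exp_le (hA : 1 ≤ A) (k : ℕ) :
    ∑ i ∈ Finset.range k, 4 ^ (i + 1) * Real.exp (-(Lp A k) / 2 ^ (i + 1)) ≤ kp A k := by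
  rcases Nat.eq_zero_or_pos k with rfl | hk
  · simpa using (kp_pos hA 0).le
  have hL := Lp_pos hA k
  -- each term
  have hterm : ∀ i ∈ Finset.range k, (4 : ℝ) ^ (i + 1) * Real.exp (-(Lp A k) / 2 ^ (i + 1)) ≤
      4 ^ k * Real.exp (-(Lp A k / 2 ^ k)) := by
    intro i hi
    have hik : i + 1 ≤ k := Finset.mem_range.1 hi
    have h1 : (4 : ℝ) ^ (i + 1) ≤ 4 ^ k := pow_le_pow_right₀ (by norm_num) hik
    have h2 : (2 : ℝ) ^ (i + 1) ≤ 2 ^ k := pow_le_pow_right₀ (by norm_num) hik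
    have h3 : -(Lp A k) / 2 ^ (i + 1) ≤ -(Lp A k / 2 ^ k) := by
      rw [neg_div]
      apply neg_le_neg
      exact div_le_div_of_nonneg_left hL.le (by positivity) h2
    have h4 := Real.exp_le_exp.2 h3
    exact mul_le_mul h1 h4 (Real.exp_pos _).le (by positivity)
  refine (Finset.sum_le_sum hterm).trans ?_
  rw [Finset.sum_const, Finset.card_range, nsmul_eq_mul]
  set y : ℝ := Lp A k / 2 ^ k with hy
  have hLy : Lp A k = y * 2 ^ k := by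
    rw [hy]
    field_simp
  have hy0 : 0 < y := div_pos hL (by positivity)
  have hexp := exp_ge_six hy0.le
  -- lower bound for y
  have hyge : (2 : ℝ) ^ (10 * (k + 1) ^ 2 - k) ≤ y := by
    rw [hy, le_div_iff₀ (by positivity), ← pow_add,
      Nat.sub_add_cancel (by nlinarith)]
    unfold Lp
    have : (1024 : ℝ) ^ ((k + 1) ^ 2) = 2 ^ (10 * (k + 1) ^ 2) := by
      rw [pow_mul]
      norm_num
    rw [this]
    have h2 : (0 : ℝ) < 2 ^ (10 * (k + 1) ^ 2) := by positivity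
    nlinarith
  have hy4 : (2 : ℝ) ^ (47 * k + 81) ≤ y ^ 4 := by
    calc (2 : ℝ) ^ (47 * k + 81) ≤ 2 ^ ((10 * (k + 1) ^ 2 - k) * 4) := by
          apply pow_le_pow_right₀ (by norm_num)
          have : k ≤ 10 * (k + 1) ^ 2 := by nlinarith
          zify [this]
          have hk' : (1 : ℤ) ≤ k := by exact_mod_cast hk
          nlinarith
      _ = (2 ^ (10 * (k + 1) ^ 2 - k)) ^ 4 := pow_mul _ _ _
      _ ≤ y ^ 4 := by gcongr
  -- the main inequality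
  have hkp : kp A k = 1 / (4 ^ (k + 1) * 400 * (y ^ 2 * 2 ^ (42 * k + 60))) := by
    unfold kp
    rw [Lp_succ_eq, hLy]
    have : (y * 2 ^ k * 1024 ^ (2 * k + 3)) ^ 2 = y ^ 2 * 2 ^ (42 * k + 60) := by
      have e1 : (1024 : ℝ) ^ (2 * k + 3) = 2 ^ (20 * k + 30) := by
        rw [show (1024 : ℝ) = 2 ^ 10 by norm_num, ← pow_mul]
        congr 1
        ring
      rw [e1, mul_assoc, ← pow_add, mul_pow, ← pow_mul]
      congr 2
      ring
    rw [this]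
  rw [hkp, le_div_iff₀ (by positivity)]
  have hkk : (k : ℝ) ≤ 2 ^ k := by
    have : k ≤ 2 ^ k := Nat.lt_two_pow_self.le
    exact_mod_cast this
  have h400 : (400 : ℝ) ≤ 2 ^ 9 := by norm_num
  have h4k : (4 : ℝ) ^ k = 2 ^ (2 * k) := by rw [pow_mul]; norm_num
  have h4k1 : (4 : ℝ) ^ (k + 1) = 2 ^ (2 * k + 2) := by
    rw [show 2 * k + 2 = 2 * (k + 1) by ring, pow_mul]
    norm_num
  have hcoef : (k : ℝ) * (4 ^ k) * (4 ^ (k + 1) * 400 * 2 ^ (42 * k + 60)) ≤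
      2 ^ (47 * k + 71) := by
    rw [h4k, h4k1]
    calc (k : ℝ) * 2 ^ (2 * k) * (2 ^ (2 * k + 2) * 400 * 2 ^ (42 * k + 60))
        ≤ 2 ^ k * 2 ^ (2 * k) * (2 ^ (2 * k + 2) * 2 ^ 9 * 2 ^ (42 * k + 60)) := by gcongr
      _ = 2 ^ (47 * k + 71) := by
          rw [← pow_add, ← pow_add, ← pow_add, ← pow_add]
          congr 1
          ring
  have hfin : (2 : ℝ) ^ (47 * k + 71) * y ^ 2 ≤ Real.exp y := by
    refine le_trans ?_ hexp
    rw [le_div_iff₀ (by norm_num)]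
    calc (2 : ℝ) ^ (47 * k + 71) * y ^ 2 * 720 ≤ 2 ^ (47 * k + 71) * y ^ 2 * 2 ^ 10 := by
          gcongr
          norm_num
      _ = 2 ^ (47 * k + 81) * y ^ 2 := by
          rw [show 47 * k + 81 = 47 * k + 71 + 10 by ring, pow_add]
          ring
      _ ≤ y ^ 4 * y ^ 2 := by gcongr
      _ = y ^ 6 := by ring
  have hey : Real.exp (-y) * Real.exp y = 1 := by
    rw [← Real.exp_add]
    simp
  calc (k : ℝ) * (4 ^ k * Real.exp (-y)) * (4 ^ (k + 1) * 400 * (y ^ 2 * 2 ^ (42 * k + 60)))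
      = ((k : ℝ) * (4 ^ k) * (4 ^ (k + 1) * 400 * 2 ^ (42 * k + 60))) * y ^ 2 *
          Real.exp (-y) := by ring
    _ ≤ 2 ^ (47 * k + 71) * y ^ 2 * Real.exp (-y) := by
        gcongr
    _ ≤ Real.exp y * Real.exp (-y) := by
        gcongr
    _ = 1 := by rw [mul_comm]; exact hey

/-- `(1-δ_k)^{N_j} ≤ exp(-δ_k N_j) ≤ exp(-κ_k exp L_j) ≤ exp(-L_j)`. -/
lemma pow_le_exp (hA : 1 ≤ A) {k j : ℕ} (h : k < j) :
    (1 - dp A k) ^ Np A j ≤ Real.exp (-(Lp A j)) := by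
  have h1 : 1 - dp A k ≤ Real.exp (-(dp A k)) := by
    have := Real.add_one_le_exp (-(dp A k))
    linarith
  have h0 : 0 ≤ 1 - dp A k := by linarith [dp_lt_one hA k]
  have h2 : (1 - dp A k) ^ Np A j ≤ Real.exp (-(dp A k)) ^ Np A j :=
    pow_le_pow_left₀ h0 h1 _
  refine h2.trans ?_
  rw [← Real.exp_nat_mul]
  apply Real.exp_le_exp.2
  have h3 : Lp A j ≤ Np A j * dp A k := by
    have hr := Np_ratio hA h
    have hN := Np_pos hA k
    have h4 : kp A k * Real.exp (Lp A j) ≤ Np A j * dp A k := by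
      unfold dp
      rw [← mul_div_assoc, le_div_iff₀ hN]
      have := kp_pos hA k
      nlinarith
    refine le_trans ?_ h4
    have hx := Lp_ge_1024 hA j
    have hexp := exp_ge_six (Lp_pos hA j).le
    unfold kp
    rw [one_div, inv_mul_eq_div, le_div_iff₀ (by have := Lp_pos hA (k + 1); positivity)]
    refine le_trans ?_ hexp
    have e1 : Lp A (k + 1) ≤ Lp A j := Lp_mono hA h
    have e2 : (4 : ℝ) ^ (k + 1) ≤ Lp A j := by
      refine le_trans ?_ (Lp_ge hA j)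
      calc (4 : ℝ) ^ (k + 1) ≤ 4 ^ (j + 1) := pow_le_pow_right₀ (by norm_num) (by omega)
        _ ≤ 1024 ^ (j + 1) := pow_le_pow_left₀ (by norm_num) (by norm_num) _
    have e3 := Lp_pos hA (k + 1)
    have e4 := Lp_pos hA j
    rw [le_div_iff₀ (by norm_num)]
    calc Lp A j * (4 ^ (k + 1) * 400 * Lp A (k + 1) ^ 2) * 720
        ≤ Lp A j * (Lp A j * 400 * Lp A j ^ 2) * 720 := by gcongr
      _ = Lp A j ^ 4 * (400 * 720) := by ring
      _ ≤ Lp A j ^ 4 * (Lp A j * Lp A j) := by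
          gcongr
          · linarith
          · linarith
      _ = Lp A j ^ 6 := by ring
  linarith

lemma Lp_exp_le (hA : 1 ≤ A) (j : ℕ) :
    2 * Lp A j * Real.exp (-(Lp A j)) ≤ (1 / 2) ^ (j + 1) := by
  have hx := Lp_pos hA j
  have hexp := exp_ge_sq hx.le
  have h1 : (2 : ℝ) ^ (j + 1) * 4 ≤ Lp A j := by
    refine le_trans ?_ (Lp_ge_two hA j)
    rw [show (4 : ℝ) = 2 ^ 2 by norm_num, ← pow_add]
    exact pow_le_pow_right₀ (by norm_num) (by omega)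
  rw [Real.exp_neg, ← div_eq_mul_inv, div_le_iff₀ (Real.exp_pos _)]
  have h7 : (1 / 2 : ℝ) ^ (j + 1) * 2 ^ (j + 1) = 1 := by
    rw [← mul_pow]
    norm_num
  have h8 : (0 : ℝ) < (1 / 2 : ℝ) ^ (j + 1) := by positivity
  have h9 : 4 ≤ (1 / 2 : ℝ) ^ (j + 1) * Lp A j := by
    calc (4 : ℝ) = (1 / 2 : ℝ) ^ (j + 1) * (2 ^ (j + 1) * 4) := by
          rw [← mul_assoc, h7, one_mul]
      _ ≤ (1 / 2 : ℝ) ^ (j + 1) * Lp A j := by gcongr
  calc 2 * Lp A j ≤ (1 / 2 : ℝ) ^ (j + 1) * (Lp A j ^ 2 / 2) := by nlinarith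
    _ ≤ (1 / 2 : ℝ) ^ (j + 1) * Real.exp (Lp A j) := by gcongr

lemma sqrt_kp (hA : 1 ≤ A) (k : ℕ) :
    Real.sqrt (kp A k) = 1 / (2 ^ (k + 1) * 20 * Lp A (k + 1)) := by
  have h := Lp_pos hA (k + 1)
  rw [Real.sqrt_eq_iff_mul_self_eq (kp_pos hA k).le (by positivity)]
  unfold kp
  rw [div_mul_div_comm, one_mul]
  congr 1
  have : (4 : ℝ) ^ (k + 1) = 2 ^ (k + 1) * 2 ^ (k + 1) := by
    rw [← mul_pow]
    norm_num
  rw [this]
  ring

lemma log_Lp (hA : 1 ≤ A) (k : ℕ) :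
    Real.log (Lp A k) = Real.log A + 10 * (k + 1) ^ 2 * Real.log 2 := by
  unfold Lp
  have : (1024 : ℝ) ^ ((k + 1) ^ 2) = 2 ^ (10 * (k + 1) ^ 2) := by
    rw [pow_mul]
    norm_num
  rw [this, Real.log_mul (by linarith) (by positivity), Real.log_pow]
  push_cast
  ring

lemma log_bound (hA : 1 ≤ A) (k : ℕ) :
    Real.log (2 ^ k / dp A k) - 2 * Bp A k + 2 ≤ 4 * Real.log A + 100 * (k + 1) ^ 2 := by
  have hL := Lp_pos hA k
  have hL1 := Lp_pos hA (k + 1)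
  have hN := Np_pos hA k
  have hy := one_le_yp hA k
  have e1 : (2 : ℝ) ^ k / dp A k =
      2 ^ k * (Np A k * (4 ^ (k + 1) * 400 * Lp A (k + 1) ^ 2)) := by
    unfold dp kp
    field_simp
  have e2 : (2 : ℝ) ^ k / dp A k ≤
      2 ^ k * ((2 * yp A k) * (2 ^ (2 * k + 2) * 2 ^ 9 * Lp A (k + 1) ^ 2)) := by
    rw [e1]
    have h4 : (4 : ℝ) ^ (k + 1) = 2 ^ (2 * k + 2) := by
      rw [show 2 * k + 2 = 2 * (k + 1) by ring, pow_mul]
      norm_num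
    rw [h4]
    have h5 := Np_le hA k
    gcongr
    norm_num
  have e3 : (2 : ℝ) ^ k * ((2 * yp A k) * (2 ^ (2 * k + 2) * 2 ^ 9 * Lp A (k + 1) ^ 2)) =
      2 ^ (4 * k + 12) * (Lp A k ^ 2 * Lp A (k + 1) ^ 2) * Real.exp (2 * Bp A k) := by
    unfold yp
    have : (2 : ℝ) ^ (4 * k + 12) = 2 ^ k * 2 ^ k * 2 ^ (2 * k + 2) * 2 ^ 9 * 2 := by
      rw [← pow_add, ← pow_add, ← pow_add, ← pow_succ]
      congr 1
      ring
    rw [this]
    ring
  have hpos : 0 < (2 : ℝ) ^ k / dp A k := div_pos (by positivity) (dp_pos hA k)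
  have e4 : Real.log (2 ^ k / dp A k) ≤ (4 * k + 12) * Real.log 2 + (2 * Real.log (Lp A k) +
      2 * Real.log (Lp A (k + 1))) + 2 * Bp A k := by
    refine (Real.log_le_log hpos (e2.trans e3.le)).trans (le_of_eq ?_)
    rw [Real.log_mul (by positivity) (Real.exp_pos _).ne', Real.log_exp,
      Real.log_mul (by positivity) (by positivity), Real.log_pow,
      Real.log_mul (by positivity) (by positivity), Real.log_pow, Real.log_pow]
    push_cast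
    ring
  rw [log_Lp hA k, log_Lp hA (k + 1)] at e4
  have hl2 : Real.log 2 < 0.6931471808 := Real.log_two_lt_d9
  have hl20 : 0 < Real.log 2 := Real.log_pos (by norm_num)
  push_cast at e4
  have hk : (0 : ℝ) ≤ k := Nat.cast_nonneg k
  have e5 : ((4 * k + 12) + (20 * (k + 1) ^ 2 + 20 * (k + 1 + 1) ^ 2)) * Real.log 2 + 2 ≤
      100 * ((k : ℝ) + 1) ^ 2 := by
    have h6 : (0 : ℝ) ≤ (4 * k + 12) + (20 * (k + 1) ^ 2 + 20 * (k + 1 + 1) ^ 2) := by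
      positivity
    have h7 := mul_le_mul_of_nonneg_left hl2.le h6
    nlinarith
  nlinarith

end Pool.Agent.Lib.MP_7d8448_an
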