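import Mathlib

set_option autoImplicit false

namespace Pool.Agent.Lib.MP_7d8448_an

open Metric

/-- Cauchy estimate for the Fréchet derivative, by slices. -/
lemma norm_fderiv_le_of_bound {f : ℂ × ℂ → ℂ} {z : ℂ × ℂ} {r M : ℝ} (hr : 0 < r)
    (hf : DifferentiableOn ℂ f (ball z r)) (hM : ∀ w ∈ ball z r, ‖f w‖ ≤ M) :
    ‖fderiv ℂ f z‖ ≤ M / (r / 2) := by
  have hM0 : 0 ≤ M := (norm_nonneg _).trans (hM z (mem_ball_self hr))
  refine ContinuousLinearMap.opNorm_le_bound _ (by positivity) fun h => ?_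
  rcases eq_or_ne h 0 with rfl | hh
  · simp
  have hhpos : 0 < ‖h‖ := norm_pos_iff.2 hh
  let g : ℂ → ℂ := fun t => f (z + t • h)
  have hR : 0 < r / 2 / ‖h‖ := by positivity
  have hmem : ∀ t : ℂ, ‖t‖ ≤ r / 2 / ‖h‖ → z + t • h ∈ ball z r := by
    intro t ht
    rw [mem_ball, dist_eq_norm, add_sub_cancel_left, norm_smul]
    calc ‖t‖ * ‖h‖ ≤ r / 2 / ‖h‖ * ‖h‖ := by gcongr
      _ = r / 2 := by field_simp
      _ < r := by linarith
  have hline : ∀ t : ℂ, HasDerivAt (fun t : ℂ => z + t • h) h t := by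
    intro t
    have := ((hasDerivAt_id t).smul_const h).const_add z
    simpa using this
  have hfd : ∀ w ∈ ball z r, DifferentiableAt ℂ f w := fun w hw =>
    (hf w hw).differentiableAt (isOpen_ball.mem_nhds hw)
  have hgd : ∀ t : ℂ, ‖t‖ ≤ r / 2 / ‖h‖ → DifferentiableAt ℂ g t := by
    intro t ht
    exact (hfd _ (hmem t ht)).comp t (hline t).differentiableAt
  have hgdiff : DiffContOnCl ℂ g (ball 0 (r / 2 / ‖h‖)) := by
    refine DifferentiableOn.diffContOnCl fun t ht => ?_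
    rw [closure_ball (0 : ℂ) hR.ne', mem_closedBall, dist_zero_right] at ht
    exact (hgd t ht).differentiableWithinAt
  have hc := Complex.norm_deriv_le_of_forall_mem_sphere_norm_le hR hgdiff
    (C := M) (fun t ht => hM _ (hmem t (by
      rw [mem_sphere, dist_zero_right] at ht
      exact ht.le)))
  have hderiv : deriv g 0 = fderiv ℂ f z h := by
    have h1 : HasFDerivAt f (fderiv ℂ f z) (z + (0 : ℂ) • h) := by
      rw [zero_smul, add_zero]
      exact (hfd z (mem_ball_self hr)).hasFDerivAt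
    exact (h1.comp_hasDerivAt (0 : ℂ) (hline 0)).deriv
  rw [hderiv] at hc
  refine hc.trans (le_of_eq ?_)
  field_simp

/-- Locally uniformly convergent series of holomorphic functions on the bidisc.
Proof: Cauchy estimates on slices bound `‖fderiv ℂ (F n) z‖` on smaller balls, then
`hasFDerivAt_tsum_of_isPreconnected`. -/
lemma differentiableOn_tsum2 {F : ℕ → ℂ × ℂ → ℂ}
    (hF : ∀ n, DifferentiableOn ℂ (F n) (ball (0 : ℂ × ℂ) 1))
    (hb : ∀ ρ : ℝ, 0 < ρ → ρ < 1 → ∃ u : ℕ → ℝ, Summable u ∧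
      ∀ n, ∀ z ∈ ball (0 : ℂ × ℂ) ρ, ‖F n z‖ ≤ u n) :
    DifferentiableOn ℂ (fun z => ∑' n, F n z) (ball (0 : ℂ × ℂ) 1) := by
  intro z hz
  rw [mem_ball, dist_zero_right] at hz
  obtain ⟨ρ, h1, h2⟩ := exists_between hz
  obtain ⟨ρ', h3, h4⟩ := exists_between h2
  have hρ : 0 < ρ := (norm_nonneg z).trans_lt h1
  obtain ⟨u, hu, hbu⟩ := hb ρ' (hρ.trans h3) h4
  have hopen : IsOpen (ball (0 : ℂ × ℂ) ρ) := isOpen_ball
  have hpre : IsPreconnected (ball (0 : ℂ × ℂ) ρ) :=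
    (convex_ball (0 : ℂ × ℂ) ρ).isPreconnected
  have hsub : ∀ w ∈ ball (0 : ℂ × ℂ) ρ, ball w (ρ' - ρ) ⊆ ball (0 : ℂ × ℂ) ρ' := by
    intro w hw
    refine ball_subset_ball' ?_
    rw [mem_ball] at hw
    linarith
  have hsub1 : ball (0 : ℂ × ℂ) ρ' ⊆ ball (0 : ℂ × ℂ) 1 := ball_subset_ball h4.le
  have key := hasFDerivAt_tsum_of_isPreconnected (𝕜 := ℂ) (f := F)
    (f' := fun n w => fderiv ℂ (F n) w) (u := fun n => u n / ((ρ' - ρ) / 2))
    (hu.div_const _) hopen hpre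
    (fun n w hw => by
      have hw1 : w ∈ ball (0 : ℂ × ℂ) 1 := ball_subset_ball h2.le hw
      exact ((hF n w hw1).differentiableAt (isOpen_ball.mem_nhds hw1)).hasFDerivAt)
    (fun n w hw => norm_fderiv_le_of_bound (sub_pos.2 h3)
      ((hF n).mono ((hsub w hw).trans hsub1)) (fun v hv => hbu n v (hsub w hw hv)))
    (x₀ := 0) (mem_ball_self hρ)
    (Summable.of_norm_bounded hu (fun n => hbu n 0 (mem_ball_self (hρ.trans h3))))
    (x := z) (by rw [mem_ball, dist_zero_right]; exact h1)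
  exact key.differentiableAt.differentiableWithinAt

end Pool.Agent.Lib.MP_7d8448_an
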