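import Pool.Agent.Lib.MP_7d8448_anB.Strip
import Pool.Agent.Lib.MP_7d8448_anB.Params
import Pool.Agent.Lib.MP_7d8448_anB.Tsum2

set_option autoImplicit false

namespace Pool.Agent.Lib.MP_7d8448_an

open Complex Metric Filter Topology

/-- The kernel. -/
noncomputable def EN (N : ℕ) (z : ℂ × ℂ) : ℂ :=
  (1 / ((N : ℂ) + 1)) * ∑ i ∈ Finset.range (N + 1), z.1 ^ i * z.2 ^ (N - i)

lemma norm_EN_le (N : ℕ) (z : ℂ × ℂ) : ‖EN N z‖ ≤ ‖z‖ ^ N := by
  have h1 : ‖∑ i ∈ Finset.range (N + 1), z.1 ^ i * z.2 ^ (N - i)‖ ≤ ((N : ℝ) + 1) * ‖z‖ ^ N := by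
    refine (norm_sum_le _ _).trans ?_
    have : ∀ i ∈ Finset.range (N + 1), ‖z.1 ^ i * z.2 ^ (N - i)‖ ≤ ‖z‖ ^ N := by
      intro i hi
      have hi' : i ≤ N := Nat.lt_succ_iff.1 (Finset.mem_range.1 hi)
      rw [norm_mul, norm_pow, norm_pow]
      calc ‖z.1‖ ^ i * ‖z.2‖ ^ (N - i) ≤ ‖z‖ ^ i * ‖z‖ ^ (N - i) := by
            gcongr
            · exact norm_fst_le z
            · exact norm_snd_le z
        _ = ‖z‖ ^ N := by rw [← pow_add, Nat.add_sub_cancel' hi']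
    refine (Finset.sum_le_sum this).trans (le_of_eq ?_)
    rw [Finset.sum_const, Finset.card_range, nsmul_eq_mul]; push_cast; ring
  have h2 : ‖(1 / ((N : ℂ) + 1))‖ = 1 / ((N : ℝ) + 1) := by
    have : (1 / ((N : ℂ) + 1)) = ((1 / ((N : ℝ) + 1) : ℝ) : ℂ) := by push_cast; ring
    rw [this, norm_real, Real.norm_of_nonneg (by positivity)]
  unfold EN
  rw [norm_mul, h2]
  calc 1 / ((N : ℝ) + 1) * ‖∑ i ∈ Finset.range (N + 1), z.1 ^ i * z.2 ^ (N - i)‖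
      ≤ 1 / ((N : ℝ) + 1) * (((N : ℝ) + 1) * ‖z‖ ^ N) := by gcongr
    _ = ‖z‖ ^ N := by field_simp

lemma EN_diag (N : ℕ) (z : ℂ) : EN N (z, z) = z ^ N := by
  unfold EN
  have : ∀ i ∈ Finset.range (N + 1), z ^ i * z ^ (N - i) = z ^ N := by
    intro i hi
    rw [← pow_add, Nat.add_sub_cancel' (Nat.lt_succ_iff.1 (Finset.mem_range.1 hi))]
  simp only
  rw [Finset.sum_congr rfl this, Finset.sum_const, Finset.card_range, nsmul_eq_mul]
  have : ((N : ℂ) + 1) ≠ 0 := by exact_mod_cast Nat.succ_ne_zero N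
  push_cast
  field_simp

lemma EN_off (N : ℕ) {r : ℝ} (h0 : 0 ≤ r) (h1 : r ≤ 1) {z w : ℂ} (hz : ‖z‖ = 1) (hw : ‖w‖ = 1) :
    ‖EN N (r * z, r * w)‖ * (N * ‖z - w‖) ≤ 2 := by
  have hsc : EN N (r * z, r * w) = (r : ℂ) ^ N * EN N (z, w) := by
    unfold EN
    have : ∀ i ∈ Finset.range (N + 1), ((r : ℂ) * z) ^ i * (r * w) ^ (N - i) =
        (r : ℂ) ^ N * (z ^ i * w ^ (N - i)) := by
      intro i hi
      have hi' : i + (N - i) = N := Nat.add_sub_cancel' (Nat.lt_succ_iff.1 (Finset.mem_range.1 hi))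
      conv_rhs => rw [← hi', pow_add]
      simp only [mul_pow, hi']
      ring
    simp only
    rw [Finset.sum_congr rfl this, ← Finset.mul_sum]
    ring
  have hgeom : (∑ i ∈ Finset.range (N + 1), z ^ i * w ^ (N - i)) * (z - w) =
      z ^ (N + 1) - w ^ (N + 1) := by
    have := (Commute.all z w).geom_sum₂_mul (N + 1)
    simpa using this
  have h2 : ‖(1 / ((N : ℂ) + 1))‖ = 1 / ((N : ℝ) + 1) := by
    have : (1 / ((N : ℂ) + 1)) = ((1 / ((N : ℝ) + 1) : ℝ) : ℂ) := by push_cast; ring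
    rw [this, norm_real, Real.norm_of_nonneg (by positivity)]
  have h3 : ‖∑ i ∈ Finset.range (N + 1), z ^ i * w ^ (N - i)‖ * ‖z - w‖ ≤ 2 := by
    rw [← norm_mul, hgeom]
    refine (norm_sub_le _ _).trans ?_
    rw [norm_pow, norm_pow, hz, hw]; norm_num
  have h4 : ‖(r : ℂ) ^ N‖ ≤ 1 := by
    rw [norm_pow, norm_real, Real.norm_of_nonneg h0]; exact pow_le_one₀ h0 h1
  rw [hsc, norm_mul]
  calc ‖(r : ℂ) ^ N‖ * ‖EN N (z, w)‖ * (N * ‖z - w‖)
      ≤ 1 * ‖EN N (z, w)‖ * (((N : ℝ) + 1) * ‖z - w‖) := by gcongr; linarith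
    _ = ‖∑ i ∈ Finset.range (N + 1), z ^ i * w ^ (N - i)‖ * ‖z - w‖ := by
      unfold EN
      rw [norm_mul, h2]
      field_simp
    _ ≤ 2 := h3

lemma differentiable_EN (N : ℕ) : Differentiable ℂ (EN N) := by
  unfold EN
  fun_prop

/-- The multipliers. -/
noncomputable def Mf (A : ℝ) : ℕ → ℂ × ℂ → ℂ
  | 0 => fun _ => 1
  | k + 1 => fun z => Mf A k z * exp (-(V (Mf A k z * EN (Np A k) z)))

noncomputable def Wf (A : ℝ) (k : ℕ) (z : ℂ × ℂ) : ℂ := Mf A k z * EN (Np A k) z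

noncomputable def xf (A : ℝ) (k : ℕ) (z : ℂ × ℂ) : ℝ := X (Wf A k z)

variable {A : ℝ}

lemma Mf_succ (k : ℕ) (z : ℂ × ℂ) : Mf A (k + 1) z = Mf A k z * exp (-(V (Wf A k z))) := rfl

lemma Mf_zero (z : ℂ × ℂ) : Mf A 0 z = 1 := rfl

lemma norm_Wf_le_of (k : ℕ) {z : ℂ × ℂ} (hM : ‖Mf A k z‖ ≤ 1) : ‖Wf A k z‖ ≤ ‖z‖ ^ Np A k := by
  unfold Wf
  rw [norm_mul]
  calc ‖Mf A k z‖ * ‖EN (Np A k) z‖ ≤ 1 * ‖z‖ ^ Np A k := by
        gcongr; exact norm_EN_le _ _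
    _ = _ := one_mul _

lemma pow_lt_one' (hA : 1 ≤ A) (k : ℕ) {ρ : ℝ} (h0 : 0 ≤ ρ) (h1 : ρ < 1) : ρ ^ Np A k < 1 :=
  pow_lt_one₀ h0 h1 (by have := one_le_Np hA k; omega)

lemma norm_Mf_le_one (hA : 1 ≤ A) {z : ℂ × ℂ} (hz : ‖z‖ < 1) (k : ℕ) : ‖Mf A k z‖ ≤ 1 := by
  induction k with
  | zero => simp [Mf_zero]
  | succ k ih =>
    rw [Mf_succ, norm_mul, norm_exp, neg_re]
    have hW : ‖Wf A k z‖ < 1 := (norm_Wf_le_of k ih).trans_lt (pow_lt_one' hA k (norm_nonneg _) hz)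
    have hX : 0 < (V (Wf A k z)).re := X_pos hW
    calc ‖Mf A k z‖ * Real.exp (-(V (Wf A k z)).re) ≤ 1 * 1 := by
          gcongr
          exact Real.exp_le_one_iff.2 (by linarith)
      _ = 1 := one_mul _

lemma norm_Wf_le (hA : 1 ≤ A) {z : ℂ × ℂ} (hz : ‖z‖ < 1) (k : ℕ) : ‖Wf A k z‖ ≤ ‖z‖ ^ Np A k :=
  norm_Wf_le_of k (norm_Mf_le_one hA hz k)

lemma norm_Wf_lt (hA : 1 ≤ A) {z : ℂ × ℂ} (hz : ‖z‖ < 1) (k : ℕ) : ‖Wf A k z‖ < 1 :=
  (norm_Wf_le hA hz k).trans_lt (pow_lt_one' hA k (norm_nonneg _) hz)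

lemma xf_pos (hA : 1 ≤ A) {z : ℂ × ℂ} (hz : ‖z‖ < 1) (k : ℕ) : 0 < xf A k z :=
  X_pos (norm_Wf_lt hA hz k)

lemma xf_lt_one (hA : 1 ≤ A) {z : ℂ × ℂ} (hz : ‖z‖ < 1) (k : ℕ) : xf A k z < 1 :=
  X_lt_one (norm_Wf_lt hA hz k)

lemma norm_Mf (k : ℕ) (z : ℂ × ℂ) :
    ‖Mf A k z‖ = Real.exp (-∑ j ∈ Finset.range k, xf A j z) := by
  induction k with
  | zero => simp [Mf_zero]
  | succ k ih =>
    rw [Mf_succ, norm_mul, norm_exp, neg_re, ih, Finset.sum_range_succ, ← Real.exp_add]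
    congr 1
    simp only [xf, X]
    ring

lemma differentiableOn_Mf_Wf (hA : 1 ≤ A) (k : ℕ) :
    DifferentiableOn ℂ (Mf A k) (ball (0 : ℂ × ℂ) 1) := by
  induction k with
  | zero => exact differentiableOn_const _
  | succ k ih =>
    have hW : DifferentiableOn ℂ (Wf A k) (ball (0 : ℂ × ℂ) 1) :=
      ih.mul (differentiable_EN _).differentiableOn
    have hV : DifferentiableOn ℂ (fun z => V (Wf A k z)) (ball (0 : ℂ × ℂ) 1) := by
      refine differentiableOn_V.comp hW ?_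
      intro z hz
      have hz' : ‖z‖ < 1 := by simpa using hz
      simpa using norm_Wf_lt hA hz' k
    exact ih.mul hV.neg.cexp

lemma differentiableOn_Wf (hA : 1 ≤ A) (k : ℕ) :
    DifferentiableOn ℂ (Wf A k) (ball (0 : ℂ × ℂ) 1) :=
  (differentiableOn_Mf_Wf hA k).mul (differentiable_EN _).differentiableOn

lemma differentiableOn_VWf (hA : 1 ≤ A) (k : ℕ) :
    DifferentiableOn ℂ (fun z => V (Wf A k z)) (ball (0 : ℂ × ℂ) 1) := by
  refine differentiableOn_V.comp (differentiableOn_Wf hA k) ?_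
  intro z hz
  have hz' : ‖z‖ < 1 := by simpa using hz
  simpa using norm_Wf_lt hA hz' k

/-- Linear bound for `V - V 0` on compact discs. -/
lemma exists_V_bound {ρ : ℝ} (h1 : ρ < 1) :
    ∃ K : ℝ, 0 ≤ K ∧ ∀ w : ℂ, ‖w‖ ≤ ρ → ‖V w - V 0‖ ≤ K * ‖w‖ := by
  have hc : ContinuousOn V (closedBall 0 ρ) :=
    differentiableOn_V.continuousOn.mono (closedBall_subset_ball h1)
  obtain ⟨S, hS⟩ := (isCompact_closedBall (0 : ℂ) ρ).exists_bound_of_continuousOn hc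
  refine ⟨max 2 (2 * (S + ‖V 0‖)), by positivity, fun w hw => ?_⟩
  rcases le_total ‖w‖ (1 / 2) with h | h
  · exact (norm_V_sub_le h).trans (by gcongr; exact le_max_left _ _)
  · have hSw := hS w (by simpa using hw)
    have hS0 : 0 ≤ S := (norm_nonneg _).trans hSw
    calc ‖V w - V 0‖ ≤ ‖V w‖ + ‖V 0‖ := norm_sub_le _ _
      _ ≤ S + ‖V 0‖ := by gcongr
      _ = 2 * (S + ‖V 0‖) * (1 / 2) := by ring
      _ ≤ max 2 (2 * (S + ‖V 0‖)) * ‖w‖ := by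
        gcongr
        exact le_max_right _ _

lemma nat_mul_pow_le {ρ : ℝ} (h0 : 0 ≤ ρ) (h1 : ρ < 1) (N : ℕ) : N * ρ ^ N ≤ 1 / (1 - ρ) := by
  have h2 : (N : ℝ) * ρ ^ N ≤ ∑ i ∈ Finset.range N, ρ ^ i := by
    have : ∑ i ∈ Finset.range N, ρ ^ N ≤ ∑ i ∈ Finset.range N, ρ ^ i := by
      refine Finset.sum_le_sum fun i hi => ?_
      exact pow_le_pow_of_le_one h0 h1.le (Finset.mem_range.1 hi).le
    rwa [Finset.sum_const, Finset.card_range, nsmul_eq_mul] at this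
  refine h2.trans ?_
  have h3 := (hasSum_geometric_of_lt_one h0 h1)
  rw [one_div]
  exact sum_le_hasSum _ (fun i _ => by positivity) h3

lemma Lp_mul_pow_le (hA : 1 ≤ A) {ρ : ℝ} (h0 : 0 ≤ ρ) (h1 : ρ < 1) (k : ℕ) :
    Lp A k * ρ ^ Np A k ≤ (1 / (1 - ρ)) * (1 / 2) ^ k := by
  have h2 := Np_ge hA k
  have h3 := nat_mul_pow_le h0 h1 (Np A k)
  have h4 : Lp A k ≤ (1 / 2) ^ k * Np A k := by
    rw [one_div, inv_pow, ← div_eq_inv_mul, le_div_iff₀ (by positivity)]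
    linarith
  calc Lp A k * ρ ^ Np A k ≤ (1 / 2) ^ k * Np A k * ρ ^ Np A k := by gcongr
    _ = (1 / 2) ^ k * (Np A k * ρ ^ Np A k) := by ring
    _ ≤ (1 / 2) ^ k * (1 / (1 - ρ)) := by gcongr
    _ = _ := mul_comm _ _

lemma summable_Lp_pow (hA : 1 ≤ A) {ρ : ℝ} (h0 : 0 ≤ ρ) (h1 : ρ < 1) :
    Summable fun k => Lp A k * ρ ^ Np A k :=
  Summable.of_nonneg_of_le (fun k => mul_nonneg (Lp_pos hA k).le (by positivity))
    (fun k => Lp_mul_pow_le hA h0 h1 k) (summable_geometric_two.mul_left _)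

/-- Terms of the series for `h`. -/
noncomputable def hterm (A : ℝ) (k : ℕ) (z : ℂ × ℂ) : ℂ := (Lp A k : ℂ) * (V (Wf A k z) - V 0)

lemma hterm_bound (hA : 1 ≤ A) {ρ : ℝ} (h0 : 0 ≤ ρ) (h1 : ρ < 1) :
    ∃ u : ℕ → ℝ, Summable u ∧ ∀ k, ∀ z : ℂ × ℂ, ‖z‖ ≤ ρ → ‖hterm A k z‖ ≤ u k := by
  obtain ⟨K, hK0, hK⟩ := exists_V_bound h1
  refine ⟨fun k => K * (Lp A k * ρ ^ Np A k), (summable_Lp_pow hA h0 h1).mul_left K, ?_⟩
  intro k z hz
  have hz1 : ‖z‖ < 1 := hz.trans_lt h1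
  have hW : ‖Wf A k z‖ ≤ ρ ^ Np A k :=
    (norm_Wf_le hA hz1 k).trans (pow_le_pow_left₀ (norm_nonneg _) hz _)
  have hWρ : ‖Wf A k z‖ ≤ ρ := hW.trans (pow_le_of_le_one h0 h1.le (by have := one_le_Np hA k; omega))
  unfold hterm
  rw [norm_mul, norm_real, Real.norm_of_nonneg (Lp_pos hA k).le]
  have := Lp_pos hA k
  calc Lp A k * ‖V (Wf A k z) - V 0‖ ≤ Lp A k * (K * ρ ^ Np A k) := by
        gcongr
        exact (hK _ hWρ).trans (by gcongr)
    _ = K * (Lp A k * ρ ^ Np A k) := by ring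

noncomputable def hf (A : ℝ) (z : ℂ × ℂ) : ℂ := -A + ∑' k, hterm A k z

noncomputable def ff (A : ℝ) (z : ℂ × ℂ) : ℂ := exp (hf A z)

lemma summable_hterm (hA : 1 ≤ A) {z : ℂ × ℂ} (hz : ‖z‖ < 1) : Summable fun k => hterm A k z := by
  obtain ⟨u, hu, hb⟩ := hterm_bound hA (norm_nonneg z) hz
  exact Summable.of_norm_bounded hu fun k => hb k z le_rfl

lemma differentiableOn_hf (hA : 1 ≤ A) : DifferentiableOn ℂ (hf A) (ball (0 : ℂ × ℂ) 1) := by
  unfold hf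
  refine (differentiableOn_const _).add (differentiableOn_tsum2 ?_ ?_)
  · intro k
    exact ((differentiableOn_VWf hA k).sub_const _).const_mul _
  · intro ρ h0 h1
    obtain ⟨u, hu, hb⟩ := hterm_bound hA h0.le h1
    refine ⟨u, hu, fun n z hz => hb n z ?_⟩
    exact (by simpa using hz : ‖z‖ < ρ).le

lemma differentiableOn_ff (hA : 1 ≤ A) : DifferentiableOn ℂ (ff A) (ball (0 : ℂ × ℂ) 1) :=
  (differentiableOn_hf hA).cexp

lemma ff_ne_zero (z : ℂ × ℂ) : ff A z ≠ 0 := exp_ne_zero _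

lemma norm_ff (z : ℂ × ℂ) : ‖ff A z‖ = Real.exp (hf A z).re := norm_exp _

lemma hterm_re (k : ℕ) (z : ℂ × ℂ) : (hterm A k z).re = Lp A k * (xf A k z - 1 / 4) := by
  have : (V 0).re = 1 / 4 := X_zero
  unfold hterm
  rw [re_ofReal_mul, sub_re, this]
  rfl

lemma summable_hterm_re (hA : 1 ≤ A) {z : ℂ × ℂ} (hz : ‖z‖ < 1) :
    Summable fun k => Lp A k * (xf A k z - 1 / 4) := by
  have := (hasSum_re (summable_hterm hA hz).hasSum).summable
  simpa only [hterm_re] using this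

lemma hf_re (hA : 1 ≤ A) {z : ℂ × ℂ} (hz : ‖z‖ < 1) :
    (hf A z).re = -A + ∑' k, Lp A k * (xf A k z - 1 / 4) := by
  unfold hf
  rw [add_re, neg_re, ofReal_re, re_tsum (summable_hterm hA hz)]
  simp only [hterm_re]

lemma hf_re_split (hA : 1 ≤ A) {z : ℂ × ℂ} (hz : ‖z‖ < 1) (k : ℕ) :
    (hf A z).re = (-A + ∑ j ∈ Finset.range k, Lp A j * (xf A j z - 1 / 4)) +
      ∑' i, Lp A (k + i) * (xf A (k + i) z - 1 / 4) := by
  rw [hf_re hA hz, ← (summable_hterm_re hA hz).sum_add_tsum_nat_add k]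
  simp only [add_comm k]
  ring

/-- Partial sums: upper bound `B_k`. -/
lemma partial_eq (k : ℕ) (z : ℂ × ℂ) :
    -A + ∑ j ∈ Finset.range (k + 1), Lp A j * (xf A j z - 1 / 4) =
      Bp A k - Lp A k * (1 - xf A k z) + ∑ j ∈ Finset.range k, Lp A j * xf A j z := by
  unfold Bp ap
  simp only [mul_sub, Finset.sum_sub_distrib]
  rw [← Finset.sum_mul, Finset.sum_range_succ (fun j => Lp A j * xf A j z)]
  ring

lemma partial_lower (hA : 1 ≤ A) {z : ℂ × ℂ} (hz : ‖z‖ < 1) (k : ℕ) :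
    -ap A k ≤ -A + ∑ j ∈ Finset.range (k + 1), Lp A j * (xf A j z - 1 / 4) := by
  unfold ap
  simp only [mul_sub, Finset.sum_sub_distrib]
  have h1 : 0 ≤ ∑ j ∈ Finset.range (k + 1), Lp A j * xf A j z :=
    Finset.sum_nonneg fun j _ => mul_nonneg (Lp_pos hA j).le (xf_pos hA hz j).le
  rw [← Finset.sum_mul]
  linarith

lemma partial_upper (hA : 1 ≤ A) {z : ℂ × ℂ} (hz : ‖z‖ < 1) (k : ℕ) :
    -A + ∑ j ∈ Finset.range (k + 1), Lp A j * (xf A j z - 1 / 4) ≤ Bp A k := by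
  rw [partial_eq]
  suffices h : ∑ j ∈ Finset.range k, Lp A j * xf A j z ≤ Lp A k * (1 - xf A k z) by linarith
  rcases Nat.eq_zero_or_pos k with rfl | hk
  · simp only [Finset.range_zero, Finset.sum_empty]
    exact mul_nonneg (Lp_pos hA 0).le (by linarith [xf_lt_one hA hz 0])
  obtain ⟨m, rfl⟩ : ∃ m, k = m + 1 := ⟨k - 1, by omega⟩
  set s : ℝ := ∑ j ∈ Finset.range (m + 1), xf A j z with hs
  have hs0 : 0 ≤ s := Finset.sum_nonneg fun j _ => (xf_pos hA hz j).le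
  have hsk : s ≤ m + 1 := by
    have : s ≤ ∑ j ∈ Finset.range (m + 1), (1 : ℝ) :=
      Finset.sum_le_sum fun j _ => (xf_lt_one hA hz j).le
    simpa using this
  have h1 : ∑ j ∈ Finset.range (m + 1), Lp A j * xf A j z ≤ Lp A m * s := by
    rw [hs, Finset.mul_sum]
    refine Finset.sum_le_sum fun j hj => ?_
    have := Lp_mono hA (Nat.lt_succ_iff.1 (Finset.mem_range.1 hj))
    have := (xf_pos hA hz j).le
    gcongr
  have hmin : s ≤ (m + 1) * min 1 s := by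
    rcases le_total 1 s with h | h
    · rw [min_eq_left h]; linarith
    · rw [min_eq_right h]
      have : (0 : ℝ) ≤ m := Nat.cast_nonneg m
      nlinarith
  have h2 : (1 - Real.exp (-s)) / 18 ≤ 1 - xf A (m + 1) z := by
    have := one_sub_X_ge (norm_Wf_lt hA hz (m + 1))
    have h3 : ‖Wf A (m + 1) z‖ ≤ Real.exp (-s) := by
      rw [hs, ← norm_Mf]
      unfold Wf
      rw [norm_mul]
      calc ‖Mf A (m + 1) z‖ * ‖EN (Np A (m + 1)) z‖ ≤ ‖Mf A (m + 1) z‖ * 1 := by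
            gcongr
            exact (norm_EN_le _ _).trans (pow_le_one₀ (norm_nonneg _) hz.le)
        _ = _ := mul_one _
    unfold xf
    linarith
  have h4 : 0.63 * min 1 s ≤ 1 - Real.exp (-s) := by
    rcases le_total 1 s with h | h
    · rw [min_eq_left h]
      have h5 : Real.exp (-s) ≤ Real.exp (-1) := Real.exp_le_exp.2 (by linarith)
      have h6 : Real.exp (-1) < 0.3679 := by
        have := Real.exp_neg_one_lt_d9
        linarith
      linarith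
    · rw [min_eq_right h]
      -- convexity of exp on [0,1]
      have hconv := convexOn_exp.2 (Set.mem_univ (0 : ℝ)) (Set.mem_univ (-1 : ℝ))
        (sub_nonneg.2 h) hs0 (by ring)
      have h6 : Real.exp (-1) < 0.3679 := by
        have := Real.exp_neg_one_lt_d9
        linarith
      simp only [smul_eq_mul, mul_zero, zero_add, Real.exp_zero, mul_one, mul_neg] at hconv
      nlinarith
  have h5 := Lp_succ hA m
  have hLm := Lp_pos hA m
  have hmin0 : 0 ≤ min 1 s := le_min zero_le_one hs0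
  calc ∑ j ∈ Finset.range (m + 1), Lp A j * xf A j z ≤ Lp A m * s := h1
    _ ≤ Lp A m * ((m + 1) * min 1 s) := by gcongr
    _ = (29 * (m + 1) * Lp A m) * (min 1 s / 29) := by ring
    _ ≤ Lp A (m + 1) * (min 1 s / 29) := by gcongr
    _ ≤ Lp A (m + 1) * (1 - xf A (m + 1) z) := by
      have := Lp_pos hA (m + 1)
      gcongr
      have : min 1 s / 29 ≤ 0.63 * min 1 s / 18 := by nlinarith
      linarith

end Pool.Agent.Lib.MP_7d8448_an
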