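import Pool.Agent.Lib.MP_7d8448_anB.TBound

set_option autoImplicit false

namespace Pool.Agent.Lib.MP_7d8448_an

open Complex Metric MeasureTheory Filter Topology
open scoped ComplexConjugate NNReal ENNReal

variable {A : ℝ}

/-- The radii. -/
noncomputable def rr (A : ℝ) (k : ℕ) : ℝ := 1 - dp A k

lemma rr_pos (hA : 1 ≤ A) (k : ℕ) : 0 < rr A k := by
  have := dp_lt_one hA k; unfold rr; linarith

lemma rr_lt_one (hA : 1 ≤ A) (k : ℕ) : rr A k < 1 := by
  have := dp_pos hA k; unfold rr; linarith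

lemma rr_lt_succ (hA : 1 ≤ A) (k : ℕ) : rr A k < rr A (k + 1) := by
  have := dp_succ_lt hA k; unfold rr; linarith

lemma TT_le_sqrt (hA : 1 ≤ A) {R : ℝ} (h0 : 0 ≤ R) (h1 : R < 1) (j : ℕ) {c : ℝ} (hc : 0 < c)
    (hE : Np A j * (1 - R) + ∑ i ∈ Finset.range j, TT A i R ≤ c ^ 2) : TT A j R ≤ 2 * c := by
  have := TT_le hA h0 h1 j hc
  have h2 : (Np A j * (1 - R) + ∑ i ∈ Finset.range j, TT A i R) / c ≤ c := by
    rw [div_le_iff₀ hc]; nlinarith
  linarith

lemma TT_small (hA : 1 ≤ A) (k i : ℕ) (hi : i < k) :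
    TT A i (rr A k) ≤ 4 ^ (i + 1) * Real.exp (-(Lp A k) / 2 ^ (i + 1)) := by
  induction i using Nat.strong_induction_on with
  | _ i ih =>
    set c : ℝ := 4 ^ (i + 1) * Real.exp (-(Lp A k) / 2 ^ (i + 1)) / 2 with hc
    have hc0 : 0 < c := by positivity
    have h := TT_le_sqrt hA (rr_pos hA k).le (rr_lt_one hA k) i hc0 ?_
    · linarith
    · have h1 : (Np A i : ℝ) * (1 - rr A k) ≤ Real.exp (-(Lp A k)) := by
        have := Np_mul_dp_le hA hi
        unfold rr
        simpa using this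
      have hL := Lp_pos hA k
      have hexp : ∀ l, l ≤ i → Real.exp (-(Lp A k) / 2 ^ l) ≤ Real.exp (-(Lp A k) / 2 ^ i) := by
        intro l hl
        apply Real.exp_le_exp.2
        rw [neg_div, neg_div, neg_le_neg_iff]
        have : (2 : ℝ) ^ l ≤ 2 ^ i := pow_le_pow_right₀ (by norm_num) hl
        gcongr
      have h2 : ∑ l ∈ Finset.range i, TT A l (rr A k) ≤
          ∑ l ∈ Finset.range i, 4 ^ (l + 1) * Real.exp (-(Lp A k) / 2 ^ i) := by
        refine Finset.sum_le_sum fun l hl => ?_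
        have hl' := Finset.mem_range.1 hl
        refine (ih l hl' (hl'.trans hi)).trans ?_
        exact mul_le_mul_of_nonneg_left (hexp (l + 1) hl') (by positivity)
      have h3 : Real.exp (-(Lp A k)) ≤ Real.exp (-(Lp A k) / 2 ^ i) := by
        have := hexp 0 (Nat.zero_le i)
        simpa using this
      have h4 : (1 : ℝ) + ∑ l ∈ Finset.range i, (4 : ℝ) ^ (l + 1) ≤ 4 ^ (i + 1) / 3 := by
        clear ih hc hc0 h1 h2 h3 hi hexp
        induction i with
        | zero => norm_num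
        | succ n ihn =>
          rw [Finset.sum_range_succ, pow_succ 4 (n + 1)]
          linarith
      have h5 : Real.exp (-(Lp A k) / 2 ^ i) = Real.exp (-(Lp A k) / 2 ^ (i + 1)) ^ 2 := by
        rw [← Real.exp_nat_mul]
        congr 1
        rw [pow_succ]
        push_cast
        field_simp
      have h6 : (4 : ℝ) ≤ 4 ^ (i + 1) := by
        calc (4 : ℝ) = 4 ^ 1 := by norm_num
          _ ≤ 4 ^ (i + 1) := pow_le_pow_right₀ (by norm_num) (by omega)
      have h7 : 0 < Real.exp (-(Lp A k) / 2 ^ (i + 1)) := Real.exp_pos _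
      calc Np A i * (1 - rr A k) + ∑ l ∈ Finset.range i, TT A l (rr A k)
          ≤ Real.exp (-(Lp A k) / 2 ^ i) +
            ∑ l ∈ Finset.range i, 4 ^ (l + 1) * Real.exp (-(Lp A k) / 2 ^ i) :=
            add_le_add (h1.trans h3) h2
        _ = (1 + ∑ l ∈ Finset.range i, (4 : ℝ) ^ (l + 1)) * Real.exp (-(Lp A k) / 2 ^ i) := by
            rw [← Finset.sum_mul]; ring
        _ ≤ 4 ^ (i + 1) / 3 * Real.exp (-(Lp A k) / 2 ^ i) := by gcongr
        _ ≤ c ^ 2 := by
            rw [h5, hc]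
            have : (4 : ℝ) ^ (i + 1) / 3 ≤ (4 ^ (i + 1)) ^ 2 / 4 := by nlinarith
            calc (4 : ℝ) ^ (i + 1) / 3 * Real.exp (-(Lp A k) / 2 ^ (i + 1)) ^ 2
                ≤ (4 ^ (i + 1)) ^ 2 / 4 * Real.exp (-(Lp A k) / 2 ^ (i + 1)) ^ 2 := by gcongr
              _ = _ := by ring

lemma sum_TT_le (hA : 1 ≤ A) (k : ℕ) : ∑ i ∈ Finset.range k, TT A i (rr A k) ≤ kp A k :=
  (Finset.sum_le_sum fun i hi => TT_small hA k i (Finset.mem_range.1 hi)).trans (sum_exp_le hA k)

lemma TT_self_le (hA : 1 ≤ A) (k : ℕ) : TT A k (rr A k) ≤ 3 * Real.sqrt (kp A k) := by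
  have hk := kp_pos hA k
  have hs : 0 < Real.sqrt (kp A k) := Real.sqrt_pos.2 hk
  have hss : Real.sqrt (kp A k) ^ 2 = kp A k := Real.sq_sqrt hk.le
  have h := TT_le_sqrt hA (rr_pos hA k).le (rr_lt_one hA k) k (c := 3 / 2 * Real.sqrt (kp A k))
    (by positivity) ?_
  · linarith
  · have h1 : (Np A k : ℝ) * (1 - rr A k) = kp A k := by
      have := Np_mul_dp_self hA k
      unfold rr
      simpa using this
    have h2 := sum_TT_le hA k
    nlinarith

/-- The product `s_k` at radius `r_k`. -/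
noncomputable def ss (A : ℝ) (k : ℕ) (z : ℂ) : ℝ := Pd A (k + 1) (rr A k * z)

/-- The densities. -/
noncomputable def mu (A : ℝ) : ℕ → ℂ → ℝ
  | 0 => fun _ => 1
  | k + 1 => Po (rr A k / rr A (k + 1)) (fun z => mu A k z * ss A k z)

lemma mu_succ (k : ℕ) : mu A (k + 1) = Po (rr A k / rr A (k + 1)) (fun z => mu A k z * ss A k z) :=
  rfl

lemma qq_bounds (hA : 1 ≤ A) (k : ℕ) :
    0 ≤ rr A k / rr A (k + 1) ∧ rr A k / rr A (k + 1) < 1 :=
  ⟨div_nonneg (rr_pos hA k).le (rr_pos hA _).le,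
    (div_lt_one (rr_pos hA _)).2 (rr_lt_succ hA k)⟩

lemma continuousOn_ss (hA : 1 ≤ A) (k : ℕ) : ContinuousOn (ss A k) (sphere 0 1) :=
  cont_R (continuousOn_Pd hA (k + 1)) (rr_pos hA k).le (rr_lt_one hA k)

lemma rr_mul (hA : 1 ≤ A) (k : ℕ) {z : ℂ} (hz : ‖z‖ = 1) : ‖(rr A k : ℂ) * z‖ < 1 :=
  mem_ball_mul (rr_pos hA k).le (rr_lt_one hA k) hz.le

lemma ss_nonneg (hA : 1 ≤ A) (k : ℕ) {z : ℂ} (hz : ‖z‖ = 1) : 0 ≤ ss A k z :=
  Pd_nonneg hA (rr_mul hA k hz) _

lemma ss_le_one (hA : 1 ≤ A) (k : ℕ) {z : ℂ} (hz : ‖z‖ = 1) : ss A k z ≤ 1 :=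
  Pd_le_one hA (rr_mul hA k hz) _

lemma mu_props (hA : 1 ≤ A) (k : ℕ) :
    ContinuousOn (mu A k) (sphere 0 1) ∧ (∀ z, ‖z‖ = 1 → 0 ≤ mu A k z) ∧
      (∀ z, ‖z‖ = 1 → mu A k z ≤ 1) := by
  induction k with
  | zero => exact ⟨continuousOn_const, fun z _ => zero_le_one, fun z _ => le_rfl⟩
  | succ k ih =>
    obtain ⟨h1, h2, h3⟩ := ih
    obtain ⟨q0, q1⟩ := qq_bounds hA k
    have hc : ContinuousOn (fun z => mu A k z * ss A k z) (sphere 0 1) :=
      h1.mul (continuousOn_ss hA k)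
    refine ⟨continuousOn_Po q0 q1 hc, ?_, ?_⟩
    · intro z hz
      have := Po_mono q0 q1 (F := fun _ => 0) continuousOn_const hc
        (fun w hw => mul_nonneg (h2 w hw) (ss_nonneg hA k hw)) hz
      rwa [Po_const q0 q1 0 hz] at this
    · intro z hz
      have := Po_mono q0 q1 (G := fun _ => 1) hc continuousOn_const
        (fun w hw => mul_le_one₀ (h3 w hw) (ss_nonneg hA k hw) (ss_le_one hA k hw)) hz
      rwa [Po_const q0 q1 1 hz] at this

lemma continuousOn_mu (hA : 1 ≤ A) (k : ℕ) : ContinuousOn (mu A k) (sphere 0 1) :=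
  (mu_props hA k).1

lemma mu_nonneg (hA : 1 ≤ A) (k : ℕ) {z : ℂ} (hz : ‖z‖ = 1) : 0 ≤ mu A k z :=
  (mu_props hA k).2.1 z hz

lemma mu_le_one (hA : 1 ≤ A) (k : ℕ) {z : ℂ} (hz : ‖z‖ = 1) : mu A k z ≤ 1 :=
  (mu_props hA k).2.2 z hz

/-- Transfer for harmonic functions. -/
lemma transfer (hA : 1 ≤ A) {Φ : ℂ → ℂ} (hΦ : DifferentiableOn ℂ Φ (ball 0 1)) (k : ℕ) :
    av (fun z => (Φ (rr A (k + 1) * z)).re * mu A (k + 1) z) =
      av (fun z => (Φ (rr A k * z)).re * (mu A k z * ss A k z)) := by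
  obtain ⟨q0, q1⟩ := qq_bounds hA k
  have hre : ContinuousOn (fun z => (Φ z).re) (ball 0 1) :=
    continuous_re.comp_continuousOn hΦ.continuousOn
  have hF := cont_R hre (rr_pos hA (k + 1)).le (rr_lt_one hA (k + 1))
  have hG : ContinuousOn (fun z => mu A k z * ss A k z) (sphere 0 1) :=
    (continuousOn_mu hA k).mul (continuousOn_ss hA k)
  rw [mu_succ, av_mul_Po q0 q1 hF hG]
  apply av_congr
  intro z hz
  rw [Po_re hΦ (rr_pos hA k).le (rr_lt_succ hA k) (rr_lt_one hA _) hz]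
  ring

/-- Transfer inequality for `log (1 + |p|²)`. -/
lemma transfer_u (hA : 1 ≤ A) (p : Polynomial ℂ) (k : ℕ) :
    av (fun z => (1 / 2) * Real.log (1 + ‖p.eval (rr A k * z)‖ ^ 2) * (mu A k z * ss A k z)) ≤
      av (fun z => (1 / 2) * Real.log (1 + ‖p.eval (rr A (k + 1) * z)‖ ^ 2) * mu A (k + 1) z) := by
  obtain ⟨q0, q1⟩ := qq_bounds hA k
  have hu : ∀ r : ℝ, ContinuousOn (fun z : ℂ => (1 / 2) * Real.log (1 + ‖p.eval (r * z)‖ ^ 2))
      (sphere 0 1) := by
    intro r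
    apply Continuous.continuousOn
    apply Continuous.mul continuous_const
    apply Continuous.log
    · have := p.continuous
      fun_prop
    · intro z; positivity
  have hG : ContinuousOn (fun z => mu A k z * ss A k z) (sphere 0 1) :=
    (continuousOn_mu hA k).mul (continuousOn_ss hA k)
  rw [mu_succ, av_mul_Po q0 q1 (hu (rr A (k + 1))) hG]
  apply av_mono ((hu _).mul hG)
  · exact hG.mul (continuousOn_Po q0 q1 (hu _))
  · intro z hz
    have := log_one_add_sub p (rr_pos hA k).le (rr_lt_succ hA k) hz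
    have h2 : 0 ≤ mu A k z * ss A k z := mul_nonneg (mu_nonneg hA k hz) (ss_nonneg hA k hz)
    refine (mul_le_mul_of_nonneg_right this h2).trans (le_of_eq ?_)
    exact mul_comm _ _

/-- masses -/
noncomputable def qm (A : ℝ) (k : ℕ) : ℝ := av (mu A k)

lemma qm_zero : qm A 0 = 1 := av_const 1

lemma qm_nonneg (hA : 1 ≤ A) (k : ℕ) : 0 ≤ qm A k := av_nonneg fun _ hz => mu_nonneg hA k hz

lemma qm_succ (hA : 1 ≤ A) (k : ℕ) : qm A (k + 1) = av (fun z => mu A k z * ss A k z) := by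
  have := transfer hA (Φ := fun _ => 1) (differentiableOn_const _) k
  simpa [qm] using this

lemma xmu_le (hA : 1 ≤ A) {j m : ℕ} (hj : j ≤ m) :
    av (fun z => xd A j (rr A (m + 1) * z) * mu A (m + 1) z) ≤ TT A j (rr A m) := by
  have := transfer hA (differentiableOn_Vd hA j) m
  simp only [← xd_eq] at this
  rw [this]
  unfold TT
  apply av_mono
  · exact (cont_R (continuousOn_xd hA j) (rr_pos hA m).le (rr_lt_one hA m)).mul
      ((continuousOn_mu hA m).mul (continuousOn_ss hA m))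
  · exact (cont_R (continuousOn_xd hA j) (rr_pos hA m).le (rr_lt_one hA m)).mul
      (cont_R (continuousOn_Pd hA _) (rr_pos hA m).le (rr_lt_one hA m))
  · intro z hz
    have h1 := rr_mul hA m hz
    have h2 := xd_pos hA h1 j
    have h3 : ss A m z ≤ Pd A (j + 1) (rr A m * z) := Pd_anti hA h1 (by omega : j + 1 ≤ m + 1)
    have h4 := ss_nonneg hA m hz
    have h5 := mu_le_one hA m hz
    have h6 := mu_nonneg hA m hz
    have h7 : mu A m z * ss A m z ≤ 1 * Pd A (j + 1) (rr A m * z) := by gcongr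
    rw [one_mul] at h7
    exact mul_le_mul_of_nonneg_left h7 h2.le

lemma xmu_ge (hA : 1 ≤ A) (k : ℕ) :
    1 / 8 * qm A k ≤ av (fun z => xd A k (rr A k * z) * mu A k z) := by
  cases k with
  | zero =>
    rw [qm_zero]
    have hd : DifferentiableOn ℂ (fun z : ℂ => Vd A 0 (rr A 0 * z)) (closedBall 0 1) := by
      refine (differentiableOn_Vd hA 0).comp (f := fun z : ℂ => (rr A 0 : ℂ) * z) (by fun_prop) ?_
      intro z hz
      simpa using mem_ball_mul (rr_pos hA 0).le (rr_lt_one hA 0) (by simpa using hz : ‖z‖ ≤ 1)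
    have h1 := av_re_eq hd
    have h2 : (Vd A 0 ((rr A 0 : ℂ) * 0)).re = 1 / 4 := by
      rw [mul_zero]
      unfold Vd
      rw [Wd_zero hA]
      exact X_zero
    rw [h2] at h1
    have h3 : av (fun z => xd A 0 (rr A 0 * z) * mu A 0 z) = 1 / 4 := by
      rw [← h1]
      apply av_congr
      intro z _
      simp [mu, xd_eq]
    rw [h3]; norm_num
  | succ m =>
    have := transfer hA (differentiableOn_Vd hA (m + 1)) m
    simp only [← xd_eq] at this
    rw [this, qm_succ hA, ← av_real_const_mul]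
    have hc : ContinuousOn (fun z => mu A m z * ss A m z) (sphere 0 1) :=
      (continuousOn_mu hA m).mul (continuousOn_ss hA m)
    apply av_mono (continuousOn_const.mul hc)
    · exact (cont_R (continuousOn_xd hA _) (rr_pos hA m).le (rr_lt_one hA m)).mul hc
    · intro z hz
      have h1 := rr_mul hA m hz
      have h2 : 0 ≤ mu A m z * ss A m z := mul_nonneg (mu_nonneg hA m hz) (ss_nonneg hA m hz)
      have h3 : 1 / 8 ≤ xd A (m + 1) (rr A m * z) := by
        have hW := norm_Wf_lt hA (norm_diag h1) (m + 1)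
        have h4 := (abs_le.1 (abs_X_sub_le hW)).1
        have h5 : ‖Wf A (m + 1) (rr A m * z, rr A m * z)‖ ≤ Real.exp (-(Lp A (m + 1))) := by
          refine (norm_Wf_le hA (norm_diag h1) (m + 1)).trans ?_
          have h6 : ‖(((rr A m : ℂ) * z, (rr A m : ℂ) * z) : ℂ × ℂ)‖ = 1 - dp A m := by
            rw [Prod.norm_mk, max_self, norm_mul, hz, norm_real, Real.norm_of_nonneg (rr_pos hA m).le,
              mul_one]
            rfl
          rw [h6]
          exact pow_le_exp hA (Nat.lt_succ_self m)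
        have h6 : Real.exp (-(Lp A (m + 1))) ≤ 1 / 16 := by
          have h7 := Lp_exp_le hA (m + 1)
          have h8 := Lp_ge_1024 hA (m + 1)
          have h9 : 0 < Real.exp (-(Lp A (m + 1))) := Real.exp_pos _
          have h10 : ((1 : ℝ) / 2) ^ (m + 1 + 1) ≤ 1 := pow_le_one₀ (by norm_num) (by norm_num)
          nlinarith
        have h7 : xd A (m + 1) (rr A m * z) = X (Wf A (m + 1) (rr A m * z, rr A m * z)) := rfl
        rw [h7]
        linarith
      exact mul_le_mul_of_nonneg_right h3 h2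

lemma qm_step (hA : 1 ≤ A) (k : ℕ) : qm A (k + 1) ≤ 7 / 8 * qm A k := by
  have h1 := xmu_ge hA k
  have hcx : ContinuousOn (fun z => xd A k (rr A k * z)) (sphere 0 1) :=
    cont_R (continuousOn_xd hA k) (rr_pos hA k).le (rr_lt_one hA k)
  have hcm := continuousOn_mu hA k
  have h2 : qm A (k + 1) ≤ av (fun z => mu A k z - xd A k (rr A k * z) * mu A k z) := by
    rw [qm_succ hA]
    apply av_mono (hcm.mul (continuousOn_ss hA k)) (hcm.sub (hcx.mul hcm))
    intro z hz
    have h3 := rr_mul hA k hz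
    have h4 : ss A k z ≤ 1 - xd A k (rr A k * z) := by
      unfold ss
      rw [Pd_succ]
      exact mul_le_of_le_one_left (by linarith [xd_lt_one hA h3 k]) (Pd_le_one hA h3 k)
    have h5 := mu_nonneg hA k hz
    change mu A k z * ss A k z ≤ mu A k z - xd A k (rr A k * z) * mu A k z
    nlinarith
  have h3 : av (fun z => mu A k z - xd A k (rr A k * z) * mu A k z) =
      qm A k - av (fun z => xd A k (rr A k * z) * mu A k z) := av_sub hcm (hcx.mul hcm)
  rw [h3] at h2
  linarith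

lemma qm_le (hA : 1 ≤ A) (k : ℕ) : qm A k ≤ (7 / 8) ^ k := by
  induction k with
  | zero => rw [qm_zero, pow_zero]
  | succ k ih =>
    have := qm_step hA k
    rw [pow_succ]; linarith

end Pool.Agent.Lib.MP_7d8448_an
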