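import Pool.Agent.Lib.MP_7d8448_anB.Slices
import Pool.Agent.Lib.MP_7d8448_anB.Approx2

set_option autoImplicit false

namespace Pool.Agent.Lib.MP_7d8448_an

open Complex Metric MeasureTheory Filter Topology
open scoped ComplexConjugate NNReal ENNReal

lemma T2_mono {F G : ℂ → ℂ → ℝ≥0∞} (h : ∀ z w : ℂ, ‖z‖ = 1 → ‖w‖ = 1 → F z w ≤ G z w) :
    T2 F ≤ T2 G := by
  unfold T2
  exact lintegral_mono fun x => h _ _ (norm_ei _) (norm_ei _)

lemma T2_add {F G : ℂ → ℂ → ℝ≥0∞} (hF : Measurable fun x : ℝ × ℝ => F (ei x.1) (ei x.2)) :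
    T2 (fun z w => F z w + G z w) = T2 F + T2 G := by
  unfold T2
  exact lintegral_add_left hF _

lemma T2_const_mul {F : ℂ → ℂ → ℝ≥0∞} (hF : Measurable fun x : ℝ × ℝ => F (ei x.1) (ei x.2))
    (c : ℝ≥0∞) : T2 (fun z w => c * F z w) = c * T2 F := by
  unfold T2
  exact lintegral_const_mul c hF

lemma vol_Ang : (volume (Ang ×ˢ Ang) : ℝ≥0∞) = ENNReal.ofReal ((2 * Real.pi) ^ 2) := by
  rw [Measure.volume_eq_prod, Measure.prod_prod]
  unfold Ang
  rw [Real.volume_Icc, sub_zero, ← ENNReal.ofReal_mul Real.two_pi_pos.le, sq]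

lemma T2_const (c : ℝ≥0∞) : T2 (fun _ _ => c) = c * ENNReal.ofReal ((2 * Real.pi) ^ 2) := by
  unfold T2
  rw [setLIntegral_const, vol_Ang]

lemma continuous_eval2 (P : MvPolynomial (Fin 2) ℂ) :
    Continuous fun z : ℂ × ℂ => MvPolynomial.eval ![z.1, z.2] P := by
  have h1 : Continuous fun x : Fin 2 → ℂ => MvPolynomial.eval x P := MvPolynomial.continuous_eval P
  have h2 : Continuous fun z : ℂ × ℂ => (![z.1, z.2] : Fin 2 → ℂ) := by
    refine continuous_pi fun i => ?_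
    fin_cases i
    · exact continuous_fst
    · exact continuous_snd
  exact h1.comp h2

theorem density {p : ℝ} (hp : 1 ≤ p) (hst : OneVarStmt p) {g : ℂ × ℂ → ℂ}
    (hg : DifferentiableOn ℂ g (ball (0 : ℂ × ℂ) 1)) {C : ℝ≥0∞} (hC : C ≠ ⊤)
    (hb : ∀ r : ℝ, 0 < r → r < 1 → Hr p g r ≤ C) {ε : ℝ≥0∞} (hε : 0 < ε) :
    ∃ P : MvPolynomial (Fin 2) ℂ, ∀ r : ℝ, 0 < r → r < 1 →
      Hr p (fun z => MvPolynomial.eval ![z.1, z.2] P - g z) r ≤ ε := by
  have hp0 : 0 < p := by linarith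
  set ε₁ : ℝ := (min ε 1).toReal with hε₁
  have hmin : min ε 1 ≠ ⊤ := (min_le_right ε 1).trans_lt ENNReal.one_lt_top |>.ne
  have hε₁0 : 0 < ε₁ := ENNReal.toReal_pos (lt_min hε one_pos).ne' hmin
  have hε₁ε : ENNReal.ofReal ε₁ ≤ ε := by
    rw [hε₁, ENNReal.ofReal_toReal hmin]; exact min_le_left _ _
  set c : ℝ := 2 ^ (p - 1) with hc
  have hc0 : 0 < c := by positivity
  set δ : ℝ := ε₁ / (2 * c) with hδ
  have hδ0 : 0 < δ := by positivity
  obtain ⟨ρ, hρ0, hρ1, hρ⟩ := dilation hp0 hst hg hC hb (ε := ENNReal.ofReal δ)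
    (ENNReal.ofReal_pos.2 hδ0)
  set η : ℝ := min 1 (δ / (2 * Real.pi) ^ 2) with hη
  have hη0 : 0 < η := lt_min one_pos (by positivity)
  obtain ⟨P, hP⟩ := exists_mvpoly_approx hg hρ0 hρ1 hη0
  refine ⟨P, fun r h0 h1 => ?_⟩
  have hgc : ContinuousOn g (ball (0 : ℂ × ℂ) 1) := hg.continuousOn
  have hgρ : ContinuousOn (fun z : ℂ × ℂ => g (ρ * z.1, ρ * z.2)) (ball (0 : ℂ × ℂ) 1) := by
    refine (hgc.comp (f := fun z : ℂ × ℂ => ((ρ : ℂ) * z.1, (ρ : ℂ) * z.2)) (by fun_prop) ?_)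
    rintro ⟨a, b⟩ hz
    rw [mem_bd] at hz
    exact mem_bd_mul hρ0.le hρ1 hz.1.le hz.2.le
  have hPc : ContinuousOn (fun z : ℂ × ℂ => MvPolynomial.eval ![z.1, z.2] P - g (ρ * z.1, ρ * z.2))
      (ball (0 : ℂ × ℂ) 1) := (continuous_eval2 P).continuousOn.sub hgρ
  have hm1 := measurable_of_continuousOn (F := fun z w =>
      ‖MvPolynomial.eval ![(r : ℂ) * z, r * w] P - g (ρ * (r * z), ρ * (r * w))‖ₑ ^ p)
    (continuousOn_enorm_rpow hp0.le (continuousOn_torus hPc h0.le h1))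
  have hm2 := measurable_of_continuousOn (F := fun z w =>
      ‖g (r * z, r * w) - g (ρ * (r * z), ρ * (r * w))‖ₑ ^ p)
    (continuousOn_enorm_rpow hp0.le (continuousOn_torus (hgc.sub hgρ) h0.le h1))
  have step : Hr p (fun z => MvPolynomial.eval ![z.1, z.2] P - g z) r ≤
      T2 (fun z w => ENNReal.ofReal c *
        (‖MvPolynomial.eval ![(r : ℂ) * z, r * w] P - g (ρ * (r * z), ρ * (r * w))‖ₑ ^ p +
        ‖g (r * z, r * w) - g (ρ * (r * z), ρ * (r * w))‖ₑ ^ p)) := by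
    unfold Hr
    apply T2_mono
    intro z w hz hw
    have e1 : MvPolynomial.eval ![(r : ℂ) * z, r * w] P - g (r * z, r * w) =
        (MvPolynomial.eval ![(r : ℂ) * z, r * w] P - g (ρ * (r * z), ρ * (r * w))) -
        (g (r * z, r * w) - g (ρ * (r * z), ρ * (r * w))) := by ring
    have e2 : ‖MvPolynomial.eval ![(r : ℂ) * z, r * w] P - g (r * z, r * w)‖ₑ ≤
        ‖MvPolynomial.eval ![(r : ℂ) * z, r * w] P - g (ρ * (r * z), ρ * (r * w))‖ₑ +
        ‖g (r * z, r * w) - g (ρ * (r * z), ρ * (r * w))‖ₑ := by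
      rw [e1]; exact enorm_sub_le
    have e3 : ENNReal.ofReal c = 2 ^ (p - 1) := by
      rw [hc, ← ENNReal.ofReal_rpow_of_pos two_pos]
      simp
    rw [e3]
    exact (ENNReal.rpow_le_rpow e2 hp0.le).trans (ENNReal.rpow_add_le_mul_rpow_add_rpow _ _ hp)
  refine step.trans ?_
  rw [T2_const_mul (hm1.add hm2), T2_add hm1]
  have b1 : T2 (fun z w =>
      ‖MvPolynomial.eval ![(r : ℂ) * z, r * w] P - g (ρ * (r * z), ρ * (r * w))‖ₑ ^ p) ≤
      ENNReal.ofReal δ := by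
    have : T2 (fun z w =>
      ‖MvPolynomial.eval ![(r : ℂ) * z, r * w] P - g (ρ * (r * z), ρ * (r * w))‖ₑ ^ p) ≤
      T2 (fun _ _ => ENNReal.ofReal η) := by
      apply T2_mono
      intro z w hz hw
      rw [enorm_rpow_ofReal hp0.le]
      apply ENNReal.ofReal_le_ofReal
      have hrz : ‖(r : ℂ) * z‖ ≤ 1 := by
        rw [norm_mul, hz, mul_one, norm_real, Real.norm_of_nonneg h0.le]; exact h1.le
      have hrw : ‖(r : ℂ) * w‖ ≤ 1 := by
        rw [norm_mul, hw, mul_one, norm_real, Real.norm_of_nonneg h0.le]; exact h1.le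
      have h2 := hP _ _ hrz hrw
      have h3 : η ≤ 1 := min_le_left _ _
      calc ‖MvPolynomial.eval ![(r : ℂ) * z, r * w] P - g (ρ * (r * z), ρ * (r * w))‖ ^ p
          ≤ η ^ p := Real.rpow_le_rpow (norm_nonneg _) h2 hp0.le
        _ ≤ η ^ (1 : ℝ) := Real.rpow_le_rpow_of_exponent_ge hη0 h3 hp
        _ = η := Real.rpow_one η
    refine this.trans ?_
    rw [T2_const, ← ENNReal.ofReal_mul hη0.le]
    apply ENNReal.ofReal_le_ofReal
    calc η * (2 * Real.pi) ^ 2 ≤ δ / (2 * Real.pi) ^ 2 * (2 * Real.pi) ^ 2 := by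
          gcongr; exact min_le_right _ _
      _ = δ := by field_simp
  have b2 := hρ r h0 h1
  unfold Hr at b2
  calc _ ≤ ENNReal.ofReal c * (ENNReal.ofReal δ + ENNReal.ofReal δ) := by gcongr
    _ = ENNReal.ofReal ε₁ := by
      rw [← ENNReal.ofReal_add hδ0.le hδ0.le, ← ENNReal.ofReal_mul hc0.le, hδ]
      congr 1
      field_simp
      ring
    _ ≤ ε := hε₁ε

theorem cyclic_one {f : ℂ × ℂ → ℂ} (hf : DifferentiableOn ℂ f (ball (0 : ℂ × ℂ) 1))
    (hf0 : ∀ z ∈ ball (0 : ℂ × ℂ) 1, f z ≠ 0) {C : ℝ≥0∞} (hC : C ≠ ⊤)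
    (hb : ∀ r : ℝ, 0 < r → r < 1 → Hr 2 f r ≤ C)
    (hb' : ∀ r : ℝ, 0 < r → r < 1 → Hr 2 (fun z => (f z)⁻¹) r ≤ C) {g : ℂ × ℂ → ℂ}
    (hg : DifferentiableOn ℂ g (ball (0 : ℂ × ℂ) 1)) {C' : ℝ≥0∞} (hC' : C' ≠ ⊤)
    (hgb : ∀ r : ℝ, 0 < r → r < 1 → Hr 1 g r ≤ C') {ε : ℝ≥0∞} (hε : 0 < ε) :
    ∃ P : MvPolynomial (Fin 2) ℂ, ∀ r : ℝ, 0 < r → r < 1 →
      Hr 1 (fun z => MvPolynomial.eval ![z.1, z.2] P * f z - g z) r ≤ ε := by
  obtain ⟨Q, hQ⟩ := density le_rfl oneVarStmt_one hg hC' hgb (ε := ε / 2) (ENNReal.half_pos hε.ne')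
  have hcomp : IsCompact (closedBall (0 : ℂ) 1 ×ˢ closedBall (0 : ℂ) 1) :=
    (isCompact_closedBall _ _).prod (isCompact_closedBall _ _)
  obtain ⟨K, hK⟩ := hcomp.exists_bound_of_continuousOn (continuous_eval2 Q).continuousOn
  have hK0 : 0 ≤ K := (norm_nonneg _).trans (hK (0, 0) (by simp))
  set ε₁ : ℝ := (min ε 1).toReal with hε₁
  have hmin : min ε 1 ≠ ⊤ := (min_le_right ε 1).trans_lt ENNReal.one_lt_top |>.ne
  have hε₁0 : 0 < ε₁ := ENNReal.toReal_pos (lt_min hε one_pos).ne' hmin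
  have hε₁ε : ENNReal.ofReal ε₁ ≤ ε := by
    rw [hε₁, ENNReal.ofReal_toReal hmin]; exact min_le_left _ _
  set D : ℝ := K * C.toReal ^ (1 / 2 : ℝ) + 1 with hD
  have hD0 : 0 < D := by positivity
  set δ : ℝ := (ε₁ / (2 * D)) ^ (2 : ℝ) with hδ
  have hδ0 : 0 < δ := by positivity
  have hinv : DifferentiableOn ℂ (fun z => (f z)⁻¹) (ball (0 : ℂ × ℂ) 1) := hf.inv hf0
  obtain ⟨P, hP⟩ := density one_le_two oneVarStmt_two hinv hC hb' (ε := ENNReal.ofReal δ)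
    (ENNReal.ofReal_pos.2 hδ0)
  refine ⟨Q * P, fun r h0 h1 => ?_⟩
  have hPc : ContinuousOn (fun z : ℂ × ℂ => MvPolynomial.eval ![z.1, z.2] P - (f z)⁻¹)
      (ball (0 : ℂ × ℂ) 1) := (continuous_eval2 P).continuousOn.sub hinv.continuousOn
  have hm1 : Measurable fun x : ℝ × ℝ => ‖MvPolynomial.eval ![(r : ℂ) * ei x.1, r * ei x.2] P -
      (f (r * ei x.1, r * ei x.2))⁻¹‖ₑ := by
    have := measurable_of_continuousOn (F := fun z w =>
      ‖MvPolynomial.eval ![(r : ℂ) * z, r * w] P - (f (r * z, r * w))⁻¹‖ₑ ^ (1 : ℝ))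
      (continuousOn_enorm_rpow zero_le_one (continuousOn_torus hPc h0.le h1))
    simpa using this
  have hm2 : Measurable fun x : ℝ × ℝ => ‖f (r * ei x.1, r * ei x.2)‖ₑ := by
    have := measurable_of_continuousOn (F := fun z w => ‖f (r * z, r * w)‖ₑ ^ (1 : ℝ))
      (continuousOn_enorm_rpow zero_le_one (continuousOn_torus hf.continuousOn h0.le h1))
    simpa using this
  have step : Hr 1 (fun z => MvPolynomial.eval ![z.1, z.2] (Q * P) * f z - g z) r ≤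
      T2 (fun z w => ENNReal.ofReal K * (‖MvPolynomial.eval ![(r : ℂ) * z, r * w] P -
        (f (r * z, r * w))⁻¹‖ₑ * ‖f (r * z, r * w)‖ₑ) +
        ‖MvPolynomial.eval ![(r : ℂ) * z, r * w] Q - g (r * z, r * w)‖ₑ ^ (1 : ℝ)) := by
    unfold Hr
    apply T2_mono
    intro z w hz hw
    simp only [ENNReal.rpow_one]
    have hne : f (r * z, r * w) ≠ 0 := hf0 _ (mem_bd_mul h0.le h1 hz.le hw.le)
    have e1 : MvPolynomial.eval ![(r : ℂ) * z, r * w] (Q * P) * f (r * z, r * w) - g (r * z, r * w) =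
        MvPolynomial.eval ![(r : ℂ) * z, r * w] Q * ((MvPolynomial.eval ![(r : ℂ) * z, r * w] P -
        (f (r * z, r * w))⁻¹) * f (r * z, r * w)) +
        (MvPolynomial.eval ![(r : ℂ) * z, r * w] Q - g (r * z, r * w)) := by
      rw [map_mul, sub_mul, inv_mul_cancel₀ hne]; ring
    rw [e1]
    refine (enorm_add_le _ _).trans ?_
    gcongr
    rw [enorm_mul, enorm_mul]
    gcongr
    rw [← ofReal_norm]
    apply ENNReal.ofReal_le_ofReal
    apply hK ((r : ℂ) * z, (r : ℂ) * w)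
    have := mem_bd_mul h0.le h1 hz.le hw.le
    rw [mem_bd] at this
    simp only [Set.mem_prod, mem_closedBall, dist_zero_right]
    exact ⟨this.1.le, this.2.le⟩
  refine step.trans ?_
  rw [T2_add (F := fun z w => ENNReal.ofReal K * (‖MvPolynomial.eval ![(r : ℂ) * z, r * w] P -
        (f (r * z, r * w))⁻¹‖ₑ * ‖f (r * z, r * w)‖ₑ)) ((hm1.mul hm2).const_mul _),
    T2_const_mul (F := fun z w => (‖MvPolynomial.eval ![(r : ℂ) * z, r * w] P -
        (f (r * z, r * w))⁻¹‖ₑ * ‖f (r * z, r * w)‖ₑ)) (hm1.mul hm2)]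
  have hq : T2 (fun z w => ‖MvPolynomial.eval ![(r : ℂ) * z, r * w] Q - g (r * z, r * w)‖ₑ ^ (1 : ℝ))
      ≤ ε / 2 := hQ r h0 h1
  have hholder : T2 (fun z w => ‖MvPolynomial.eval ![(r : ℂ) * z, r * w] P -
        (f (r * z, r * w))⁻¹‖ₑ * ‖f (r * z, r * w)‖ₑ) ≤
      (ENNReal.ofReal δ) ^ (1 / 2 : ℝ) * C ^ (1 / 2 : ℝ) := by
    have hpq : (2 : ℝ).HolderConjugate 2 := Real.HolderConjugate.two_two
    have h := ENNReal.lintegral_mul_le_Lp_mul_Lq (volume.restrict (Ang ×ˢ Ang)) hpq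
      hm1.aemeasurable hm2.aemeasurable
    refine h.trans ?_
    have e1 := hP r h0 h1
    have e2 := hb r h0 h1
    unfold Hr T2 at e1 e2
    gcongr
  have hCpow : C ^ (1 / 2 : ℝ) = ENNReal.ofReal (C.toReal ^ (1 / 2 : ℝ)) := by
    rw [← ENNReal.ofReal_rpow_of_nonneg ENNReal.toReal_nonneg (by norm_num),
      ENNReal.ofReal_toReal hC]
  have hδpow : (ENNReal.ofReal δ) ^ (1 / 2 : ℝ) = ENNReal.ofReal (ε₁ / (2 * D)) := by
    rw [ENNReal.ofReal_rpow_of_nonneg hδ0.le (by norm_num), hδ, ← Real.rpow_mul (by positivity)]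
    norm_num
  have hfin : ENNReal.ofReal K * (ENNReal.ofReal (ε₁ / (2 * D)) *
      ENNReal.ofReal (C.toReal ^ (1 / 2 : ℝ))) ≤ ε / 2 := by
    rw [← ENNReal.ofReal_mul (by positivity), ← ENNReal.ofReal_mul hK0]
    calc _ ≤ ENNReal.ofReal (ε₁ / 2) := by
          apply ENNReal.ofReal_le_ofReal
          have : K * C.toReal ^ (1 / 2 : ℝ) ≤ D := by rw [hD]; linarith
          calc K * (ε₁ / (2 * D) * C.toReal ^ (1 / 2 : ℝ))
              = (K * C.toReal ^ (1 / 2 : ℝ)) * (ε₁ / (2 * D)) := by ring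
            _ ≤ D * (ε₁ / (2 * D)) := by gcongr
            _ = ε₁ / 2 := by field_simp
      _ = ENNReal.ofReal ε₁ / 2 := by
          rw [ENNReal.ofReal_div_of_pos two_pos]; simp
      _ ≤ ε / 2 := by gcongr
  calc _ ≤ ENNReal.ofReal K * (ENNReal.ofReal (ε₁ / (2 * D)) *
        ENNReal.ofReal (C.toReal ^ (1 / 2 : ℝ))) + ε / 2 := by
        rw [← hCpow, ← hδpow]; gcongr
    _ ≤ ε / 2 + ε / 2 := by gcongr
    _ = ε := ENNReal.add_halves ε

end Pool.Agent.Lib.MP_7d8448_an
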