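import Pool.Agent.Lib.MP_7d8448_anB.Av

set_option autoImplicit false

namespace Pool.Agent.Lib.MP_7d8448_an

open Complex Metric MeasureTheory Filter Topology
open scoped ComplexConjugate

/-- Poisson kernel on the unit circle. -/
noncomputable def pk (q : ℝ) (z w : ℂ) : ℝ := (1 - q ^ 2) / ‖w - q * z‖ ^ 2

/-- Poisson average: for `‖z‖ = 1` the Poisson integral of `F` at the point `q z`. -/
noncomputable def Po (q : ℝ) (F : ℂ → ℝ) (z : ℂ) : ℝ := av fun w => pk q z w * F w

lemma norm_cm (θ : ℝ) : ‖circleMap 0 1 θ‖ = 1 := by simp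

lemma cm_mem (θ : ℝ) : circleMap 0 1 θ ∈ sphere (0 : ℂ) 1 := by simp

lemma av_comm {K : ℂ → ℂ → ℝ}
    (hK : ContinuousOn (fun p : ℂ × ℂ => K p.1 p.2) (sphere (0 : ℂ) 1 ×ˢ sphere (0 : ℂ) 1)) :
    av (fun z => av fun w => K z w) = av (fun w => av fun z => K z w) := by
  unfold av
  simp only [Real.circleAverage_def, smul_eq_mul, intervalIntegral.integral_const_mul]
  congr 2
  apply MeasureTheory.intervalIntegral_intervalIntegral_swap
  have hc : Continuous (Function.uncurry fun θ φ : ℝ => K (circleMap 0 1 θ) (circleMap 0 1 φ)) := by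
    have h1 : Continuous fun p : ℝ × ℝ =>
        ((circleMap 0 1 p.1, circleMap 0 1 p.2) : ℂ × ℂ) := by
      have := continuous_circleMap 0 1
      fun_prop
    exact hK.comp_continuous h1 (fun p => ⟨cm_mem _, cm_mem _⟩)
  have hsub : Set.uIoc (0 : ℝ) (2 * Real.pi) ×ˢ Set.uIoc (0 : ℝ) (2 * Real.pi) ⊆
      Set.uIcc (0 : ℝ) (2 * Real.pi) ×ˢ Set.uIcc (0 : ℝ) (2 * Real.pi) :=
    Set.prod_mono Set.uIoc_subset_uIcc Set.uIoc_subset_uIcc
  refine IntegrableOn.mono_set ?_ hsub
  exact hc.continuousOn.integrableOn_compact (isCompact_uIcc.prod isCompact_uIcc)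

lemma continuousOn_av {K : ℂ → ℂ → ℝ}
    (hK : ContinuousOn (fun p : ℂ × ℂ => K p.1 p.2) (sphere (0 : ℂ) 1 ×ˢ sphere (0 : ℂ) 1)) :
    ContinuousOn (fun z => av fun w => K z w) (sphere 0 1) := by
  rw [continuousOn_iff_continuous_domRestrict]
  have hc : Continuous (Function.uncurry fun (z : sphere (0 : ℂ) 1) (φ : ℝ) =>
      K z (circleMap 0 1 φ)) := by
    have h1 : Continuous fun p : (sphere (0 : ℂ) 1) × ℝ =>
        (((p.1 : ℂ), circleMap 0 1 p.2) : ℂ × ℂ) := by
      have := continuous_circleMap 0 1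
      fun_prop
    exact hK.comp_continuous h1 (fun p => ⟨p.1.2, cm_mem _⟩)
  have := intervalIntegral.continuous_parametric_intervalIntegral_of_continuous'
    (μ := volume) hc 0 (2 * Real.pi)
  exact this.const_smul ((2 * Real.pi)⁻¹)

lemma pk_symm {q : ℝ} {z w : ℂ} (hz : ‖z‖ = 1) (hw : ‖w‖ = 1) : pk q z w = pk q w z := by
  unfold pk
  congr 1
  rw [← Complex.normSq_eq_norm_sq, ← Complex.normSq_eq_norm_sq, Complex.normSq_sub,
    Complex.normSq_sub]
  have h1 : Complex.normSq z = 1 := by rw [Complex.normSq_eq_norm_sq, hz]; norm_num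
  have h2 : Complex.normSq w = 1 := by rw [Complex.normSq_eq_norm_sq, hw]; norm_num
  simp only [Complex.normSq_mul, h1, h2]
  simp only [map_mul, Complex.conj_ofReal]
  have : (w * (q * conj z)).re = (z * (q * conj w)).re := by
    simp [Complex.mul_re, Complex.mul_im]
    ring
  rw [this]

lemma pk_nonneg {q : ℝ} (h0 : 0 ≤ q) (h1 : q < 1) (z w : ℂ) : 0 ≤ pk q z w := by
  unfold pk
  apply div_nonneg _ (by positivity)
  nlinarith

lemma pk_den_ne {q : ℝ} (h0 : 0 ≤ q) (h1 : q < 1) {z w : ℂ} (hz : ‖z‖ = 1) (hw : ‖w‖ = 1) :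
    ‖w - q * z‖ ^ 2 ≠ 0 := by
  have : w - q * z ≠ 0 := by
    intro h
    have h2 : w = q * z := sub_eq_zero.1 h
    have h3 : ‖w‖ = q := by rw [h2, norm_mul, hz, mul_one, Complex.norm_real, Real.norm_of_nonneg h0]
    linarith
  have := norm_pos_iff.2 this
  positivity

lemma continuousOn_pk {q : ℝ} (h0 : 0 ≤ q) (h1 : q < 1) :
    ContinuousOn (fun p : ℂ × ℂ => pk q p.1 p.2) (sphere (0 : ℂ) 1 ×ˢ sphere (0 : ℂ) 1) := by
  unfold pk
  apply ContinuousOn.div (by fun_prop) (by fun_prop)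
  rintro ⟨z, w⟩ ⟨hz, hw⟩
  exact pk_den_ne h0 h1 (by simpa using hz) (by simpa using hw)

lemma continuousOn_pk_mul {q : ℝ} (h0 : 0 ≤ q) (h1 : q < 1) {F : ℂ → ℝ}
    (hF : ContinuousOn F (sphere 0 1)) :
    ContinuousOn (fun p : ℂ × ℂ => pk q p.1 p.2 * F p.2)
      (sphere (0 : ℂ) 1 ×ˢ sphere (0 : ℂ) 1) :=
  (continuousOn_pk h0 h1).mul (hF.comp continuousOn_snd fun _ hp => hp.2)

lemma continuousOn_pk_right {q : ℝ} (h0 : 0 ≤ q) (h1 : q < 1) {z : ℂ} (hz : ‖z‖ = 1) :
    ContinuousOn (fun w => pk q z w) (sphere 0 1) := by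
  have h := continuousOn_pk h0 h1
  exact h.comp (f := fun w : ℂ => ((z, w) : ℂ × ℂ)) (by fun_prop)
    (fun w hw => ⟨by simpa using hz, hw⟩)

lemma continuousOn_Po {q : ℝ} (h0 : 0 ≤ q) (h1 : q < 1) {F : ℂ → ℝ}
    (hF : ContinuousOn F (sphere 0 1)) : ContinuousOn (Po q F) (sphere 0 1) :=
  continuousOn_av (continuousOn_pk_mul h0 h1 hF)

lemma Po_mono {q : ℝ} (h0 : 0 ≤ q) (h1 : q < 1) {F G : ℂ → ℝ}
    (hF : ContinuousOn F (sphere 0 1)) (hG : ContinuousOn G (sphere 0 1))
    (h : ∀ z, ‖z‖ = 1 → F z ≤ G z) {z : ℂ} (hz : ‖z‖ = 1) : Po q F z ≤ Po q G z := by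
  have hp := continuousOn_pk_right h0 h1 hz
  apply av_mono (hp.mul hF) (hp.mul hG)
  intro w hw
  exact mul_le_mul_of_nonneg_left (h w hw) (pk_nonneg h0 h1 z w)

/-- Poisson formula at the point `q z`. -/
lemma Po_re_aux {Ψ : ℂ → ℂ} (hΨ : DiffContOnCl ℂ Ψ (ball 0 1)) {q : ℝ} (h0 : 0 ≤ q) (h1 : q < 1)
    {z : ℂ} (hz : ‖z‖ = 1) : Po q (fun w => (Ψ w).re) z = (Ψ (q * z)).re := by
  have hq : ‖(q : ℂ) * z‖ = q := by
    rw [norm_mul, hz, mul_one, Complex.norm_real, Real.norm_of_nonneg h0]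
  have hmem : (q : ℂ) * z ∈ ball (0 : ℂ) 1 := by
    rw [mem_ball_zero_iff, hq]; exact h1
  have h := hΨ.circleAverage_poissonKernel_smul' hmem
  have hc : ContinuousOn Ψ (sphere 0 1) := by
    apply hΨ.continuousOn.mono
    rw [closure_ball _ one_ne_zero]
    exact sphere_subset_closedBall
  have hp := continuousOn_pk_right h0 h1 hz
  have h2 : av (fun w => (pk q z w : ℝ) • Ψ w) = Ψ (q * z) := by
    rw [← h]
    apply av_congr
    intro w hw
    unfold pk
    rw [sub_zero, sub_zero, hw, hq, one_pow]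
  rw [← h2, ← av_re]
  · unfold Po
    apply av_congr
    intro w _
    simp
  · exact hp.smul hc

lemma Po_const {q : ℝ} (h0 : 0 ≤ q) (h1 : q < 1) (c : ℝ) {z : ℂ} (hz : ‖z‖ = 1) :
    Po q (fun _ => c) z = c := by
  have := Po_re_aux (Ψ := fun _ => (c : ℂ)) diffContOnCl_const h0 h1 hz
  simpa using this

/-- Poisson formula for real parts of holomorphic functions. -/
lemma Po_re {Φ : ℂ → ℂ} (hΦ : DifferentiableOn ℂ Φ (ball 0 1)) {r r' : ℝ} (h0 : 0 ≤ r)
    (h1 : r < r') (h2 : r' < 1) {z : ℂ} (hz : ‖z‖ = 1) :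
    Po (r / r') (fun w => (Φ (r' * w)).re) z = (Φ (r * z)).re := by
  have hr' : 0 < r' := lt_of_le_of_lt h0 h1
  have hd : DiffContOnCl ℂ (fun w => Φ (r' * w)) (ball 0 1) := by
    apply DifferentiableOn.diffContOnCl
    apply hΦ.comp (by fun_prop)
    intro w hw
    rw [closure_ball _ one_ne_zero, mem_closedBall_zero_iff] at hw
    rw [mem_ball_zero_iff, norm_mul, Complex.norm_real, Real.norm_of_nonneg hr'.le]
    nlinarith
  rw [Po_re_aux hd (div_nonneg h0 hr'.le) ((div_lt_one hr').2 h1) hz]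
  congr 2
  rw [← mul_assoc]
  congr 1
  rw [← Complex.ofReal_mul]
  congr 1
  field_simp

/-- The Poisson operator is symmetric. -/
lemma av_mul_Po {q : ℝ} (h0 : 0 ≤ q) (h1 : q < 1) {F G : ℂ → ℝ}
    (hF : ContinuousOn F (sphere 0 1)) (hG : ContinuousOn G (sphere 0 1)) :
    av (fun z => F z * Po q G z) = av (fun z => G z * Po q F z) := by
  have e1 : av (fun z => F z * Po q G z) = av (fun z => av fun w => F z * (pk q z w * G w)) := by
    apply av_congr
    intro z _
    unfold Po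
    rw [av_real_const_mul]
  have e2 : av (fun z => G z * Po q F z) = av (fun w => av fun z => F z * (pk q z w * G w)) := by
    apply av_congr
    intro z hz
    unfold Po
    rw [← av_real_const_mul]
    apply av_congr
    intro w hw
    rw [pk_symm hz hw]
    ring
  rw [e1, e2]
  apply av_comm
  exact (hF.comp continuousOn_fst fun _ hp => hp.1).mul (continuousOn_pk_mul h0 h1 hG)

/-- Real parts of polynomials are uniformly dense in the continuous functions on the circle. -/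
lemma exists_poly_re_approx {u : ℂ → ℝ} (hu : ContinuousOn u (sphere 0 1)) {ε : ℝ} (hε : 0 < ε) :
    ∃ Φ : Polynomial ℂ, ∀ z : ℂ, ‖z‖ = 1 → |u z - (Φ.eval z).re| < ε := by
  let f : C(AddCircle (1 : ℝ), ℂ) := ⟨fun t => ((u (AddCircle.toCircle t : ℂ) : ℝ) : ℂ), by
    have h1 : Continuous fun t : AddCircle (1 : ℝ) => u (AddCircle.toCircle t : ℂ) := by
      apply hu.comp_continuous
      · exact continuous_subtype_val.comp AddCircle.continuous_toCircle
      · intro t
        rw [mem_sphere_zero_iff_norm]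
        exact Circle.norm_coe _
    exact Complex.continuous_ofReal.comp h1⟩
  have hf : f ∈ closure ((Submodule.span ℂ (Set.range (@fourier (1 : ℝ))) : Submodule ℂ _) :
      Set C(AddCircle (1 : ℝ), ℂ)) := by
    rw [← Submodule.topologicalClosure_coe, span_fourier_closure_eq_top]
    trivial
  obtain ⟨g, hg, hfg⟩ := Metric.mem_closure_iff.1 hf ε hε
  have key : ∀ g ∈ Submodule.span ℂ (Set.range (@fourier (1 : ℝ))),
      ∃ A B : Polynomial ℂ, ∀ t : AddCircle (1 : ℝ),
        g t = A.eval (AddCircle.toCircle t : ℂ) + conj (B.eval (AddCircle.toCircle t : ℂ)) := by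
    intro g hg
    induction hg using Submodule.span_induction with
    | mem x hx =>
      obtain ⟨n, rfl⟩ := hx
      rcases n with n | n
      · refine ⟨Polynomial.X ^ n, 0, fun t => ?_⟩
        simp [AddCircle.toCircle_nsmul]
      · refine ⟨0, Polynomial.X ^ (n + 1), fun t => ?_⟩
        rw [Int.negSucc_eq, fourier_neg, fourier_apply]
        have : ((n : ℤ) + 1) • t = (n + 1) • t := by
          rw [← natCast_zsmul]; push_cast; rfl
        rw [this, AddCircle.toCircle_nsmul]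
        simp
    | zero => exact ⟨0, 0, fun t => by simp⟩
    | add x y _ _ hx hy =>
      obtain ⟨A, B, h⟩ := hx
      obtain ⟨A', B', h'⟩ := hy
      refine ⟨A + A', B + B', fun t => ?_⟩
      simp only [ContinuousMap.add_apply, h, h', Polynomial.eval_add, map_add]
      ring
    | smul a x _ hx =>
      obtain ⟨A, B, h⟩ := hx
      refine ⟨Polynomial.C a * A, Polynomial.C (conj a) * B, fun t => ?_⟩
      simp only [ContinuousMap.smul_apply, h, Polynomial.eval_mul, Polynomial.eval_C, map_mul,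
        Complex.conj_conj, smul_eq_mul]
      ring
  obtain ⟨A, B, hAB⟩ := key g hg
  refine ⟨A + B, fun z hz => ?_⟩
  obtain ⟨t, ht⟩ : ∃ t : AddCircle (1 : ℝ), (AddCircle.toCircle t : ℂ) = z := by
    let c : Circle := ⟨z, mem_sphere_zero_iff_norm.2 hz⟩
    refine ⟨(AddCircle.homeomorphCircle (one_ne_zero)).symm c, ?_⟩
    rw [← AddCircle.homeomorphCircle_apply one_ne_zero, Homeomorph.apply_symm_apply]
  have h1 : dist (f t) (g t) < ε := lt_of_le_of_lt (ContinuousMap.dist_apply_le_dist t) hfg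
  have h2 : f t = (u z : ℂ) := by
    change ((u (AddCircle.toCircle t : ℂ) : ℝ) : ℂ) = _
    rw [ht]
  rw [h2, hAB, ht, dist_eq_norm] at h1
  refine lt_of_le_of_lt ?_ h1
  have h3 := Complex.abs_re_le_norm ((u z : ℂ) - (A.eval z + conj (B.eval z)))
  refine le_trans (le_of_eq ?_) h3
  simp

/-- Maximum principle: if `log √(1+|p|²) ≤ Re Φ + ε` on the circle, then also inside. -/
lemma log_le_of_boundary {P Φ : ℂ → ℂ} (hP : Differentiable ℂ P) (hΦ : Differentiable ℂ Φ) {ε : ℝ}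
    (h : ∀ z : ℂ, ‖z‖ = 1 → (1 / 2) * Real.log (1 + ‖P z‖ ^ 2) ≤ (Φ z).re + ε) {z : ℂ}
    (hz : ‖z‖ ≤ 1) : (1 / 2) * Real.log (1 + ‖P z‖ ^ 2) ≤ (Φ z).re + ε := by
  let f : ℂ → EuclideanSpace ℂ (Fin 2) := fun w => !₂[Complex.exp (-Φ w), P w * Complex.exp (-Φ w)]
  have hf : Differentiable ℂ f := by
    rw [differentiable_euclidean]
    intro i
    fin_cases i
    · simp only [f]; simpa using hΦ.neg.cexp
    · simp only [f]
      have h2 : Differentiable ℂ fun w => P w * Complex.exp (-Φ w) := by fun_prop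
      simpa using h2
  have hnorm : ∀ w, ‖f w‖ ^ 2 = (1 + ‖P w‖ ^ 2) * Real.exp (-(2 * (Φ w).re)) := by
    intro w
    rw [EuclideanSpace.norm_sq_eq]
    simp only [f, Fin.sum_univ_two, Matrix.cons_val_zero, Matrix.cons_val_one,
      norm_mul, Complex.norm_exp, Complex.neg_re]
    have : Real.exp (-(2 * (Φ w).re)) = Real.exp (-(Φ w).re) ^ 2 := by
      rw [← Real.exp_nat_mul]; congr 1; push_cast; ring
    rw [this]
    ring
  have hiff : ∀ w, ‖f w‖ ≤ Real.exp ε ↔ (1 / 2) * Real.log (1 + ‖P w‖ ^ 2) ≤ (Φ w).re + ε := by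
    intro w
    have hpos : 0 < 1 + ‖P w‖ ^ 2 := by positivity
    rw [← sq_le_sq₀ (norm_nonneg _) (Real.exp_pos _).le, hnorm]
    have e1 : Real.exp ε ^ 2 = Real.exp (2 * ε) := by
      rw [← Real.exp_nat_mul]; congr 1
    rw [e1]
    have e2 : (1 + ‖P w‖ ^ 2) * Real.exp (-(2 * (Φ w).re)) ≤ Real.exp (2 * ε) ↔
        1 + ‖P w‖ ^ 2 ≤ Real.exp (2 * ε + 2 * (Φ w).re) := by
      rw [Real.exp_neg, ← div_eq_mul_inv, div_le_iff₀ (Real.exp_pos _), Real.exp_add]
    rw [e2, ← Real.log_le_iff_le_exp hpos]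
    constructor <;> intro h <;> linarith
  rw [← hiff]
  apply Complex.norm_le_of_forall_mem_frontier_norm_le (U := ball (0 : ℂ) 1) isBounded_ball
    hf.diffContOnCl
  · intro w hw
    rw [frontier_ball _ one_ne_zero] at hw
    rw [hiff]
    exact h w (by simpa using hw)
  · rw [closure_ball _ one_ne_zero]
    simpa using hz

/-- `log (1 + |p|²)` is subharmonic (Poisson form), `p` a polynomial.
Proof: real parts of polynomials are uniformly dense in `C(T, ℝ)` (`span_fourier_closure_eq_top`);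
if `|Re Φ - u| ≤ ε` on the circle then the `ℂ²`-valued map `(exp (-Φ), p exp (-Φ))` has Euclidean norm
`≤ exp ε` on the circle, hence on the disc by the maximum principle
(`Complex.norm_le_of_forall_mem_frontier_norm_le`), i.e. `u ≤ Re Φ + ε` on the disc. -/
lemma log_one_add_sub (p : Polynomial ℂ) {r r' : ℝ} (h0 : 0 ≤ r) (h1 : r < r') {z : ℂ}
    (hz : ‖z‖ = 1) :
    (1 / 2) * Real.log (1 + ‖p.eval (r * z)‖ ^ 2) ≤
      Po (r / r') (fun w => (1 / 2) * Real.log (1 + ‖p.eval (r' * w)‖ ^ 2)) z := by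
  have hr' : 0 < r' := lt_of_le_of_lt h0 h1
  have hq0 : 0 ≤ r / r' := div_nonneg h0 hr'.le
  have hq1 : r / r' < 1 := (div_lt_one hr').2 h1
  set u : ℂ → ℝ := fun w => (1 / 2) * Real.log (1 + ‖p.eval (r' * w)‖ ^ 2) with hu
  have hcu : Continuous u := by
    have h2 : Continuous fun w : ℂ => 1 + ‖p.eval (r' * w)‖ ^ 2 := by
      have := p.continuous
      fun_prop
    exact continuous_const.mul (h2.log fun w => by positivity)
  apply le_of_forall_pos_le_add
  intro ε hε
  obtain ⟨Φ, hΦ⟩ := exists_poly_re_approx hcu.continuousOn (ε := ε / 2) (by positivity)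
  have hP : Differentiable ℂ fun w : ℂ => p.eval (r' * w) :=
    p.differentiable.comp (by fun_prop)
  have hb : ∀ w : ℂ, ‖w‖ ≤ 1 → u w ≤ (Φ.eval w).re + ε / 2 := by
    intro w hw
    refine log_le_of_boundary (P := fun w : ℂ => p.eval (r' * w)) (Φ := fun w => Φ.eval w)
      hP Φ.differentiable ?_ hw
    intro w hw
    have := (abs_lt.1 (hΦ w hw)).2
    change u w ≤ _
    linarith
  have hz' : ‖((r / r' : ℝ) : ℂ) * z‖ ≤ 1 := by
    rw [norm_mul, hz, mul_one, Complex.norm_real, Real.norm_of_nonneg hq0]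
    exact hq1.le
  have e1 : (r' : ℂ) * (((r / r' : ℝ) : ℂ) * z) = r * z := by
    rw [← mul_assoc, ← Complex.ofReal_mul]
    congr 2
    field_simp
  have h2 := hb _ hz'
  rw [hu] at h2
  simp only [e1] at h2
  refine h2.trans ?_
  have h3 := Po_re_aux (Ψ := fun w => Φ.eval w) Φ.differentiable.diffContOnCl hq0 hq1 hz
  rw [← h3]
  have h4 : Po (r / r') (fun w => (Φ.eval w).re) z ≤ Po (r / r') (fun w => u w + ε / 2) z := by
    apply Po_mono hq0 hq1 _ _ _ hz
    · have := Φ.continuous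
      fun_prop
    · fun_prop
    · intro w hw
      have := (abs_lt.1 (hΦ w hw)).1
      linarith
  have h5 : Po (r / r') (fun w => u w + ε / 2) z = Po (r / r') u z + ε / 2 := by
    have h6 := Po_const hq0 hq1 (ε / 2) hz
    have hp := continuousOn_pk_right hq0 hq1 hz
    have h7 : Po (r / r') (fun w => u w + ε / 2) z
        = Po (r / r') u z + Po (r / r') (fun _ => ε / 2) z := by
      unfold Po
      rw [← av_add (F := fun w => pk (r / r') z w * u w) (G := fun w => pk (r / r') z w * (ε / 2))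
        (hp.mul hcu.continuousOn) (hp.mul continuousOn_const)]
      apply av_congr
      intro w _
      ring
    rw [h7, h6]
  linarith

end Pool.Agent.Lib.MP_7d8448_an
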