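import Pool.Agent.Lib.MP_7d8448_anB.Slices
import Pool.Agent.Lib.MP_7d8448_anB.PoissonU

set_option autoImplicit false

namespace Pool.Agent.Lib.MP_7d8448_an

open Complex Metric MeasureTheory Filter Topology
open scoped ComplexConjugate NNReal ENNReal

lemma parseval_tc {g : ℂ → ℂ} (hg : DifferentiableOn ℂ g (ball 0 1)) {s : ℝ} (h0 : 0 ≤ s)
    (h1 : s < 1) : HasSum (fun n => ‖tc g n * (s : ℂ) ^ n‖ ^ 2) (av fun z => ‖g (s * z)‖ ^ 2) := by
  have hp := parseval (summable_norm_tc hg h0 h1)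
  have e : av (fun z => ‖∑' k, tc g k * (s : ℂ) ^ k * z ^ k‖ ^ 2) = av fun z => ‖g (s * z)‖ ^ 2 := by
    apply av_congr
    intro z hz
    have hlt : ‖(s : ℂ) * z‖ < 1 := by
      rw [norm_mul, hz, norm_real, Real.norm_of_nonneg h0, mul_one]; exact h1
    rw [← (hasSum_tc hg hlt).tsum_eq]
    simp only [mul_pow, mul_assoc]
  rwa [e] at hp

lemma av_sq_mono {g : ℂ → ℂ} (hg : DifferentiableOn ℂ g (ball 0 1)) {r s : ℝ} (h0 : 0 ≤ r)
    (hrs : r ≤ s) (h1 : s < 1) :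
    av (fun z => ‖g (r * z)‖ ^ 2) ≤ av (fun z => ‖g (s * z)‖ ^ 2) := by
  refine hasSum_le ?_ (parseval_tc hg h0 (hrs.trans_lt h1)) (parseval_tc hg (h0.trans hrs) h1)
  intro n
  rw [norm_mul, norm_mul, norm_pow, norm_pow, norm_real, norm_real, Real.norm_of_nonneg h0,
    Real.norm_of_nonneg (h0.trans hrs)]
  gcongr

lemma point_le {g : ℂ → ℂ} (hg : DifferentiableOn ℂ g (ball 0 1)) {s : ℝ} (h0 : 0 ≤ s) (h1 : s < 1)
    {ζ : ℂ} (hζ : ‖ζ‖ = 1) :
    (1 - s ^ 2) * ‖g (s * (s * ζ))‖ ^ 2 ≤ av (fun z => ‖g (s * z)‖ ^ 2) := by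
  have hp := parseval_tc hg h0 h1
  set S := av (fun z => ‖g (s * z)‖ ^ 2) with hS
  have hs2 : s ^ 2 < 1 := by nlinarith
  have hgeo : HasSum (fun n => (s ^ 2) ^ n) (1 - s ^ 2)⁻¹ :=
    hasSum_geometric_of_lt_one (by positivity) hs2
  have hS0 : 0 ≤ S := av_nonneg fun z _ => by positivity
  have hlt : ‖(s : ℂ) * (s * ζ)‖ < 1 := by
    rw [norm_mul, norm_mul, hζ, norm_real, Real.norm_of_nonneg h0, mul_one]; nlinarith
  have hsum := hasSum_tc hg hlt
  have hlim := hsum.tendsto_sum_nat.norm.pow 2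
  have hle : ∀ K, ‖∑ n ∈ Finset.range K, tc g n * ((s : ℂ) * (s * ζ)) ^ n‖ ^ 2 ≤
      S * (1 - s ^ 2)⁻¹ := by
    intro K
    have e1 : ‖∑ n ∈ Finset.range K, tc g n * ((s : ℂ) * (s * ζ)) ^ n‖ ≤
        ∑ n ∈ Finset.range K, ‖tc g n * (s : ℂ) ^ n‖ * s ^ n := by
      refine (norm_sum_le _ _).trans (le_of_eq (Finset.sum_congr rfl fun n _ => ?_))
      rw [mul_pow, ← mul_assoc, norm_mul, norm_pow ((s : ℂ) * ζ), norm_mul (s : ℂ) ζ, hζ, norm_real,
        Real.norm_of_nonneg h0, mul_one]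
    calc ‖∑ n ∈ Finset.range K, tc g n * ((s : ℂ) * (s * ζ)) ^ n‖ ^ 2
        ≤ (∑ n ∈ Finset.range K, ‖tc g n * (s : ℂ) ^ n‖ * s ^ n) ^ 2 := by gcongr
      _ ≤ (∑ n ∈ Finset.range K, ‖tc g n * (s : ℂ) ^ n‖ ^ 2) *
          (∑ n ∈ Finset.range K, (s ^ n) ^ 2) := Finset.sum_mul_sq_le_sq_mul_sq _ _ _
      _ ≤ S * (1 - s ^ 2)⁻¹ := by
        have a1 := sum_le_hasSum (Finset.range K) (fun i _ => by positivity) hp
        have a2 : ∑ n ∈ Finset.range K, (s ^ n) ^ 2 ≤ (1 - s ^ 2)⁻¹ := by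
          have := sum_le_hasSum (Finset.range K) (fun i _ => by positivity) hgeo
          refine le_trans (le_of_eq (Finset.sum_congr rfl fun n _ => ?_)) this
          rw [← pow_mul, ← pow_mul, mul_comm]
        gcongr
  have hfin := le_of_tendsto' hlim hle
  have hpos : 0 < 1 - s ^ 2 := by linarith
  calc (1 - s ^ 2) * ‖g (s * (s * ζ))‖ ^ 2 ≤ (1 - s ^ 2) * (S * (1 - s ^ 2)⁻¹) := by gcongr
    _ = S := by field_simp

lemma T2_av {F : ℂ → ℂ → ℝ}
    (hF : ContinuousOn (fun p : ℂ × ℂ => F p.1 p.2) (sphere (0 : ℂ) 1 ×ˢ sphere (0 : ℂ) 1))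
    (h0 : ∀ z w, ‖z‖ = 1 → ‖w‖ = 1 → 0 ≤ F z w) :
    T2 (fun z w => ENNReal.ofReal (F z w)) =
      ENNReal.ofReal ((2 * Real.pi) ^ 2 * av (fun w => av (fun z => F z w))) := by
  have hm : Measurable fun x : ℝ × ℝ => ENNReal.ofReal (F (ei x.1) (ei x.2)) :=
    measurable_of_continuousOn (F := fun z w => ENNReal.ofReal (F z w))
      (ENNReal.continuous_ofReal.comp_continuousOn hF)
  rw [T2_eq' hm]
  have hswap : ContinuousOn (fun p : ℂ × ℂ => F p.2 p.1) (sphere (0 : ℂ) 1 ×ˢ sphere (0 : ℂ) 1) := by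
    refine hF.comp (f := fun p : ℂ × ℂ => (p.2, p.1)) (by fun_prop) ?_
    intro p hp
    exact ⟨hp.2, hp.1⟩
  have h1 : ∀ y : ℝ, T1 (fun z => ENNReal.ofReal (F z (ei y))) =
      ENNReal.ofReal (2 * Real.pi * av (fun z => F z (ei y))) := by
    intro y
    apply T1_ofReal
    · refine hF.comp (f := fun z : ℂ => (z, ei y)) (by fun_prop) ?_
      intro z hz
      exact ⟨hz, by simp [norm_ei]⟩
    · intro z hz; exact h0 z _ hz (norm_ei y)
  simp only [h1]
  have h2 := T1_ofReal (F := fun w => 2 * Real.pi * av (fun z => F z w))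
    (continuousOn_const.mul (continuousOn_av hswap))
    (fun w hw => mul_nonneg (by positivity) (av_nonneg fun z hz => h0 z w hz hw))
  unfold T1 at h2
  rw [h2, av_real_const_mul]
  congr 1
  ring

theorem diag_le {G : ℂ × ℂ → ℂ} (hG : DifferentiableOn ℂ G (ball (0 : ℂ × ℂ) 1)) {K : ℝ}
    (hK : 0 ≤ K) (hb : ∀ r : ℝ, 0 < r → r < 1 → Hr 2 G r ≤ ENNReal.ofReal (K * (2 * Real.pi) ^ 2))
    {R : ℝ} (h0 : 0 < R) (h1 : R < 1) :
    (1 - R) * av (fun z => ‖G (R * z, R * z)‖ ^ 2) ≤ K := by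
  set s : ℝ := Real.sqrt R with hs
  have hs0 : 0 < s := Real.sqrt_pos.2 h0
  have hss : s ^ 2 = R := Real.sq_sqrt h0.le
  have hs1 : s < 1 := by
    rw [hs, Real.sqrt_lt' one_pos]; simpa using h1
  have hRs : R ≤ s := by nlinarith
  have hcont : ∀ a b : ℝ, 0 ≤ a → a < 1 → 0 ≤ b → b < 1 →
      ContinuousOn (fun p : ℂ × ℂ => ‖G (a * p.1, b * p.2)‖ ^ 2)
        (sphere (0 : ℂ) 1 ×ˢ sphere (0 : ℂ) 1) := by
    intro a b a0 a1 b0 b1
    refine ContinuousOn.pow (ContinuousOn.norm ?_) 2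
    refine hG.continuousOn.comp (f := fun p : ℂ × ℂ => ((a : ℂ) * p.1, (b : ℂ) * p.2))
      (by fun_prop) ?_
    intro p hp
    simp only [Set.mem_prod, mem_sphere, dist_zero_right] at hp
    rw [mem_bd, norm_mul, norm_mul, hp.1, hp.2, norm_real, norm_real, Real.norm_of_nonneg a0,
      Real.norm_of_nonneg b0, mul_one, mul_one]
    exact ⟨a1, b1⟩
  have hslice1 : ∀ a : ℂ, ‖a‖ < 1 → DifferentiableOn ℂ (fun w => G (a, w)) (ball 0 1) := by
    intro a ha
    refine hG.comp (f := fun w : ℂ => (a, w)) (by fun_prop) ?_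
    intro w hw
    rw [mem_bd]
    exact ⟨ha, by simpa using hw⟩
  have hslice2 : ∀ b : ℂ, ‖b‖ < 1 → DifferentiableOn ℂ (fun w => G (w, b)) (ball 0 1) := by
    intro a ha
    refine hG.comp (f := fun w : ℂ => (w, a)) (by fun_prop) ?_
    intro w hw
    rw [mem_bd]
    exact ⟨by simpa using hw, ha⟩
  have hnr : ∀ (a : ℝ) (z : ℂ), 0 ≤ a → ‖z‖ = 1 → ‖(a : ℂ) * z‖ = a := by
    intro a z ha hz
    rw [norm_mul, hz, norm_real, Real.norm_of_nonneg ha, mul_one]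
  -- bound on the torus of radius s
  have hbs : av (fun w => av (fun z => ‖G (s * z, s * w)‖ ^ 2)) ≤ K := by
    have := hb s hs0 hs1
    unfold Hr at this
    simp only [enorm_rpow_ofReal two_pos.le, Real.rpow_two] at this
    rw [T2_av (F := fun z w => ‖G (s * z, s * w)‖ ^ 2) (hcont s s hs0.le hs1 hs0.le hs1)
      (fun z w _ _ => by positivity), ENNReal.ofReal_le_ofReal_iff (by positivity)] at this
    have hpi : 0 < (2 * Real.pi) ^ 2 := by positivity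
    nlinarith
  calc (1 - R) * av (fun z => ‖G (R * z, R * z)‖ ^ 2)
      = av (fun z => (1 - R) * ‖G (R * z, R * z)‖ ^ 2) := by rw [av_real_const_mul]
    _ ≤ av (fun z => av (fun w => ‖G (R * z, s * w)‖ ^ 2)) := by
      apply av_mono
      · refine continuousOn_const.mul ?_
        refine (hcont R R h0.le h1 h0.le h1).comp (f := fun z : ℂ => (z, z)) (by fun_prop) ?_
        intro z hz
        exact ⟨hz, hz⟩
      · exact continuousOn_av (hcont R s h0.le h1 hs0.le hs1)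
      · intro z hz
        have h3 := point_le (hslice1 (R * z) (by rw [hnr R z h0.le hz]; exact h1)) hs0.le hs1 hz
        have h4 : (s : ℂ) * (s * z) = R * z := by
          rw [← hss]; push_cast; ring
        rw [hss, h4] at h3
        exact h3
    _ = av (fun w => av (fun z => ‖G (R * z, s * w)‖ ^ 2)) :=
        av_comm (K := fun z w => ‖G (R * z, s * w)‖ ^ 2) (hcont R s h0.le h1 hs0.le hs1)
    _ ≤ av (fun w => av (fun z => ‖G (s * z, s * w)‖ ^ 2)) := by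
      have hsw : ∀ a b : ℝ, 0 ≤ a → a < 1 → 0 ≤ b → b < 1 →
          ContinuousOn (fun w => av (fun z => ‖G (a * z, b * w)‖ ^ 2)) (sphere (0 : ℂ) 1) := by
        intro a b a0 a1 b0 b1
        apply continuousOn_av (K := fun w z => ‖G (a * z, b * w)‖ ^ 2)
        refine (hcont a b a0 a1 b0 b1).comp (f := fun p : ℂ × ℂ => (p.2, p.1)) (by fun_prop) ?_
        intro p hp
        exact ⟨hp.2, hp.1⟩
      apply av_mono (hsw R s h0.le h1 hs0.le hs1) (hsw s s hs0.le hs1 hs0.le hs1)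
      intro w hw
      exact av_sq_mono (hslice2 (s * w) (by rw [hnr s w hs0.le hw]; exact hs1)) h0.le hRs hs1
    _ ≤ K := hbs

end Pool.Agent.Lib.MP_7d8448_an
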