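import Pool.Agent.Lib.MP_7d8448_anB.OneVar

set_option autoImplicit false

namespace Pool.Agent.Lib.MP_7d8448_an

open Complex Metric Filter Topology
open scoped ComplexConjugate NNReal ENNReal

/-- Power series. -/
noncomputable def ps (b : ℕ → ℂ) (z : ℂ) : ℂ := ∑' n, b n * z ^ n

/-- Dilation defect. -/
noncomputable def dd (b : ℕ → ℂ) (ρ : ℝ) : ℝ := ∑' n, ‖b n‖ ^ 2 * (1 - ρ ^ n) ^ 2

section

variable {b : ℕ → ℂ} {M : ℝ}

lemma summable_sq (hb : ∀ K, ∑ n ∈ Finset.range K, ‖b n‖ ^ 2 ≤ M) : Summable fun n => ‖b n‖ ^ 2 :=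
  summable_of_sum_range_le (fun n => by positivity) hb

lemma tsum_sq_le (hb : ∀ K, ∑ n ∈ Finset.range K, ‖b n‖ ^ 2 ≤ M) : ∑' n, ‖b n‖ ^ 2 ≤ M :=
  Real.tsum_le_of_sum_range_le (fun n => by positivity) hb

lemma bound_coeff (hb : ∀ K, ∑ n ∈ Finset.range K, ‖b n‖ ^ 2 ≤ M) (k : ℕ) :
    ‖b k‖ ≤ Real.sqrt M := by
  apply Real.le_sqrt_of_sq_le
  exact (Finset.single_le_sum (f := fun k => ‖b k‖ ^ 2) (fun i _ => by positivity)
        (Finset.self_mem_range_succ k)).trans (hb (k + 1))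

lemma summable_bz (hb : ∀ K, ∑ n ∈ Finset.range K, ‖b n‖ ^ 2 ≤ M) {z : ℂ} (hz : ‖z‖ < 1) :
    Summable fun n => ‖b n * z ^ n‖ := by
  refine Summable.of_nonneg_of_le (fun n => norm_nonneg _) (fun n => ?_)
    ((summable_geometric_of_lt_one (norm_nonneg z) hz).mul_left (Real.sqrt M))
  rw [norm_mul, norm_pow]
  exact mul_le_mul_of_nonneg_right (bound_coeff hb n) (by positivity)

lemma dd_term_le {ρ : ℝ} (h0 : 0 ≤ ρ) (h1 : ρ ≤ 1) (n : ℕ) :
    ‖b n‖ ^ 2 * (1 - ρ ^ n) ^ 2 ≤ ‖b n‖ ^ 2 := by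
  have e1 : ρ ^ n ≤ 1 := pow_le_one₀ h0 h1
  have e2 : 0 ≤ ρ ^ n := by positivity
  have e3 : (1 - ρ ^ n) ^ 2 ≤ 1 := by nlinarith
  exact mul_le_of_le_one_right (by positivity) e3

lemma summable_dd (hb : ∀ K, ∑ n ∈ Finset.range K, ‖b n‖ ^ 2 ≤ M) {ρ : ℝ} (h0 : 0 ≤ ρ)
    (h1 : ρ ≤ 1) : Summable fun n => ‖b n‖ ^ 2 * (1 - ρ ^ n) ^ 2 :=
  Summable.of_nonneg_of_le (fun n => by positivity) (dd_term_le h0 h1) (summable_sq hb)

lemma dd_nonneg (b : ℕ → ℂ) (ρ : ℝ) : 0 ≤ dd b ρ := tsum_nonneg fun n => by positivity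

lemma dd_le (hb : ∀ K, ∑ n ∈ Finset.range K, ‖b n‖ ^ 2 ≤ M) {ρ : ℝ} (h0 : 0 ≤ ρ)
    (h1 : ρ ≤ 1) : dd b ρ ≤ M :=
  ((summable_dd hb h0 h1).tsum_le_tsum (dd_term_le h0 h1) (summable_sq hb)).trans (tsum_sq_le hb)

lemma tendsto_dd (hb : ∀ K, ∑ n ∈ Finset.range K, ‖b n‖ ^ 2 ≤ M) {ρ : ℕ → ℝ}
    (h0 : ∀ n, 0 ≤ ρ n) (h1 : ∀ n, ρ n ≤ 1) (h : Tendsto ρ atTop (𝓝 1)) :
    Tendsto (fun n => dd b (ρ n)) atTop (𝓝 0) := by
  have key : Tendsto (fun n => dd b (ρ n)) atTop (𝓝 (∑' k, ‖b k‖ ^ 2 * (1 - (1 : ℝ) ^ k) ^ 2)) := by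
    apply tendsto_tsum_of_dominated_convergence (bound := fun k => ‖b k‖ ^ 2) (summable_sq hb)
    · intro k
      exact ((tendsto_const_nhds.sub (h.pow k)).pow 2).const_mul _
    · filter_upwards with n k
      rw [Real.norm_of_nonneg (by positivity)]
      exact dd_term_le (h0 n) (h1 n) k
  simpa using key

lemma continuousOn_ps (hb : ∀ K, ∑ n ∈ Finset.range K, ‖b n‖ ^ 2 ≤ M) {t : ℝ} (ht0 : 0 ≤ t)
    (ht : t < 1) : ContinuousOn (fun z => ps b (t * z)) (sphere (0 : ℂ) 1) := by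
  unfold ps
  apply continuousOn_tsum (u := fun n => Real.sqrt M * t ^ n)
  · intro n; fun_prop
  · exact (summable_geometric_of_lt_one ht0 ht).mul_left _
  · intro n z hz
    have hz' : ‖z‖ = 1 := by simpa using hz
    rw [norm_mul, norm_pow, norm_mul, hz', norm_real, Real.norm_of_nonneg ht0, mul_one]
    exact mul_le_mul_of_nonneg_right (bound_coeff hb n) (by positivity)

lemma av_ps_le (hb : ∀ K, ∑ n ∈ Finset.range K, ‖b n‖ ^ 2 ≤ M) {r : ℝ} (h0 : 0 ≤ r) (h1 : r < 1) :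
    av (fun z => ‖ps b (r * z)‖ ^ 2) ≤ M := by
  have hs : Summable fun n => ‖b n * (r : ℂ) ^ n‖ :=
    summable_bz hb (by rwa [norm_real, Real.norm_of_nonneg h0])
  have hp := parseval hs
  have e : av (fun z => ‖∑' n, b n * (r : ℂ) ^ n * z ^ n‖ ^ 2) = av fun z => ‖ps b (r * z)‖ ^ 2 := by
    apply av_congr
    intro z hz
    simp only [ps, mul_pow, mul_assoc]
  rw [e] at hp
  rw [← hp.tsum_eq]
  refine Real.tsum_le_of_sum_range_le (fun n => by positivity) fun K => ?_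
  refine (Finset.sum_le_sum fun n _ => ?_).trans (hb K)
  rw [norm_mul, norm_pow, norm_real, Real.norm_of_nonneg h0]
  have : r ^ n ≤ 1 := pow_le_one₀ h0 h1.le
  calc (‖b n‖ * r ^ n) ^ 2 ≤ (‖b n‖ * 1) ^ 2 := by gcongr
    _ = ‖b n‖ ^ 2 := by rw [mul_one]

lemma av_diff_le (hb : ∀ K, ∑ n ∈ Finset.range K, ‖b n‖ ^ 2 ≤ M) {r ρ : ℝ} (h0 : 0 ≤ r)
    (h1 : r < 1) (k0 : 0 ≤ ρ) (k1 : ρ ≤ 1) :
    av (fun z => ‖ps b (r * z) - ps b (ρ * (r * z))‖ ^ 2) ≤ dd b ρ := by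
  have hr : ‖(r : ℂ)‖ < 1 := by rwa [norm_real, Real.norm_of_nonneg h0]
  have hρ : ‖(ρ : ℂ)‖ ≤ 1 := by rwa [norm_real, Real.norm_of_nonneg k0]
  have hs1 : Summable fun n => ‖b n * (r : ℂ) ^ n‖ := summable_bz hb hr
  have hs : Summable fun n => ‖b n * (r : ℂ) ^ n * (1 - (ρ : ℂ) ^ n)‖ := by
    refine Summable.of_nonneg_of_le (fun n => norm_nonneg _) (fun n => ?_) (hs1.mul_right 2)
    rw [norm_mul]
    gcongr
    refine (norm_sub_le _ _).trans ?_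
    rw [norm_one, norm_pow]
    have : ‖(ρ : ℂ)‖ ^ n ≤ 1 := pow_le_one₀ (norm_nonneg _) hρ
    linarith
  have hp := parseval hs
  have e : av (fun z => ‖∑' n, b n * (r : ℂ) ^ n * (1 - (ρ : ℂ) ^ n) * z ^ n‖ ^ 2)
      = av fun z => ‖ps b (r * z) - ps b (ρ * (r * z))‖ ^ 2 := by
    apply av_congr
    intro z hz
    have hz1 : ‖(r : ℂ) * z‖ < 1 := by rwa [norm_mul, hz, mul_one]
    have hz2 : ‖(ρ : ℂ) * ((r : ℂ) * z)‖ < 1 := by
      rw [norm_mul]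
      calc ‖(ρ : ℂ)‖ * ‖(r : ℂ) * z‖ ≤ 1 * ‖(r : ℂ) * z‖ := by gcongr
        _ < 1 := by rwa [one_mul]
    simp only [ps]
    rw [← (summable_bz hb hz1).of_norm.tsum_sub (summable_bz hb hz2).of_norm]
    congr 2
    apply tsum_congr
    intro n
    ring
  rw [e] at hp
  rw [← hp.tsum_eq, dd]
  apply hp.summable.tsum_le_tsum _ (summable_dd hb k0 k1)
  intro n
  have e1 : ‖(1 : ℂ) - (ρ : ℂ) ^ n‖ = 1 - ρ ^ n := by
    have : ((1 : ℂ) - (ρ : ℂ) ^ n) = ((1 - ρ ^ n : ℝ) : ℂ) := by push_cast; ring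
    rw [this, norm_real, Real.norm_of_nonneg]
    linarith [pow_le_one₀ k0 k1 (n := n)]
  rw [norm_mul, norm_mul, norm_pow, e1, norm_real, Real.norm_of_nonneg h0, mul_pow]
  have : r ^ n ≤ 1 := pow_le_one₀ h0 h1.le
  have h2 : (‖b n‖ * r ^ n) ^ 2 ≤ ‖b n‖ ^ 2 := by
    calc (‖b n‖ * r ^ n) ^ 2 ≤ (‖b n‖ * 1) ^ 2 := by gcongr
      _ = ‖b n‖ ^ 2 := by rw [mul_one]
  gcongr

end

/-- The one-variable statement used on slices. -/
def OneVarStmt (p : ℝ) : Prop :=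
  ∃ C : ℝ, 0 < C ∧ ∀ g : ℂ → ℂ, DifferentiableOn ℂ g (ball 0 1) → ∀ s : ℕ → ℝ, (∀ n, 0 < s n) →
    (∀ n, s n < 1) → Tendsto s atTop (𝓝 1) → ∀ M : ℝ, (∀ n, av (fun z => ‖g (s n * z)‖ ^ p) ≤ M) →
    (∀ r ρ : ℝ, 0 ≤ r → r < 1 → 0 ≤ ρ → ρ ≤ 1 →
      av (fun z => ‖g (r * z) - g (ρ * (r * z))‖ ^ p) ≤ C * M) ∧
    (∀ r ρ : ℕ → ℝ, (∀ n, 0 ≤ r n) → (∀ n, r n < 1) → (∀ n, 0 ≤ ρ n) → (∀ n, ρ n ≤ 1) →
      Tendsto ρ atTop (𝓝 1) →
      Tendsto (fun n => av (fun z => ‖g (r n * z) - g (ρ n * (r n * z))‖ ^ p)) atTop (𝓝 0))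

theorem oneVarStmt_two : OneVarStmt 2 := by
  refine ⟨1, one_pos, ?_⟩
  intro g hg s hs0 hs1 hs M hM
  simp only [Real.rpow_two] at hM ⊢
  have hb : ∀ K, ∑ n ∈ Finset.range K, ‖tc g n‖ ^ 2 ≤ M := by
    intro K
    have h1 : ∀ n, ∑ k ∈ Finset.range K, ‖tc g k * (s n : ℂ) ^ k‖ ^ 2 ≤ M := by
      intro n
      have hp := parseval (summable_norm_tc hg (hs0 n).le (hs1 n))
      have e : av (fun z => ‖∑' k, tc g k * (s n : ℂ) ^ k * z ^ k‖ ^ 2)
          = av fun z => ‖g (s n * z)‖ ^ 2 := by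
        apply av_congr
        intro z hz
        have hlt : ‖(s n : ℂ) * z‖ < 1 := by
          rw [norm_mul, hz, norm_real, Real.norm_of_nonneg (hs0 n).le, mul_one]; exact hs1 n
        rw [← (hasSum_tc hg hlt).tsum_eq]
        simp only [mul_pow, mul_assoc]
      rw [e] at hp
      exact (sum_le_hasSum _ (fun i _ => by positivity) hp).trans (hM n)
    have hlim : Tendsto (fun n => ∑ k ∈ Finset.range K, ‖tc g k * (s n : ℂ) ^ k‖ ^ 2) atTop
        (𝓝 (∑ k ∈ Finset.range K, ‖tc g k * ((1 : ℝ) : ℂ) ^ k‖ ^ 2)) := by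
      have hc : Continuous fun t : ℝ => ∑ k ∈ Finset.range K, ‖tc g k * (t : ℂ) ^ k‖ ^ 2 := by
        fun_prop
      exact (hc.tendsto 1).comp hs
    have := le_of_tendsto' hlim h1
    simpa using this
  have hgps : ∀ z : ℂ, ‖z‖ < 1 → g z = ps (tc g) z := fun z hz => (hasSum_tc hg hz).tsum_eq.symm
  have heq : ∀ r ρ : ℝ, 0 ≤ r → r < 1 → 0 ≤ ρ → ρ ≤ 1 →
      av (fun z => ‖g (r * z) - g (ρ * (r * z))‖ ^ 2) =
      av (fun z => ‖ps (tc g) (r * z) - ps (tc g) (ρ * (r * z))‖ ^ 2) := by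
    intro r ρ h0 h1 k0 k1
    apply av_congr
    intro z hz
    have hz1 : ‖(r : ℂ) * z‖ < 1 := by
      rwa [norm_mul, hz, mul_one, norm_real, Real.norm_of_nonneg h0]
    have hz2 : ‖(ρ : ℂ) * ((r : ℂ) * z)‖ < 1 := by
      rw [norm_mul, norm_real, Real.norm_of_nonneg k0]
      calc ρ * ‖(r : ℂ) * z‖ ≤ 1 * ‖(r : ℂ) * z‖ := by gcongr
        _ < 1 := by rwa [one_mul]
    rw [← hgps _ hz1, ← hgps _ hz2]
  constructor
  · intro r ρ h0 h1 k0 k1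
    rw [heq r ρ h0 h1 k0 k1, one_mul]
    exact (av_diff_le hb h0 h1 k0 k1).trans (dd_le hb k0 k1)
  · intro r ρ h0 h1 k0 k1 hρ
    refine squeeze_zero (fun n => av_nonneg fun z _ => by positivity) (fun n => ?_)
      (tendsto_dd hb k0 k1 hρ)
    rw [heq _ _ (h0 n) (h1 n) (k0 n) (k1 n)]
    exact av_diff_le hb (h0 n) (h1 n) (k0 n) (k1 n)

theorem oneVarStmt_one : OneVarStmt 1 := by
  refine ⟨2, two_pos, ?_⟩
  intro g hg s hs0 hs1 hs M hM
  simp only [Real.rpow_one] at hM ⊢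
  obtain ⟨a, b, ha, hb, hgab⟩ := exists_h2_factor hg hs0 hs1 hs hM
  have hM0 : 0 ≤ M := by simpa using ha 0
  have key : ∀ r ρ : ℝ, 0 ≤ r → r < 1 → 0 ≤ ρ → ρ ≤ 1 → ∀ c : ℝ, 0 < c →
      av (fun z => ‖g (r * z) - g (ρ * (r * z))‖) ≤ c / 2 * (dd a ρ + dd b ρ) + M / c := by
    intro r ρ h0 h1 k0 k1 c hc
    have hρr0 : 0 ≤ ρ * r := mul_nonneg k0 h0
    have hρr1 : ρ * r < 1 := lt_of_le_of_lt (mul_le_of_le_one_left h0 k1) h1
    have cA := continuousOn_ps ha h0 h1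
    have cB := continuousOn_ps hb h0 h1
    have cA' : ContinuousOn (fun z => ps a (ρ * (r * z))) (sphere (0 : ℂ) 1) := by
      have := continuousOn_ps ha hρr0 hρr1
      refine this.congr fun z _ => ?_
      simp only [ofReal_mul, mul_assoc]
    have cB' : ContinuousOn (fun z => ps b (ρ * (r * z))) (sphere (0 : ℂ) 1) := by
      have := continuousOn_ps hb hρr0 hρr1
      refine this.congr fun z _ => ?_
      simp only [ofReal_mul, mul_assoc]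
    have cg : ContinuousOn (fun z => g (r * z)) (sphere (0 : ℂ) 1) := continuousOn_comp_mul hg h0 h1
    have cg' : ContinuousOn (fun z => g (ρ * (r * z))) (sphere (0 : ℂ) 1) := by
      have := continuousOn_comp_mul hg hρr0 hρr1
      refine this.congr fun z _ => ?_
      simp only [ofReal_mul, mul_assoc]
    have hpt : ∀ z : ℂ, ‖z‖ = 1 → ‖g (r * z) - g (ρ * (r * z))‖ ≤
        (c / 2 * ‖ps a (r * z) - ps a (ρ * (r * z))‖ ^ 2 + 1 / (2 * c) * ‖ps b (r * z)‖ ^ 2) +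
        (c / 2 * ‖ps b (r * z) - ps b (ρ * (r * z))‖ ^ 2 +
          1 / (2 * c) * ‖ps a (ρ * (r * z))‖ ^ 2) := by
      intro z hz
      have hz1 : ‖(r : ℂ) * z‖ < 1 := by
        rwa [norm_mul, hz, mul_one, norm_real, Real.norm_of_nonneg h0]
      have hz2 : ‖(ρ : ℂ) * ((r : ℂ) * z)‖ < 1 := by
        rw [norm_mul, norm_real, Real.norm_of_nonneg k0]
        calc ρ * ‖(r : ℂ) * z‖ ≤ 1 * ‖(r : ℂ) * z‖ := by gcongr
          _ < 1 := by rwa [one_mul]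
      have e1 : g (r * z) = ps a (r * z) * ps b (r * z) := hgab _ hz1
      have e2 : g (ρ * (r * z)) = ps a (ρ * (r * z)) * ps b (ρ * (r * z)) := hgab _ hz2
      have e3 : g (r * z) - g (ρ * (r * z)) =
          (ps a (r * z) - ps a (ρ * (r * z))) * ps b (r * z) +
          (ps b (r * z) - ps b (ρ * (r * z))) * ps a (ρ * (r * z)) := by
        rw [e1, e2]; ring
      have young : ∀ x y : ℝ, x * y ≤ c / 2 * x ^ 2 + 1 / (2 * c) * y ^ 2 := by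
        intro x y
        have h : c / 2 * x ^ 2 + 1 / (2 * c) * y ^ 2 - x * y = (c * x - y) ^ 2 / (2 * c) := by
          field_simp
          ring
        have h' : 0 ≤ (c * x - y) ^ 2 / (2 * c) := by positivity
        linarith
      rw [e3]
      refine (norm_add_le _ _).trans ?_
      rw [norm_mul, norm_mul]
      exact add_le_add (young _ _) (young _ _)
    have c1 : ContinuousOn (fun z : ℂ => c / 2 * ‖ps a (r * z) - ps a (ρ * (r * z))‖ ^ 2)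
        (sphere 0 1) := continuousOn_const.mul ((cA.sub cA').norm.pow 2)
    have c2 : ContinuousOn (fun z : ℂ => 1 / (2 * c) * ‖ps b (r * z)‖ ^ 2)
        (sphere 0 1) := continuousOn_const.mul (cB.norm.pow 2)
    have c3 : ContinuousOn (fun z : ℂ => c / 2 * ‖ps b (r * z) - ps b (ρ * (r * z))‖ ^ 2)
        (sphere 0 1) := continuousOn_const.mul ((cB.sub cB').norm.pow 2)
    have c4 : ContinuousOn (fun z : ℂ => 1 / (2 * c) * ‖ps a (ρ * (r * z))‖ ^ 2)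
        (sphere 0 1) := continuousOn_const.mul (cA'.norm.pow 2)
    have h := av_mono (cg.sub cg').norm ((c1.add c2).add (c3.add c4)) hpt
    refine h.trans ?_
    have s1 := av_add (c1.add c2) (c3.add c4)
    have s2 := av_add c1 c2
    have s3 := av_add c3 c4
    beta_reduce at s1 s2 s3
    have s4 : av (fun z : ℂ => c / 2 * ‖ps a (r * z) - ps a (ρ * (r * z))‖ ^ 2 +
        1 / (2 * c) * ‖ps b (r * z)‖ ^ 2 +
        (c / 2 * ‖ps b (r * z) - ps b (ρ * (r * z))‖ ^ 2 +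
          1 / (2 * c) * ‖ps a (ρ * (r * z))‖ ^ 2)) =
        (c / 2 * av (fun z : ℂ => ‖ps a (r * z) - ps a (ρ * (r * z))‖ ^ 2) +
        1 / (2 * c) * av (fun z : ℂ => ‖ps b (r * z)‖ ^ 2)) +
        (c / 2 * av (fun z : ℂ => ‖ps b (r * z) - ps b (ρ * (r * z))‖ ^ 2) +
          1 / (2 * c) * av (fun z : ℂ => ‖ps a (ρ * (r * z))‖ ^ 2)) := by
      rw [← av_real_const_mul, ← av_real_const_mul, ← av_real_const_mul, ← av_real_const_mul,
        ← s2, ← s3]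
      exact s1
    have t1 := av_diff_le ha h0 h1 k0 k1
    have t2 := av_ps_le hb h0 h1
    have t3 := av_diff_le hb h0 h1 k0 k1
    have t4 : av (fun z : ℂ => ‖ps a (ρ * (r * z))‖ ^ 2) ≤ M := by
      have := av_ps_le ha hρr0 hρr1
      simpa only [ofReal_mul, mul_assoc] using this
    refine (le_of_eq s4).trans ?_
    calc _ ≤ (c / 2 * dd a ρ + 1 / (2 * c) * M) + (c / 2 * dd b ρ + 1 / (2 * c) * M) := by gcongr
      _ = c / 2 * (dd a ρ + dd b ρ) + M / c := by field_simp; ring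
  constructor
  · intro r ρ h0 h1 k0 k1
    have := key r ρ h0 h1 k0 k1 1 one_pos
    have e1 := dd_le ha k0 k1
    have e2 := dd_le hb k0 k1
    linarith
  · intro r ρ h0 h1 k0 k1 hρ
    rw [Metric.tendsto_atTop]
    intro ε hε
    set c : ℝ := 2 * (M + 1) / ε with hc
    have hc0 : 0 < c := by positivity
    have hlim : Tendsto (fun n => c / 2 * (dd a (ρ n) + dd b (ρ n))) atTop (𝓝 (c / 2 * (0 + 0))) :=
      ((tendsto_dd ha k0 k1 hρ).add (tendsto_dd hb k0 k1 hρ)).const_mul _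
    rw [add_zero, mul_zero] at hlim
    obtain ⟨N, hN⟩ := eventually_atTop.1 (hlim.eventually (gt_mem_nhds (half_pos hε)))
    refine ⟨N, fun n hn => ?_⟩
    have h2 := key (r n) (ρ n) (h0 n) (h1 n) (k0 n) (k1 n) c hc0
    have h3 := hN n hn
    have h4 : M / c < ε / 2 := by
      rw [hc, div_div_eq_mul_div, div_lt_div_iff₀ (by positivity) (by positivity)]
      nlinarith
    rw [Real.dist_eq, sub_zero, abs_of_nonneg (av_nonneg fun z _ => norm_nonneg _)]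
    linarith

end Pool.Agent.Lib.MP_7d8448_an
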