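import Pool.Agent.Lib.MP_7d8448_anB.Av

set_option autoImplicit false

namespace Pool.Agent.Lib.MP_7d8448_an

open Complex Metric Filter Topology
open scoped ComplexConjugate

/-- Factorisation `h = F₁ F₂` on the disc with `|F₁|², |F₂|² ≤ Q` and `Q = |h|` on the circle. -/
def HFact (h : ℂ → ℂ) : Prop :=
  ∃ F₁ F₂ : ℂ → ℂ, ∃ Q : ℂ → ℝ, DifferentiableOn ℂ F₁ (ball 0 1) ∧ DifferentiableOn ℂ F₂ (ball 0 1) ∧
    Continuous Q ∧ (∀ z ∈ ball (0 : ℂ) 1, F₁ z * F₂ z = h z) ∧
    (∀ z ∈ ball (0 : ℂ) 1, ‖F₁ z‖ ^ 2 ≤ Q z) ∧ (∀ z ∈ ball (0 : ℂ) 1, ‖F₂ z‖ ^ 2 ≤ Q z) ∧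
    (∀ z : ℂ, ‖z‖ = 1 → Q z = ‖h z‖)

lemma HFact.mul {h k : ℂ → ℂ} (hh : HFact h) (hk : HFact k) : HFact (fun z => h z * k z) := by
  obtain ⟨F₁, F₂, Q, a1, a2, a3, a4, a5, a6, a7⟩ := hh
  obtain ⟨G₁, G₂, Q', b1, b2, b3, b4, b5, b6, b7⟩ := hk
  refine ⟨fun z => F₁ z * G₁ z, fun z => F₂ z * G₂ z, fun z => Q z * Q' z, a1.mul b1, a2.mul b2,
    a3.mul b3, ?_, ?_, ?_, ?_⟩
  · intro z hz
    beta_reduce
    rw [← a4 z hz, ← b4 z hz]; ring
  · intro z hz
    rw [norm_mul, mul_pow]
    exact mul_le_mul (a5 z hz) (b5 z hz) (by positivity) ((sq_nonneg _).trans (a5 z hz))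
  · intro z hz
    rw [norm_mul, mul_pow]
    exact mul_le_mul (a6 z hz) (b6 z hz) (by positivity) ((sq_nonneg _).trans (a6 z hz))
  · intro z hz
    beta_reduce
    rw [a7 z hz, b7 z hz, norm_mul]

/-- A square root. -/
noncomputable def csq (w : ℂ) : ℂ := exp (log w / 2)

lemma csq_mul_self {w : ℂ} (hw : w ≠ 0) : csq w * csq w = w := by
  unfold csq
  rw [← exp_add, add_halves, exp_log hw]

lemma norm_csq_sq {w : ℂ} (hw : w ≠ 0) : ‖csq w‖ ^ 2 = ‖w‖ := by
  rw [sq, ← norm_mul, csq_mul_self hw]

lemma differentiableAt_csq {w : ℂ} (hw : w ∈ slitPlane) : DifferentiableAt ℂ csq w := by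
  unfold csq
  exact ((differentiableAt_log hw).div_const 2).cexp

lemma HFact_const (c : ℂ) : HFact (fun _ => c) := by
  by_cases hc : c = 0
  · refine ⟨fun _ => 0, fun _ => 0, fun _ => 0, differentiableOn_const _, differentiableOn_const _,
      continuous_const, ?_, ?_, ?_, ?_⟩ <;> simp [hc]
  · refine ⟨fun _ => csq c, fun _ => csq c, fun _ => ‖c‖, differentiableOn_const _,
      differentiableOn_const _, continuous_const, ?_, ?_, ?_, ?_⟩
    · intro z _; exact csq_mul_self hc
    · intro z _; exact (norm_csq_sq hc).le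
    · intro z _; exact (norm_csq_sq hc).le
    · intro z _; rfl

lemma re_one_sub_pos {u : ℂ} (hu : ‖u‖ < 1) : 0 < (1 - u).re := by
  have := (Complex.re_le_norm u)
  simp only [sub_re, one_re]
  linarith

lemma HFact_linear (a : ℂ) : HFact (fun z => z - a) := by
  by_cases ha : ‖a‖ < 1
  · have hre : ∀ z ∈ ball (0 : ℂ) 1, 0 < (1 - conj a * z).re := by
      intro z hz
      apply re_one_sub_pos
      rw [norm_mul, norm_conj]
      have hz' : ‖z‖ < 1 := by simpa using hz
      have := norm_nonneg z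
      nlinarith [norm_nonneg a]
    have hne : ∀ z ∈ ball (0 : ℂ) 1, 1 - conj a * z ≠ 0 := by
      intro z hz h0
      have := hre z hz
      rw [h0] at this
      simp at this
    have hdiff : DifferentiableOn ℂ (fun z => csq (1 - conj a * z)) (ball 0 1) := by
      intro z hz
      have h1 : DifferentiableAt ℂ csq (1 - conj a * z) :=
        differentiableAt_csq (Or.inl (hre z hz))
      have h2 : DifferentiableAt ℂ (fun z : ℂ => 1 - conj a * z) z := by fun_prop
      exact (h1.comp z h2).differentiableWithinAt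
    refine ⟨fun z => (z - a) / (1 - conj a * z) * csq (1 - conj a * z),
      fun z => csq (1 - conj a * z), fun z => ‖1 - conj a * z‖, ?_, hdiff, by fun_prop, ?_, ?_, ?_, ?_⟩
    · refine DifferentiableOn.mul (DifferentiableOn.div (by fun_prop) (by fun_prop) hne) hdiff
    · intro z hz
      simp only
      rw [mul_assoc, csq_mul_self (hne z hz), div_mul_cancel₀ _ (hne z hz)]
    · intro z hz
      simp only
      rw [norm_mul, mul_pow, norm_csq_sq (hne z hz), norm_div, div_pow]
      have h1 : ‖z - a‖ ^ 2 ≤ ‖1 - conj a * z‖ ^ 2 := by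
        have hz' : ‖z‖ < 1 := by simpa using hz
        have e : ‖1 - conj a * z‖ ^ 2 - ‖z - a‖ ^ 2 = (1 - ‖a‖ ^ 2) * (1 - ‖z‖ ^ 2) := by
          rw [← normSq_eq_norm_sq, ← normSq_eq_norm_sq, ← normSq_eq_norm_sq, ← normSq_eq_norm_sq]
          simp only [normSq_apply, sub_re, sub_im, one_re, one_im, mul_re, mul_im, conj_re, conj_im]
          ring
        have h2 : 0 ≤ (1 - ‖a‖ ^ 2) * (1 - ‖z‖ ^ 2) := by
          apply mul_nonneg
          · have := norm_nonneg a; nlinarith
          · have := norm_nonneg z; nlinarith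
        linarith
      have h3 : 0 < ‖1 - conj a * z‖ := norm_pos_iff.2 (hne z hz)
      have h4 : ‖z - a‖ ^ 2 / ‖1 - conj a * z‖ ^ 2 ≤ 1 := by
        rw [div_le_one (by positivity)]
        exact h1
      calc ‖z - a‖ ^ 2 / ‖1 - conj a * z‖ ^ 2 * ‖1 - conj a * z‖ ≤ 1 * ‖1 - conj a * z‖ := by
            gcongr
        _ = _ := one_mul _
    · intro z hz
      exact (norm_csq_sq (hne z hz)).le
    · intro z hz
      have e : 1 - conj a * z = z * conj (z - a) := by
        have : z * conj z = 1 := by rw [mul_conj, normSq_eq_norm_sq, hz]; simp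
        rw [map_sub, mul_sub, this]; ring
      simp only
      rw [e, norm_mul, hz, one_mul, norm_conj]
  · have ha' : 1 ≤ ‖a‖ := not_lt.1 ha
    have ha0 : a ≠ 0 := by
      rintro rfl
      simp at ha
    have hre : ∀ z ∈ ball (0 : ℂ) 1, 0 < (1 - z / a).re := by
      intro z hz
      apply re_one_sub_pos
      rw [norm_div]
      have hz' : ‖z‖ < 1 := by simpa using hz
      rw [div_lt_one (by linarith)]
      linarith
    have hne : ∀ z ∈ ball (0 : ℂ) 1, 1 - z / a ≠ 0 := by
      intro z hz h0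
      have := hre z hz
      rw [h0] at this
      simp at this
    have hna : -a ≠ 0 := neg_ne_zero.2 ha0
    have hdiff : DifferentiableOn ℂ (fun z => csq (-a) * csq (1 - z / a)) (ball 0 1) := by
      intro z hz
      have h1 : DifferentiableAt ℂ csq (1 - z / a) :=
        differentiableAt_csq (Or.inl (hre z hz))
      have h2 : DifferentiableAt ℂ (fun z : ℂ => 1 - z / a) z := by fun_prop
      exact ((h1.comp z h2).const_mul _).differentiableWithinAt
    have hsq : ∀ z ∈ ball (0 : ℂ) 1, (csq (-a) * csq (1 - z / a)) * (csq (-a) * csq (1 - z / a))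
        = z - a := by
      intro z hz
      calc (csq (-a) * csq (1 - z / a)) * (csq (-a) * csq (1 - z / a))
          = (csq (-a) * csq (-a)) * (csq (1 - z / a) * csq (1 - z / a)) := by ring
        _ = -a * (1 - z / a) := by rw [csq_mul_self hna, csq_mul_self (hne z hz)]
        _ = z - a := by field_simp; ring
    refine ⟨fun z => csq (-a) * csq (1 - z / a), fun z => csq (-a) * csq (1 - z / a),
      fun z => ‖z - a‖, hdiff, hdiff, by fun_prop, hsq, ?_, ?_, ?_⟩
    · intro z hz
      rw [sq, ← norm_mul, hsq z hz]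
    · intro z hz
      rw [sq, ← norm_mul, hsq z hz]
    · intro z _
      rfl

lemma HFact_poly (p : Polynomial ℂ) : HFact (fun z => p.eval z) := by
  have hcard : Multiset.card p.roots = p.natDegree :=
    Polynomial.splits_iff_card_roots.1 (IsAlgClosed.splits p)
  have hfac := Polynomial.C_leadingCoeff_mul_prod_multiset_X_sub_C hcard
  have key : ∀ s : Multiset ℂ, HFact (fun z => ((s.map fun a => Polynomial.X - Polynomial.C a).prod).eval z) := by
    intro s
    induction s using Multiset.induction_on with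
    | empty => simpa using HFact_const 1
    | cons a s ih =>
      have := (HFact_linear a).mul ih
      simpa using this
  have h := (HFact_const p.leadingCoeff).mul (key p.roots)
  have e : (fun z => p.eval z) = fun z => p.leadingCoeff *
      ((p.roots.map fun a => Polynomial.X - Polynomial.C a).prod).eval z := by
    ext z
    conv_lhs => rw [← hfac]
    simp
  rw [e]; exact h

end Pool.Agent.Lib.MP_7d8448_an
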