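import Pool.Agent.Lib.MP_7d8448_anB.Key

set_option autoImplicit false

namespace Pool.Agent.Lib.MP_7d8448_an

open Complex Metric MeasureTheory Filter Topology
open scoped ComplexConjugate NNReal ENNReal

variable {A : ℝ}

/-- Restriction of a polynomial in two variables to the diagonal. -/
noncomputable def dpoly (P : MvPolynomial (Fin 2) ℂ) : Polynomial ℂ :=
  MvPolynomial.aeval (fun _ => Polynomial.X) P

lemma eval_dpoly (P : MvPolynomial (Fin 2) ℂ) (z : ℂ) :
    (dpoly P).eval z = MvPolynomial.eval ![z, z] P := by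
  unfold dpoly
  have hz : (![z, z] : Fin 2 → ℂ) = fun _ => z := by
    ext i; fin_cases i <;> rfl
  rw [hz]
  induction P using MvPolynomial.induction_on with
  | C a => simp
  | add p q hp hq => simp [hp, hq]
  | mul_X p i hp => simp [hp]

lemma hf_zero (hA : 1 ≤ A) : hf A (0, 0) = -A := by
  unfold hf
  have : ∀ k, hterm A k (0, 0) = 0 := by
    intro k
    unfold hterm
    rw [Wd_zero hA]; ring
  simp [this]

lemma norm_ff_zero (hA : 1 ≤ A) : ‖ff A (0, 0)‖ = Real.exp (-A) := by
  rw [norm_ff, hf_zero hA]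
  simp

lemma exists_large (C : ℝ) : ∃ A : ℝ, 1 ≤ A ∧ C + 16 * Real.log A < A := by
  have h := Real.isLittleO_log_id_atTop.bound (show (0 : ℝ) < 1 / 32 by norm_num)
  obtain ⟨A, hA⟩ := (h.and ((eventually_ge_atTop (1 : ℝ)).and
    (eventually_gt_atTop (2 * C)))).exists
  refine ⟨A, hA.2.1, ?_⟩
  have h1 := hA.1
  have h2 := Real.log_nonneg hA.2.1
  simp only [id] at h1
  rw [Real.norm_of_nonneg h2, Real.norm_of_nonneg (by linarith [hA.2.1])] at h1
  linarith [hA.2.2]

/-- The threshold constant. -/
noncomputable def CC : ℝ := Real.log 4 + (5 * Real.exp 2 + 5 / 2 + 1) + 50 * S2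

theorem not_cyclic (hA : 1 ≤ A) (hbig : CC + 16 * Real.log A < A) (P : MvPolynomial (Fin 2) ℂ)
    (hP : ∀ r : ℝ, 0 < r → r < 1 →
      Hr 2 (fun z => MvPolynomial.eval ![z.1, z.2] P * ff A z - 1) r ≤
        ENNReal.ofReal (1 / 4 * (2 * Real.pi) ^ 2)) : False := by
  have hff := differentiableOn_ff hA
  -- the polynomial is holomorphic
  have hPd : DifferentiableOn ℂ (fun z : ℂ × ℂ => MvPolynomial.eval ![z.1, z.2] P)
      (ball (0 : ℂ × ℂ) 1) := by
    have : Differentiable ℂ (fun z : ℂ × ℂ => MvPolynomial.eval ![z.1, z.2] P) := by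
      induction P using MvPolynomial.induction_on with
      | C a => simp
      | add p q hp hq =>
        simp only [map_add]
        have hp' : Differentiable ℂ (fun z : ℂ × ℂ => MvPolynomial.eval ![z.1, z.2] p) := by
          clear hP hp hq
          induction p using MvPolynomial.induction_on with
          | C a => simp
          | add p q hp hq => simp only [map_add]; exact hp.add hq
          | mul_X p i hp =>
            simp only [map_mul, MvPolynomial.eval_X]
            refine hp.mul ?_
            fin_cases i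
            · exact differentiable_fst
            · exact differentiable_snd
        have hq' : Differentiable ℂ (fun z : ℂ × ℂ => MvPolynomial.eval ![z.1, z.2] q) := by
          clear hP hp hq hp'
          induction q using MvPolynomial.induction_on with
          | C a => simp
          | add p q hp hq => simp only [map_add]; exact hp.add hq
          | mul_X p i hp =>
            simp only [map_mul, MvPolynomial.eval_X]
            refine hp.mul ?_
            fin_cases i
            · exact differentiable_fst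
            · exact differentiable_snd
        exact hp'.add hq'
      | mul_X p i hp =>
        have hp' : Differentiable ℂ (fun z : ℂ × ℂ => MvPolynomial.eval ![z.1, z.2] p) := by
          clear hP hp
          induction p using MvPolynomial.induction_on with
          | C a => simp
          | add p q hp hq => simp only [map_add]; exact hp.add hq
          | mul_X p i hp =>
            simp only [map_mul, MvPolynomial.eval_X]
            refine hp.mul ?_
            fin_cases i
            · exact differentiable_fst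
            · exact differentiable_snd
        simp only [map_mul, MvPolynomial.eval_X]
        refine hp'.mul ?_
        fin_cases i
        · exact differentiable_fst
        · exact differentiable_snd
    exact this.differentiableOn
  have hGd : DifferentiableOn ℂ (fun z : ℂ × ℂ => MvPolynomial.eval ![z.1, z.2] P * ff A z)
      (ball (0 : ℂ × ℂ) 1) := hPd.mul hff
  have hG1d : DifferentiableOn ℂ (fun z : ℂ × ℂ => MvPolynomial.eval ![z.1, z.2] P * ff A z - 1)
      (ball (0 : ℂ × ℂ) 1) := hGd.sub_const 1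
  -- the bound for P f
  have hGb : ∀ r : ℝ, 0 < r → r < 1 →
      Hr 2 (fun z => MvPolynomial.eval ![z.1, z.2] P * ff A z) r ≤
        ENNReal.ofReal (5 / 2 * (2 * Real.pi) ^ 2) := by
    intro r h0 h1
    have hm1 := measurable_of_continuousOn (F := fun z w =>
      ‖MvPolynomial.eval ![(r : ℂ) * z, r * w] P * ff A (r * z, r * w) - 1‖ₑ ^ (2 : ℝ))
      (continuousOn_enorm_rpow two_pos.le (continuousOn_torus hG1d.continuousOn h0.le h1))
    have step : Hr 2 (fun z => MvPolynomial.eval ![z.1, z.2] P * ff A z) r ≤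
        T2 (fun z w => ENNReal.ofReal 2 *
          (‖MvPolynomial.eval ![(r : ℂ) * z, r * w] P * ff A (r * z, r * w) - 1‖ₑ ^ (2 : ℝ) + 1)) := by
      unfold Hr
      apply T2_mono
      intro z w _ _
      rw [enorm_rpow_ofReal two_pos.le, enorm_rpow_ofReal two_pos.le, ← ENNReal.ofReal_one,
        ← ENNReal.ofReal_add (by positivity) zero_le_one, ← ENNReal.ofReal_mul two_pos.le]
      apply ENNReal.ofReal_le_ofReal
      rw [Real.rpow_two, Real.rpow_two]
      set a := MvPolynomial.eval ![(r : ℂ) * z, r * w] P * ff A (r * z, r * w)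
      have h2 : ‖a‖ ≤ ‖a - 1‖ + 1 := by
        calc ‖a‖ = ‖(a - 1) + 1‖ := by rw [sub_add_cancel]
          _ ≤ ‖a - 1‖ + ‖(1 : ℂ)‖ := norm_add_le _ _
          _ = ‖a - 1‖ + 1 := by rw [norm_one]
      have h3 : 0 ≤ ‖a‖ := norm_nonneg _
      have h4 : 0 ≤ ‖a - 1‖ := norm_nonneg _
      nlinarith [sq_nonneg (‖a - 1‖ - 1)]
    refine step.trans ?_
    rw [T2_const_mul (hm1.add measurable_const), T2_add hm1, T2_const, one_mul]
    have := hP r h0 h1
    unfold Hr at this
    calc _ ≤ ENNReal.ofReal 2 * (ENNReal.ofReal (1 / 4 * (2 * Real.pi) ^ 2) +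
          ENNReal.ofReal ((2 * Real.pi) ^ 2)) := by gcongr
      _ = _ := by
        rw [← ENNReal.ofReal_add (by positivity) (by positivity), ← ENNReal.ofReal_mul two_pos.le]
        congr 1
        ring
  have hKf : ∀ R : ℝ, 0 < R → R < 1 →
      (1 - R) * av (fun z => ‖ff A (R * z, R * z)‖ ^ 2) ≤ 5 * Real.exp 2 := fun R h0 h1 =>
    diag_le hff (by positivity) (fun r a b => growth_f hA a b) h0 h1
  have hKG : ∀ R : ℝ, 0 < R → R < 1 →
      (1 - R) * av (fun z => ‖(dpoly P).eval (R * z)‖ ^ 2 * ‖ff A (R * z, R * z)‖ ^ 2) ≤ 5 / 2 := by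
    intro R h0 h1
    have := diag_le hGd (by norm_num) hGb h0 h1
    simp only [norm_mul, mul_pow] at this
    simpa only [eval_dpoly, norm_mul] using this
  have hkey := key hA (dpoly P) hKf hKG
  -- the value at the origin
  have h1 := diag_le hG1d (K := 1 / 4) (by norm_num) hP (R := 1 / 2) (by norm_num) (by norm_num)
  have hdiag : DifferentiableOn ℂ (fun z : ℂ => MvPolynomial.eval ![z, z] P * ff A (z, z) - 1)
      (ball 0 1) := hG1d.comp (f := fun z : ℂ => ((z, z) : ℂ × ℂ)) (by fun_prop) mapsTo_diag
  have h2 := av_sq_mono hdiag (r := 0) (s := 1 / 2) le_rfl (by norm_num) (by norm_num)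
  have h3 : av (fun z : ℂ => ‖MvPolynomial.eval ![((0 : ℝ) : ℂ) * z, ((0 : ℝ) : ℂ) * z] P *
      ff A (((0 : ℝ) : ℂ) * z, ((0 : ℝ) : ℂ) * z) - 1‖ ^ 2) =
      ‖(dpoly P).eval 0 * ff A (0, 0) - 1‖ ^ 2 := by
    simp only [ofReal_zero, zero_mul, eval_dpoly]
    exact av_const _
  rw [h3] at h2
  have h4 : ‖(dpoly P).eval 0 * ff A (0, 0) - 1‖ ^ 2 ≤ 1 / 2 := by
    have h5 : av (fun z : ℂ => ‖MvPolynomial.eval ![((1 / 2 : ℝ) : ℂ) * z, ((1 / 2 : ℝ) : ℂ) * z] P *
      ff A (((1 / 2 : ℝ) : ℂ) * z, ((1 / 2 : ℝ) : ℂ) * z) - 1‖ ^ 2) ≤ 1 / 2 := by linarith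
    exact h2.trans h5
  have h5 : 1 / 4 ≤ ‖(dpoly P).eval 0‖ * Real.exp (-A) := by
    rw [← norm_ff_zero hA, ← norm_mul]
    set a := (dpoly P).eval 0 * ff A (0, 0)
    have h6 : (1 : ℝ) ≤ ‖a‖ + ‖a - 1‖ := by
      calc (1 : ℝ) = ‖a - (a - 1)‖ := by simp
        _ ≤ ‖a‖ + ‖a - 1‖ := norm_sub_le _ _
    have h7 : ‖a - 1‖ ≤ 3 / 4 := by
      by_contra hcon
      push Not at hcon
      nlinarith
    linarith
  have h6 : A - Real.log 4 ≤ uu (dpoly P) 0 := by
    set b := ‖(dpoly P).eval 0‖ with hb
    have hb2 : Real.exp A / 4 ≤ b := by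
      have h7 : Real.exp (-A) * Real.exp A = 1 := by rw [← Real.exp_add]; simp
      have h8 := mul_le_mul_of_nonneg_right h5 (Real.exp_pos A).le
      rw [mul_assoc, h7, mul_one] at h8
      linarith
    have hb0 : 0 < b := lt_of_lt_of_le (by positivity) hb2
    have h7 : A - Real.log 4 ≤ Real.log b := by
      have : Real.log (Real.exp A / 4) ≤ Real.log b := Real.log_le_log (by positivity) hb2
      rwa [Real.log_div (Real.exp_pos A).ne' (by norm_num), Real.log_exp] at this
    have h8 : Real.log b ≤ uu (dpoly P) 0 := by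
      unfold uu
      rw [← hb]
      have h9 : Real.log (b ^ 2) ≤ Real.log (1 + b ^ 2) := Real.log_le_log (by positivity) (by linarith)
      rw [Real.log_pow] at h9
      push_cast at h9
      linarith
    linarith
  unfold CC at hbig
  linarith

end Pool.Agent.Lib.MP_7d8448_an
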