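import Pool.Agent.Lib.MP_7d8448_anB.Construct
import Pool.Agent.Lib.MP_7d8448_anB.Density
import Pool.Agent.Lib.MP_7d8448_anB.PoissonU

set_option autoImplicit false

namespace Pool.Agent.Lib.MP_7d8448_an

open Complex Metric MeasureTheory Filter Topology
open scoped ComplexConjugate NNReal ENNReal

/-- Mean value over the unit circle for functions holomorphic near the closed disc. -/
lemma av_re_eq {Φ : ℂ → ℂ} (hΦ : DifferentiableOn ℂ Φ (closedBall 0 1)) :
    av (fun z => (Φ z).re) = (Φ 0).re := by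
  have hc : ContinuousOn Φ (sphere 0 1) := hΦ.continuousOn.mono sphere_subset_closedBall
  rw [av_re hc]
  congr 1
  have hd : DiffContOnCl ℂ Φ (ball 0 1) :=
    DifferentiableOn.diffContOnCl (by rw [closure_ball _ one_ne_zero]; exact hΦ)
  have hd' : DiffContOnCl ℂ Φ (ball 0 |(1 : ℝ)|) := by rwa [abs_one]
  exact hd'.circleAverage

variable {A : ℝ}

lemma tail_le (hA : 1 ≤ A) {r : ℝ} (h0 : 0 ≤ r) (h1 : r < 1) {z w : ℂ} (hz : ‖z‖ = 1)
    (hw : ‖w‖ = 1) (K : ℕ) (hK : tp A K ≤ ‖z - w‖) :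
    |∑' i, Lp A (K + i) * (xf A (K + i) (r * z, r * w) - 1 / 4)| ≤ 1 := by
  have hp : ((r : ℂ) * z, (r : ℂ) * w) ∈ ball (0 : ℂ × ℂ) 1 := mem_bd_mul h0 h1 hz.le hw.le
  have hp' : ‖((r : ℂ) * z, (r : ℂ) * w)‖ < 1 := by simpa using hp
  have hterm : ∀ i, ‖Lp A (K + i) * (xf A (K + i) (r * z, r * w) - 1 / 4)‖ ≤ (1 / 2) ^ (i + 1) := by
    intro i
    refine le_trans ?_ (tail_region hA K i)
    have hL := Lp_pos hA (K + i)
    have ht := tp_pos hA K
    have hN : (0 : ℝ) < Np A (K + i) := by exact_mod_cast one_le_Np hA (K + i)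
    have hx := abs_X_sub_le (norm_Wf_lt hA hp' (K + i))
    have hW : ‖Wf A (K + i) (r * z, r * w)‖ ≤ ‖EN (Np A (K + i)) (r * z, r * w)‖ := by
      unfold Wf
      rw [norm_mul]
      exact mul_le_of_le_one_left (norm_nonneg _) (norm_Mf_le_one hA hp' _)
    have hE := EN_off (Np A (K + i)) h0 h1.le hz hw
    have hE2 : ‖EN (Np A (K + i)) (r * z, r * w)‖ * (Np A (K + i) * tp A K) ≤ 2 := by
      refine le_trans ?_ hE
      gcongr
    rw [Real.norm_eq_abs, abs_mul, abs_of_pos hL]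
    rw [le_div_iff₀ (by positivity)]
    calc Lp A (K + i) * |xf A (K + i) (r * z, r * w) - 1 / 4| * (Np A (K + i) * tp A K)
        ≤ Lp A (K + i) * (2 * ‖EN (Np A (K + i)) (r * z, r * w)‖) * (Np A (K + i) * tp A K) := by
          gcongr
          unfold xf
          linarith
      _ = Lp A (K + i) * 2 * (‖EN (Np A (K + i)) (r * z, r * w)‖ * (Np A (K + i) * tp A K)) := by ring
      _ ≤ Lp A (K + i) * 2 * 2 := by gcongr
      _ = 4 * Lp A (K + i) := by ring
  have hs : HasSum (fun i : ℕ => ((1 : ℝ) / 2) ^ (i + 1)) 1 := by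
    have := hasSum_geometric_two.mul_left ((1 : ℝ) / 2)
    simpa [pow_succ', mul_comm] using this
  have := tsum_of_norm_bounded hs hterm
  simpa using this

lemma hf_re_upper (hA : 1 ≤ A) {r : ℝ} (h0 : 0 ≤ r) (h1 : r < 1) {z w : ℂ} (hz : ‖z‖ = 1)
    (hw : ‖w‖ = 1) (k : ℕ) (hk : tp A (k + 1) ≤ ‖z - w‖) :
    (hf A (r * z, r * w)).re ≤ Bp A k + 1 := by
  have hp : ((r : ℂ) * z, (r : ℂ) * w) ∈ ball (0 : ℂ × ℂ) 1 := mem_bd_mul h0 h1 hz.le hw.le
  have hp' : ‖((r : ℂ) * z, (r : ℂ) * w)‖ < 1 := by simpa using hp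
  rw [hf_re_split hA hp' (k + 1)]
  have e1 := partial_upper hA hp' k
  have e2 := (abs_le.1 (tail_le hA h0 h1 hz hw (k + 1) hk)).2
  linarith

lemma hf_re_lower (hA : 1 ≤ A) {r : ℝ} (h0 : 0 ≤ r) (h1 : r < 1) {z w : ℂ} (hz : ‖z‖ = 1)
    (hw : ‖w‖ = 1) (k : ℕ) (hk : tp A (k + 1) ≤ ‖z - w‖) :
    -(hf A (r * z, r * w)).re ≤ Bp A k + 1 := by
  have hp : ((r : ℂ) * z, (r : ℂ) * w) ∈ ball (0 : ℂ × ℂ) 1 := mem_bd_mul h0 h1 hz.le hw.le
  have hp' : ‖((r : ℂ) * z, (r : ℂ) * w)‖ < 1 := by simpa using hp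
  rw [hf_re_split hA hp' (k + 1)]
  have e1 := partial_lower hA hp' k
  have e2 := (abs_le.1 (tail_le hA h0 h1 hz hw (k + 1) hk)).1
  have e3 := ap_le_Bp hA k
  linarith

lemma hf_re_zero (hA : 1 ≤ A) {r : ℝ} (h0 : 0 ≤ r) (h1 : r < 1) {z w : ℂ} (hz : ‖z‖ = 1)
    (hw : ‖w‖ = 1) (hk : tp A 0 ≤ ‖z - w‖) :
    |(hf A (r * z, r * w)).re + A| ≤ 1 := by
  have hp : ((r : ℂ) * z, (r : ℂ) * w) ∈ ball (0 : ℂ × ℂ) 1 := mem_bd_mul h0 h1 hz.le hw.le
  have hp' : ‖((r : ℂ) * z, (r : ℂ) * w)‖ < 1 := by simpa using hp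
  rw [hf_re_split hA hp' 0]
  have e2 := tail_le hA h0 h1 hz hw 0 hk
  simpa using e2

lemma tp_le (hA : 1 ≤ A) (k : ℕ) : tp A k ≤ (1 / 2) ^ k := by
  have h1 := tp_mul_exp_le hA k
  have h2 : 1 ≤ Real.exp (2 * Bp A k) := Real.one_le_exp (by have := Bp_nonneg hA k; linarith)
  have h3 := tp_pos hA k
  calc tp A k = tp A k * 1 := (mul_one _).symm
    _ ≤ tp A k * Real.exp (2 * Bp A k) := by gcongr
    _ ≤ 1 / 2 ^ k := h1
    _ = (1 / 2) ^ k := by rw [one_div_pow]

lemma exists_tp_le (hA : 1 ≤ A) {α : ℝ} (hα : 0 < α) : ∃ k, tp A k ≤ α := by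
  obtain ⟨k, hk⟩ := exists_pow_lt_of_lt_one hα (by norm_num : (1 / 2 : ℝ) < 1)
  exact ⟨k, (tp_le hA k).trans hk.le⟩

/-- The majorant. -/
noncomputable def Maj (A : ℝ) (z w : ℂ) : ℝ≥0∞ :=
  1 + ∑' k, ENNReal.ofReal (Real.exp (2 * Bp A k)) * (if ‖z - w‖ < tp A k then 1 else 0)

lemma le_Maj (hA : 1 ≤ A) {z w : ℂ} {c v : ℝ}
    (h0 : tp A 0 ≤ ‖z - w‖ → v ≤ Real.exp (2 * c))
    (h1 : ∀ k, tp A (k + 1) ≤ ‖z - w‖ → v ≤ Real.exp (2 * c) * Real.exp (2 * Bp A k)) :
    ENNReal.ofReal v ≤ ENNReal.ofReal (Real.exp (2 * c)) * Maj A z w := by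
  rcases (norm_nonneg (z - w)).eq_or_lt with hα | hα
  · -- the majorant is infinite
    have : Maj A z w = ⊤ := by
      unfold Maj
      rw [ENNReal.add_eq_top]
      right
      rw [eq_top_iff]
      calc (⊤ : ℝ≥0∞) = ∑' _ : ℕ, (1 : ℝ≥0∞) :=
            (ENNReal.tsum_const_eq_top_of_ne_zero one_ne_zero).symm
        _ ≤ _ := by
          apply ENNReal.tsum_le_tsum
          intro k
          rw [← hα, if_pos (tp_pos hA k), mul_one, ← ENNReal.ofReal_one]
          apply ENNReal.ofReal_le_ofReal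
          exact Real.one_le_exp (by have := Bp_nonneg hA k; linarith)
    rw [this, ENNReal.mul_top]
    · exact le_top
    · exact (ENNReal.ofReal_pos.2 (Real.exp_pos _)).ne'
  · classical
    have hex := exists_tp_le hA hα
    set k₀ := Nat.find hex with hk₀
    have hk₀le : tp A k₀ ≤ ‖z - w‖ := Nat.find_spec hex
    rcases Nat.eq_zero_or_pos k₀ with h | h
    · rw [h] at hk₀le
      calc ENNReal.ofReal v ≤ ENNReal.ofReal (Real.exp (2 * c)) * 1 := by
            rw [mul_one]; exact ENNReal.ofReal_le_ofReal (h0 hk₀le)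
        _ ≤ _ := by
          gcongr
          unfold Maj
          exact le_self_add
    · obtain ⟨m, hm⟩ : ∃ m, k₀ = m + 1 := ⟨k₀ - 1, by omega⟩
      rw [hm] at hk₀le
      have hlt : ‖z - w‖ < tp A m := by
        have := Nat.find_min hex (m := m) (by omega)
        exact not_le.1 this
      calc ENNReal.ofReal v ≤ ENNReal.ofReal (Real.exp (2 * c)) *
            (ENNReal.ofReal (Real.exp (2 * Bp A m)) * (if ‖z - w‖ < tp A m then 1 else 0)) := by
            rw [if_pos hlt, mul_one, ← ENNReal.ofReal_mul (Real.exp_pos _).le]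
            exact ENNReal.ofReal_le_ofReal (h1 m hk₀le)
        _ ≤ _ := by
          gcongr
          unfold Maj
          exact (ENNReal.le_tsum (f := fun k => ENNReal.ofReal (Real.exp (2 * Bp A k)) *
            (if ‖z - w‖ < tp A k then 1 else 0)) m).trans le_add_self

lemma measurable_ind (t : ℝ) :
    Measurable fun x : ℝ × ℝ => (if ‖ei x.1 - ei x.2‖ < t then (1 : ℝ≥0∞) else 0) := by
  apply Measurable.ite _ measurable_const measurable_const
  apply IsOpen.measurableSet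
  exact isOpen_lt (by fun_prop) continuous_const

lemma T2_ind {t : ℝ} (ht : 0 < t) :
    T2 (fun z w => if ‖z - w‖ < t then 1 else 0) ≤ ENNReal.ofReal (2 * t * (2 * Real.pi) ^ 2) := by
  rw [T2_eq' (F := fun z w => if ‖z - w‖ < t then 1 else 0) (measurable_ind t)]
  have h1 : ∀ y : ℝ, T1 (fun z => if ‖z - ei y‖ < t then 1 else 0) ≤
      ENNReal.ofReal (2 * Real.pi * (2 * t)) := by
    intro y
    have hcont : ContinuousOn (fun z => 2 * t * (U (ei y) t z).re) (sphere (0 : ℂ) 1) := by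
      refine continuousOn_const.mul (continuous_re.comp_continuousOn ?_)
      exact (differentiableOn_U (norm_ei y) ht).continuousOn.mono sphere_subset_closedBall
    have hle : T1 (fun z => if ‖z - ei y‖ < t then 1 else 0) ≤
        T1 (fun z => ENNReal.ofReal (2 * t * (U (ei y) t z).re)) := by
      unfold T1
      apply lintegral_mono
      intro x
      beta_reduce
      split_ifs with h
      · rw [← ENNReal.ofReal_one]
        apply ENNReal.ofReal_le_ofReal
        have := U_re_ge (norm_ei y) ht (norm_ei x).le h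
        calc (1 : ℝ) = 2 * t * (1 / (2 * t)) := by field_simp
          _ ≤ _ := by gcongr
      · exact zero_le
    refine hle.trans ?_
    rw [T1_ofReal hcont (fun z hz => mul_nonneg (by positivity) (U_re_nonneg (norm_ei y) ht hz.le)),
      av_real_const_mul, av_re_eq (differentiableOn_U (norm_ei y) ht), U_zero ht, one_re, mul_one]
  calc ∫⁻ y in Ang, T1 (fun z => if ‖z - ei y‖ < t then 1 else 0)
      ≤ ∫⁻ _ in Ang, ENNReal.ofReal (2 * Real.pi * (2 * t)) := lintegral_mono h1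
    _ = ENNReal.ofReal (2 * t * (2 * Real.pi) ^ 2) := by
      rw [setLIntegral_const]
      unfold Ang
      rw [Real.volume_Icc, sub_zero, ← ENNReal.ofReal_mul (by positivity)]
      congr 1
      ring

lemma T2_Maj (hA : 1 ≤ A) : T2 (Maj A) ≤ ENNReal.ofReal (5 * (2 * Real.pi) ^ 2) := by
  have h1 : T2 (Maj A) = T2 (fun _ _ => 1) + T2 (fun z w =>
      ∑' k, ENNReal.ofReal (Real.exp (2 * Bp A k)) * (if ‖z - w‖ < tp A k then 1 else 0)) := by
    unfold Maj
    exact T2_add measurable_const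
  rw [h1, T2_const, one_mul]
  have h2 : T2 (fun z w =>
      ∑' k, ENNReal.ofReal (Real.exp (2 * Bp A k)) * (if ‖z - w‖ < tp A k then 1 else 0)) =
      ∑' k, T2 (fun z w => ENNReal.ofReal (Real.exp (2 * Bp A k)) *
        (if ‖z - w‖ < tp A k then 1 else 0)) := by
    unfold T2
    rw [lintegral_tsum]
    intro k
    exact ((measurable_ind (tp A k)).const_mul _).aemeasurable
  have h3 : ∀ k, T2 (fun z w => ENNReal.ofReal (Real.exp (2 * Bp A k)) *
        (if ‖z - w‖ < tp A k then 1 else 0)) ≤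
        ENNReal.ofReal (2 * (2 * Real.pi) ^ 2 * (1 / 2) ^ k) := by
    intro k
    rw [T2_const_mul (F := fun z w => if ‖z - w‖ < tp A k then 1 else 0) (measurable_ind _)]
    calc _ ≤ ENNReal.ofReal (Real.exp (2 * Bp A k)) *
          ENNReal.ofReal (2 * tp A k * (2 * Real.pi) ^ 2) := by
          gcongr; exact T2_ind (tp_pos hA k)
      _ = ENNReal.ofReal (2 * (2 * Real.pi) ^ 2 * (tp A k * Real.exp (2 * Bp A k))) := by
          rw [← ENNReal.ofReal_mul (Real.exp_pos _).le]; congr 1; ring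
      _ ≤ _ := by
          apply ENNReal.ofReal_le_ofReal
          have := tp_mul_exp_le hA k
          rw [one_div_pow]
          gcongr
  rw [h2]
  have hs : HasSum (fun k : ℕ => 2 * (2 * Real.pi) ^ 2 * ((1 : ℝ) / 2) ^ k)
      (2 * (2 * Real.pi) ^ 2 * 2) := hasSum_geometric_two.mul_left _
  calc _ ≤ ENNReal.ofReal ((2 * Real.pi) ^ 2) +
        ∑' k : ℕ, ENNReal.ofReal (2 * (2 * Real.pi) ^ 2 * (1 / 2) ^ k) := by
        gcongr with k
        exact h3 k
    _ = ENNReal.ofReal ((2 * Real.pi) ^ 2) + ENNReal.ofReal (2 * (2 * Real.pi) ^ 2 * 2) := by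
        rw [← ENNReal.ofReal_tsum_of_nonneg (fun k => by positivity) hs.summable, hs.tsum_eq]
    _ = ENNReal.ofReal (5 * (2 * Real.pi) ^ 2) := by
        rw [← ENNReal.ofReal_add (by positivity) (by positivity)]; congr 1; ring

lemma measurable_Maj : Measurable fun x : ℝ × ℝ => Maj A (ei x.1) (ei x.2) := by
  unfold Maj
  exact measurable_const.add (Measurable.tsum fun k => (measurable_ind _).const_mul _)

theorem growth_f (hA : 1 ≤ A) {r : ℝ} (h0 : 0 < r) (h1 : r < 1) :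
    Hr 2 (ff A) r ≤ ENNReal.ofReal (5 * Real.exp 2 * (2 * Real.pi) ^ 2) := by
  have hle : Hr 2 (ff A) r ≤ T2 (fun z w => ENNReal.ofReal (Real.exp (2 * 1)) * Maj A z w) := by
    unfold Hr
    apply T2_mono
    intro z w hz hw
    rw [enorm_rpow_ofReal two_pos.le]
    apply le_Maj hA (c := 1)
    · intro h
      have := (abs_le.1 (hf_re_zero hA h0.le h1 hz hw h)).2
      rw [norm_ff, Real.rpow_two, ← Real.exp_nat_mul]
      apply Real.exp_le_exp.2
      push_cast; linarith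
    · intro k h
      have := hf_re_upper hA h0.le h1 hz hw k h
      rw [norm_ff, Real.rpow_two, ← Real.exp_nat_mul, ← Real.exp_add]
      apply Real.exp_le_exp.2
      push_cast; linarith
  refine hle.trans ?_
  rw [T2_const_mul measurable_Maj]
  calc _ ≤ ENNReal.ofReal (Real.exp (2 * 1)) * ENNReal.ofReal (5 * (2 * Real.pi) ^ 2) := by
        gcongr; exact T2_Maj hA
    _ = _ := by
        rw [← ENNReal.ofReal_mul (Real.exp_pos _).le]; congr 1; ring_nf

theorem growth_inv (hA : 1 ≤ A) {r : ℝ} (h0 : 0 < r) (h1 : r < 1) :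
    Hr 2 (fun z => (ff A z)⁻¹) r ≤ ENNReal.ofReal (5 * Real.exp (2 * (A + 1)) * (2 * Real.pi) ^ 2) := by
  have hle : Hr 2 (fun z => (ff A z)⁻¹) r ≤
      T2 (fun z w => ENNReal.ofReal (Real.exp (2 * (A + 1))) * Maj A z w) := by
    unfold Hr
    apply T2_mono
    intro z w hz hw
    rw [enorm_rpow_ofReal two_pos.le]
    apply le_Maj hA (c := A + 1)
    · intro h
      have := (abs_le.1 (hf_re_zero hA h0.le h1 hz hw h)).1
      rw [norm_inv, norm_ff, ← Real.exp_neg, Real.rpow_two, ← Real.exp_nat_mul]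
      apply Real.exp_le_exp.2
      push_cast; linarith
    · intro k h
      have := hf_re_lower hA h0.le h1 hz hw k h
      rw [norm_inv, norm_ff, ← Real.exp_neg, Real.rpow_two, ← Real.exp_nat_mul, ← Real.exp_add]
      apply Real.exp_le_exp.2
      push_cast; linarith
  refine hle.trans ?_
  rw [T2_const_mul measurable_Maj]
  calc _ ≤ ENNReal.ofReal (Real.exp (2 * (A + 1))) * ENNReal.ofReal (5 * (2 * Real.pi) ^ 2) := by
        gcongr; exact T2_Maj hA
    _ = _ := by
        rw [← ENNReal.ofReal_mul (Real.exp_pos _).le]; congr 1; ring_nf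

end Pool.Agent.Lib.MP_7d8448_an
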