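import Pool.Agent.Lib.MP_7d8448_anB.Dens

set_option autoImplicit false

namespace Pool.Agent.Lib.MP_7d8448_an

open Complex Metric MeasureTheory Filter Topology
open scoped ComplexConjugate NNReal ENNReal

variable {A : ℝ}

lemma norm_pair (hA : 1 ≤ A) (k : ℕ) {z : ℂ} (hz : ‖z‖ = 1) :
    ‖(((rr A k : ℂ) * z, (rr A k : ℂ) * z) : ℂ × ℂ)‖ = 1 - dp A k := by
  rw [Prod.norm_mk, max_self, norm_mul, hz, norm_real, Real.norm_of_nonneg (rr_pos hA k).le,
    mul_one]
  rfl

lemma hf_re_diag_ge (hA : 1 ≤ A) (k : ℕ) {z : ℂ} (hz : ‖z‖ = 1) :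
    Bp A k - Lp A k * (1 - xd A k (rr A k * z)) - 1 ≤ (hf A (rr A k * z, rr A k * z)).re := by
  have h1 := norm_diag (rr_mul hA k hz)
  rw [hf_re_split hA h1 (k + 1), partial_eq]
  have h2 : 0 ≤ ∑ j ∈ Finset.range k, Lp A j * xf A j (rr A k * z, rr A k * z) :=
    Finset.sum_nonneg fun j _ => mul_nonneg (Lp_pos hA j).le (xf_pos hA h1 j).le
  have hterm : ∀ i, ‖Lp A (k + 1 + i) * (xf A (k + 1 + i) (rr A k * z, rr A k * z) - 1 / 4)‖ ≤
      (1 / 2) ^ (i + 1) := by
    intro i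
    have hL := Lp_pos hA (k + 1 + i)
    have hx := abs_X_sub_le (norm_Wf_lt hA h1 (k + 1 + i))
    have hW : ‖Wf A (k + 1 + i) (rr A k * z, rr A k * z)‖ ≤ Real.exp (-(Lp A (k + 1 + i))) := by
      refine (norm_Wf_le hA h1 _).trans ?_
      rw [norm_pair hA k hz]
      exact pow_le_exp hA (by omega)
    have hE := Lp_exp_le hA (k + 1 + i)
    rw [Real.norm_eq_abs, abs_mul, abs_of_pos hL]
    calc Lp A (k + 1 + i) * |xf A (k + 1 + i) (rr A k * z, rr A k * z) - 1 / 4|
        ≤ Lp A (k + 1 + i) * (2 * Real.exp (-(Lp A (k + 1 + i)))) := by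
          gcongr
          unfold xf
          linarith
      _ = 2 * Lp A (k + 1 + i) * Real.exp (-(Lp A (k + 1 + i))) := by ring
      _ ≤ (1 / 2) ^ (k + 1 + i + 1) := hE
      _ ≤ (1 / 2) ^ (i + 1) := pow_le_pow_of_le_one (by norm_num) (by norm_num) (by omega)
  have hs : HasSum (fun i : ℕ => ((1 : ℝ) / 2) ^ (i + 1)) 1 := by
    have := hasSum_geometric_two.mul_left ((1 : ℝ) / 2)
    simpa [pow_succ', mul_comm] using this
  have h3 := tsum_of_norm_bounded hs hterm
  rw [Real.norm_eq_abs] at h3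
  have h4 := (abs_le.1 h3).1
  have h5 : xf A k (rr A k * z, rr A k * z) = xd A k (rr A k * z) := rfl
  rw [h5]
  linarith

/-- `½ log (1 + |p|²)` -/
noncomputable def uu (p : Polynomial ℂ) (z : ℂ) : ℝ := (1 / 2) * Real.log (1 + ‖p.eval z‖ ^ 2)

lemma continuous_uu (p : Polynomial ℂ) : Continuous (uu p) := by
  unfold uu
  apply Continuous.mul continuous_const
  apply Continuous.log
  · have := p.continuous
    fun_prop
  · intro z; positivity

lemma uu_nonneg (p : Polynomial ℂ) (z : ℂ) : 0 ≤ uu p z := by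
  unfold uu
  have : 0 ≤ Real.log (1 + ‖p.eval z‖ ^ 2) := Real.log_nonneg (by nlinarith [sq_nonneg ‖p.eval z‖])
  positivity

noncomputable def lk (A : ℝ) (k : ℕ) : ℝ := 4 * Real.log A + 100 * (k + 1) ^ 2

lemma lk_nonneg (hA : 1 ≤ A) (k : ℕ) : 0 ≤ lk A k := by
  unfold lk
  have := Real.log_nonneg hA
  positivity

/-- Pointwise bound for `u` at radius `r_k`. -/
lemma uu_le (hA : 1 ≤ A) (p : Polynomial ℂ) (k : ℕ) {z : ℂ} (hz : ‖z‖ = 1) :
    uu p (rr A k * z) ≤ (1 / 2) * ((dp A k / 2 ^ k) * (‖ff A (rr A k * z, rr A k * z)‖ ^ 2 +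
      ‖p.eval (rr A k * z)‖ ^ 2 * ‖ff A (rr A k * z, rr A k * z)‖ ^ 2) + lk A k +
      2 * Lp A k * (1 - xd A k (rr A k * z))) := by
  unfold uu
  set P := ‖p.eval ((rr A k : ℂ) * z)‖ with hP
  set H := (hf A (rr A k * z, rr A k * z)).re with hH
  have hF : ‖ff A (rr A k * z, rr A k * z)‖ ^ 2 = Real.exp (2 * H) := by
    rw [norm_ff, ← Real.exp_nat_mul]; push_cast; rfl
  rw [hF]
  have hd := dp_pos hA k
  have h1 := hf_re_diag_ge hA k hz
  have h2 := log_bound hA k
  have hρ : 0 < dp A k / 2 ^ k := by positivity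
  have h3 : Real.log ((1 + P ^ 2) * (Real.exp (2 * H) * (dp A k / 2 ^ k))) =
      Real.log (1 + P ^ 2) + (2 * H + Real.log (dp A k / 2 ^ k)) := by
    rw [Real.log_mul (by positivity) (by positivity), Real.log_mul (by positivity) (by positivity),
      Real.log_exp]
  have h4 : Real.log ((1 + P ^ 2) * (Real.exp (2 * H) * (dp A k / 2 ^ k))) ≤
      (1 + P ^ 2) * (Real.exp (2 * H) * (dp A k / 2 ^ k)) := by
    have := Real.log_le_sub_one_of_pos
      (show 0 < (1 + P ^ 2) * (Real.exp (2 * H) * (dp A k / 2 ^ k)) by positivity)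
    linarith
  have h5 : Real.log (2 ^ k / dp A k) = -Real.log (dp A k / 2 ^ k) := by
    rw [← Real.log_inv, inv_div]
  unfold lk
  have h6 : Real.log (1 + P ^ 2) ≤ (dp A k / 2 ^ k) * (Real.exp (2 * H) + P ^ 2 * Real.exp (2 * H)) +
      (4 * Real.log A + 100 * (k + 1) ^ 2) + 2 * Lp A k * (1 - xd A k (rr A k * z)) := by
    have e : (1 + P ^ 2) * (Real.exp (2 * H) * (dp A k / 2 ^ k)) =
        (dp A k / 2 ^ k) * (Real.exp (2 * H) + P ^ 2 * Real.exp (2 * H)) := by ring
    rw [e] at h3 h4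
    linarith
  linarith

/-- `v_k (1 - s_k) ≤ ∑_{j<k} x_j + x_k P_{k+1}`. -/
lemma v_mul_le (hA : 1 ≤ A) (k : ℕ) {z : ℂ} (hz : ‖z‖ < 1) :
    (1 - xd A k z) * (1 - Pd A (k + 1) z) ≤
      ∑ j ∈ Finset.range k, xd A j z + xd A k z * Pd A (k + 1) z := by
  have h1 := one_sub_Pd_le hA hz k
  have h2 := xd_pos hA hz k
  have h3 := xd_lt_one hA hz k
  have h4 := Pd_le_one hA hz k
  have h5 := Pd_nonneg hA hz k
  have e : (1 - xd A k z) * (1 - Pd A (k + 1) z) =
      (1 - xd A k z) * (1 - Pd A k z) + xd A k z * Pd A (k + 1) z := by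
    rw [Pd_succ]; ring
  rw [e]
  have h6 : (1 - xd A k z) * (1 - Pd A k z) ≤ 1 * (1 - Pd A k z) := by
    apply mul_le_mul_of_nonneg_right <;> linarith
  linarith

lemma sum_small (hA : 1 ≤ A) (k : ℕ) :
    2 * Lp A k * (∑ j ∈ Finset.range k, av (fun z => xd A j (rr A k * z) * mu A k z) +
      TT A k (rr A k)) ≤ (1 / 2) ^ k := by
  have hL := Lp_pos hA k
  have h1 : Lp A k * TT A k (rr A k) ≤ 3 / 40 * (1 / 2) ^ k := by
    have h2 := TT_self_le hA k
    rw [sqrt_kp hA k] at h2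
    have hL' := Lp_pos hA (k + 1)
    have h3 := Lp_mono hA (Nat.le_succ k)
    calc Lp A k * TT A k (rr A k) ≤ Lp A (k + 1) * (3 * (1 / (2 ^ (k + 1) * 20 * Lp A (k + 1)))) :=
          mul_le_mul h3 h2 (TT_nonneg hA (rr_pos hA k).le (rr_lt_one hA k) k) hL'.le
      _ = 3 / 40 * (1 / 2) ^ k := by
        rw [one_div_pow, pow_succ]
        field_simp
        norm_num
  have h2 : Lp A k * ∑ j ∈ Finset.range k, av (fun z => xd A j (rr A k * z) * mu A k z) ≤
      1 / 5 * (1 / 2) ^ k := by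
    cases k with
    | zero => simp
    | succ m =>
      have h3 : ∑ j ∈ Finset.range (m + 1), av (fun z => xd A j (rr A (m + 1) * z) *
          mu A (m + 1) z) ≤ 4 * Real.sqrt (kp A m) := by
        calc _ ≤ ∑ j ∈ Finset.range (m + 1), TT A j (rr A m) :=
              Finset.sum_le_sum fun j hj => xmu_le hA (Nat.lt_succ_iff.1 (Finset.mem_range.1 hj))
          _ = ∑ j ∈ Finset.range m, TT A j (rr A m) + TT A m (rr A m) := Finset.sum_range_succ _ _
          _ ≤ kp A m + 3 * Real.sqrt (kp A m) := add_le_add (sum_TT_le hA m) (TT_self_le hA m)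
          _ ≤ 4 * Real.sqrt (kp A m) := by
            have hk0 := kp_pos hA m
            have hk1 := kp_lt_one hA m
            have : kp A m ≤ Real.sqrt (kp A m) := by
              apply Real.le_sqrt_of_sq_le
              nlinarith
            linarith
      rw [sqrt_kp hA m] at h3
      calc _ ≤ Lp A (m + 1) * (4 * (1 / (2 ^ (m + 1) * 20 * Lp A (m + 1)))) := by gcongr
        _ = 1 / 5 * (1 / 2) ^ (m + 1) := by
          rw [one_div_pow]
          field_simp
          norm_num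
  have h3 : (0 : ℝ) < (1 / 2) ^ k := by positivity
  nlinarith

/-- One step. -/
lemma D_le (hA : 1 ≤ A) (p : Polynomial ℂ) {Kf KG : ℝ}
    (hKf : ∀ R : ℝ, 0 < R → R < 1 → (1 - R) * av (fun z => ‖ff A (R * z, R * z)‖ ^ 2) ≤ Kf)
    (hKG : ∀ R : ℝ, 0 < R → R < 1 →
      (1 - R) * av (fun z => ‖p.eval (R * z)‖ ^ 2 * ‖ff A (R * z, R * z)‖ ^ 2) ≤ KG) (k : ℕ) :
    av (fun z => uu p (rr A k * z) * ((1 - ss A k z) * mu A k z)) ≤
      (1 / 2) * ((1 / 2) ^ k * (Kf + KG + 1) + lk A k * (7 / 8) ^ k) := by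
  have r0 := rr_pos hA k
  have r1 := rr_lt_one hA k
  have hd := dp_pos hA k
  have hL := Lp_pos hA k
  have cu : ContinuousOn (fun z => uu p (rr A k * z)) (sphere (0 : ℂ) 1) := by
    have := continuous_uu p
    fun_prop
  have cs := continuousOn_ss hA k
  have cm := continuousOn_mu hA k
  have cf : ContinuousOn (fun z => ‖ff A (rr A k * z, rr A k * z)‖ ^ 2) (sphere (0 : ℂ) 1) := by
    have h1 : ContinuousOn (fun z : ℂ => ‖ff A (z, z)‖ ^ 2) (ball 0 1) := by
      refine ContinuousOn.pow (ContinuousOn.norm ?_) 2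
      exact (differentiableOn_ff hA).continuousOn.comp (f := fun z : ℂ => ((z, z) : ℂ × ℂ))
        (by fun_prop) mapsTo_diag
    exact cont_R h1 r0.le r1
  have cp : ContinuousOn (fun z : ℂ => ‖p.eval ((rr A k : ℂ) * z)‖ ^ 2) (sphere (0 : ℂ) 1) := by
    have := p.continuous
    fun_prop
  have cx : ∀ i, ContinuousOn (fun z => xd A i (rr A k * z)) (sphere (0 : ℂ) 1) := fun i =>
    cont_R (continuousOn_xd hA i) r0.le r1
  have cP : ∀ i, ContinuousOn (fun z => Pd A i (rr A k * z)) (sphere (0 : ℂ) 1) := fun i =>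
    cont_R (continuousOn_Pd hA i) r0.le r1
  have hpt : ∀ z : ℂ, ‖z‖ = 1 → uu p (rr A k * z) * ((1 - ss A k z) * mu A k z) ≤
      (1 / 2) * (((dp A k / 2 ^ k) * (‖ff A (rr A k * z, rr A k * z)‖ ^ 2 +
      ‖p.eval (rr A k * z)‖ ^ 2 * ‖ff A (rr A k * z, rr A k * z)‖ ^ 2) + lk A k * mu A k z) +
      2 * Lp A k * (∑ j ∈ Finset.range k, xd A j (rr A k * z) * mu A k z +
        xd A k (rr A k * z) * Pd A (k + 1) (rr A k * z))) := by
    intro z hz
    have h1 := rr_mul hA k hz
    have hs0 := ss_nonneg hA k hz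
    have hs1 := ss_le_one hA k hz
    have hm0 := mu_nonneg hA k hz
    have hm1 := mu_le_one hA k hz
    have hw0 : 0 ≤ (1 - ss A k z) * mu A k z := mul_nonneg (by linarith) hm0
    have hw1 : (1 - ss A k z) * mu A k z ≤ 1 := by nlinarith
    have hwm : (1 - ss A k z) * mu A k z ≤ mu A k z := by nlinarith
    have hu := uu_le hA p k hz
    have hv := v_mul_le hA k h1
    set F := (dp A k / 2 ^ k) * (‖ff A (rr A k * z, rr A k * z)‖ ^ 2 +
      ‖p.eval (rr A k * z)‖ ^ 2 * ‖ff A (rr A k * z, rr A k * z)‖ ^ 2) with hF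
    have hF0 : 0 ≤ F := by positivity
    have hl := lk_nonneg hA k
    have hx0 := xd_pos hA h1 k
    have hP0 := Pd_nonneg hA h1 (k + 1)
    have hss : ss A k z = Pd A (k + 1) (rr A k * z) := rfl
    have e1 : F * ((1 - ss A k z) * mu A k z) ≤ F := mul_le_of_le_one_right hF0 hw1
    have e2 : lk A k * ((1 - ss A k z) * mu A k z) ≤ lk A k * mu A k z :=
      mul_le_mul_of_nonneg_left hwm hl
    have e3 : (1 - xd A k (rr A k * z)) * ((1 - ss A k z) * mu A k z) ≤
        ∑ j ∈ Finset.range k, xd A j (rr A k * z) * mu A k z +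
          xd A k (rr A k * z) * Pd A (k + 1) (rr A k * z) := by
      rw [← mul_assoc, hss, ← Finset.sum_mul]
      calc (1 - xd A k (rr A k * z)) * (1 - Pd A (k + 1) (rr A k * z)) * mu A k z
          ≤ (∑ j ∈ Finset.range k, xd A j (rr A k * z) +
            xd A k (rr A k * z) * Pd A (k + 1) (rr A k * z)) * mu A k z := by gcongr
        _ = (∑ j ∈ Finset.range k, xd A j (rr A k * z)) * mu A k z +
            xd A k (rr A k * z) * Pd A (k + 1) (rr A k * z) * mu A k z := by ring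
        _ ≤ _ := add_le_add le_rfl (mul_le_of_le_one_right (mul_nonneg hx0.le hP0) hm1)
    have e4 : 2 * Lp A k * ((1 - xd A k (rr A k * z)) * ((1 - ss A k z) * mu A k z)) ≤
        2 * Lp A k * (∑ j ∈ Finset.range k, xd A j (rr A k * z) * mu A k z +
          xd A k (rr A k * z) * Pd A (k + 1) (rr A k * z)) :=
      mul_le_mul_of_nonneg_left e3 (by positivity)
    calc uu p (rr A k * z) * ((1 - ss A k z) * mu A k z)
        ≤ (1 / 2) * (F + lk A k + 2 * Lp A k * (1 - xd A k (rr A k * z))) *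
          ((1 - ss A k z) * mu A k z) := by gcongr
      _ = (1 / 2) * (F * ((1 - ss A k z) * mu A k z) + lk A k * ((1 - ss A k z) * mu A k z) +
          2 * Lp A k * ((1 - xd A k (rr A k * z)) * ((1 - ss A k z) * mu A k z))) := by ring
      _ ≤ _ := by linarith
  have c1 := cf.add (cp.mul cf)
  have c2 := (continuousOn_const (c := dp A k / 2 ^ k)).mul c1
  have c3 := (continuousOn_const (c := lk A k)).mul cm
  have c4 : ContinuousOn (fun z => ∑ j ∈ Finset.range k, xd A j (rr A k * z) * mu A k z)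
      (sphere (0 : ℂ) 1) := continuousOn_finsetSum _ fun j _ => (cx j).mul cm
  have c5 := (cx k).mul (cP (k + 1))
  have c6 := (continuousOn_const (c := 2 * Lp A k)).mul (c4.add c5)
  have c7 := (continuousOn_const (c := (1 / 2 : ℝ))).mul ((c2.add c3).add c6)
  have hav := av_mono (cu.mul ((continuousOn_const.sub cs).mul cm)) c7 hpt
  have t1 := av_real_const_mul (1 / 2 : ℝ) (fun z : ℂ => (((dp A k / 2 ^ k) *
      (‖ff A (rr A k * z, rr A k * z)‖ ^ 2 +
      ‖p.eval (rr A k * z)‖ ^ 2 * ‖ff A (rr A k * z, rr A k * z)‖ ^ 2) + lk A k * mu A k z) +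
      2 * Lp A k * (∑ j ∈ Finset.range k, xd A j (rr A k * z) * mu A k z +
        xd A k (rr A k * z) * Pd A (k + 1) (rr A k * z))))
  have t2 := av_add (c2.add c3) c6
  have t3 := av_add c2 c3
  have t4 := av_real_const_mul (dp A k / 2 ^ k) (fun z : ℂ =>
      (‖ff A (rr A k * z, rr A k * z)‖ ^ 2 +
      ‖p.eval (rr A k * z)‖ ^ 2 * ‖ff A (rr A k * z, rr A k * z)‖ ^ 2))
  have t5 := av_add cf (cp.mul cf)
  have t6 := av_real_const_mul (lk A k) (mu A k)
  have t7 := av_real_const_mul (2 * Lp A k) (fun z : ℂ =>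
      (∑ j ∈ Finset.range k, xd A j (rr A k * z) * mu A k z +
        xd A k (rr A k * z) * Pd A (k + 1) (rr A k * z)))
  have t8 := av_add c4 c5
  have t9 := av_sum (t := Finset.range k) (F := fun j z => xd A j (rr A k * z) * mu A k z)
    fun j _ => (cx j).mul cm
  have total : av (fun z : ℂ => (1 / 2) * (((dp A k / 2 ^ k) *
      (‖ff A (rr A k * z, rr A k * z)‖ ^ 2 +
      ‖p.eval (rr A k * z)‖ ^ 2 * ‖ff A (rr A k * z, rr A k * z)‖ ^ 2) + lk A k * mu A k z) +
      2 * Lp A k * (∑ j ∈ Finset.range k, xd A j (rr A k * z) * mu A k z +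
        xd A k (rr A k * z) * Pd A (k + 1) (rr A k * z)))) =
      (1 / 2) * (((dp A k / 2 ^ k) * (av (fun z => ‖ff A (rr A k * z, rr A k * z)‖ ^ 2) +
        av (fun z => ‖p.eval (rr A k * z)‖ ^ 2 * ‖ff A (rr A k * z, rr A k * z)‖ ^ 2)) +
        lk A k * qm A k) + 2 * Lp A k * (∑ j ∈ Finset.range k,
          av (fun z => xd A j (rr A k * z) * mu A k z) + TT A k (rr A k))) := by
    refine t1.trans ?_
    congr 1
    refine t2.trans ?_
    congr 1
    · refine t3.trans ?_
      congr 1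
      refine t4.trans ?_
      congr 1
    · refine t7.trans ?_
      congr 1
      refine t8.trans ?_
      congr 1
  refine hav.trans ((le_of_eq total).trans ?_)
  have a1 := hKf _ r0 r1
  have a2 := hKG _ r0 r1
  have a3 : 1 - rr A k = dp A k := by unfold rr; ring
  rw [a3] at a1 a2
  have a4 := sum_small hA k
  have a5 : lk A k * qm A k ≤ lk A k * (7 / 8) ^ k :=
    mul_le_mul_of_nonneg_left (qm_le hA k) (lk_nonneg hA k)
  have a6 : (dp A k / 2 ^ k) * (av (fun z => ‖ff A (rr A k * z, rr A k * z)‖ ^ 2) +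
        av (fun z => ‖p.eval (rr A k * z)‖ ^ 2 * ‖ff A (rr A k * z, rr A k * z)‖ ^ 2)) ≤
        (1 / 2) ^ k * (Kf + KG) := by
    have e : (dp A k / 2 ^ k) * (av (fun z => ‖ff A (rr A k * z, rr A k * z)‖ ^ 2) +
        av (fun z => ‖p.eval (rr A k * z)‖ ^ 2 * ‖ff A (rr A k * z, rr A k * z)‖ ^ 2)) =
        (1 / 2) ^ k * (dp A k * av (fun z => ‖ff A (rr A k * z, rr A k * z)‖ ^ 2) +
        dp A k * av (fun z => ‖p.eval (rr A k * z)‖ ^ 2 * ‖ff A (rr A k * z, rr A k * z)‖ ^ 2)) := by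
      rw [one_div_pow]; ring
    rw [e]
    gcongr
  linarith

/-- Telescoping. -/
lemma telescope (hA : 1 ≤ A) (p : Polynomial ℂ) {D : ℕ → ℝ}
    (hD : ∀ k, av (fun z => uu p (rr A k * z) * ((1 - ss A k z) * mu A k z)) ≤ D k) (K : ℕ) :
    uu p 0 ≤ ∑ k ∈ Finset.range K, D k + av (fun z => uu p (rr A K * z) * mu A K z) := by
  induction K with
  | zero =>
    rw [Finset.sum_range_zero, zero_add]
    have h := log_one_add_sub p (r := 0) (r' := rr A 0) le_rfl (rr_pos hA 0) (z := 1) (by simp)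
    have e1 : (1 / 2) * Real.log (1 + ‖p.eval (((0 : ℝ) : ℂ) * 1)‖ ^ 2) = uu p 0 := by
      unfold uu; simp
    rw [e1] at h
    refine h.trans (le_of_eq ?_)
    unfold Po
    apply av_congr
    intro z hz
    simp [pk, hz, mu, uu]
  | succ K ih =>
    rw [Finset.sum_range_succ]
    have cu : ContinuousOn (fun z => uu p (rr A K * z)) (sphere (0 : ℂ) 1) := by
      have := continuous_uu p
      fun_prop
    have cs := continuousOn_ss hA K
    have cm := continuousOn_mu hA K
    have h1 : av (fun z => uu p (rr A K * z) * mu A K z) =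
        av (fun z => uu p (rr A K * z) * ((1 - ss A K z) * mu A K z)) +
        av (fun z => uu p (rr A K * z) * (mu A K z * ss A K z)) := by
      have := av_add (cu.mul (((continuousOn_const (c := (1 : ℝ))).sub cs).mul cm))
        (cu.mul (cm.mul cs))
      refine Eq.trans (av_congr fun z _ => ?_) this
      change uu p (rr A K * z) * mu A K z = uu p (rr A K * z) * ((1 - ss A K z) * mu A K z) +
        uu p (rr A K * z) * (mu A K z * ss A K z)
      ring
    have h2 := transfer_u hA p K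
    have h3 := hD K
    have h4 : av (fun z => uu p (rr A K * z) * (mu A K z * ss A K z)) ≤
        av (fun z => uu p (rr A (K + 1) * z) * mu A (K + 1) z) := h2
    linarith

noncomputable def S2 : ℝ := ∑' k : ℕ, ((k : ℝ) + 1) ^ 2 * (7 / 8) ^ k

lemma summable_S2 : Summable fun k : ℕ => ((k : ℝ) + 1) ^ 2 * ((7 : ℝ) / 8) ^ k := by
  have h1 := summable_pow_mul_geometric_of_norm_lt_one 2 (r := (7 / 8 : ℝ)) (by norm_num)
  have h2 := ((summable_nat_add_iff 1).2 h1).mul_left (8 / 7)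
  refine h2.congr fun k => ?_
  rw [pow_succ (7 / 8 : ℝ) k]
  push_cast
  ring

theorem key (hA : 1 ≤ A) (p : Polynomial ℂ) {Kf KG : ℝ}
    (hKf : ∀ R : ℝ, 0 < R → R < 1 → (1 - R) * av (fun z => ‖ff A (R * z, R * z)‖ ^ 2) ≤ Kf)
    (hKG : ∀ R : ℝ, 0 < R → R < 1 →
      (1 - R) * av (fun z => ‖p.eval (R * z)‖ ^ 2 * ‖ff A (R * z, R * z)‖ ^ 2) ≤ KG) :
    uu p 0 ≤ (Kf + KG + 1) + 16 * Real.log A + 50 * S2 := by
  have htel := telescope hA p (D_le hA p hKf hKG)
  have hg : HasSum (fun k : ℕ => ((1 : ℝ) / 2) ^ k) 2 := hasSum_geometric_two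
  have hg2 : HasSum (fun k : ℕ => ((7 : ℝ) / 8) ^ k) 8 := by
    have := hasSum_geometric_of_lt_one (r := (7 / 8 : ℝ)) (by norm_num) (by norm_num)
    norm_num at this
    exact this
  have hsum : HasSum (fun k : ℕ => (1 / 2) * ((1 / 2 : ℝ) ^ k * (Kf + KG + 1) +
      lk A k * (7 / 8) ^ k)) ((1 / 2) * (2 * (Kf + KG + 1) + (4 * Real.log A * 8 + 100 * S2))) := by
    apply HasSum.mul_left
    apply HasSum.add
    · exact hg.mul_right _
    · have h1 := (hg2.mul_left (4 * Real.log A)).add (summable_S2.hasSum.mul_left 100)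
      refine h1.congr_fun ?_ |> fun h => h
      intro k
      unfold lk
      ring
  have hKf0 : 0 ≤ Kf := by
    have := hKf (1 / 2) (by norm_num) (by norm_num)
    refine le_trans ?_ this
    have : 0 ≤ av (fun z => ‖ff A (((1 / 2 : ℝ) : ℂ) * z, ((1 / 2 : ℝ) : ℂ) * z)‖ ^ 2) :=
      av_nonneg fun z _ => by positivity
    linarith
  have hKG0 : 0 ≤ KG := by
    have := hKG (1 / 2) (by norm_num) (by norm_num)
    refine le_trans ?_ this
    have : 0 ≤ av (fun z => ‖p.eval (((1 / 2 : ℝ) : ℂ) * z)‖ ^ 2 *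
        ‖ff A (((1 / 2 : ℝ) : ℂ) * z, ((1 / 2 : ℝ) : ℂ) * z)‖ ^ 2) :=
      av_nonneg fun z _ => by positivity
    linarith
  -- bound for the remainder
  obtain ⟨M, hM⟩ := (isCompact_closedBall (0 : ℂ) 1).exists_bound_of_continuousOn
    (continuous_uu p).continuousOn
  have hM0 : 0 ≤ M := (norm_nonneg _).trans (hM 0 (by simp))
  have hrem : ∀ K, av (fun z => uu p (rr A K * z) * mu A K z) ≤ M * (7 / 8) ^ K := by
    intro K
    have cu : ContinuousOn (fun z => uu p (rr A K * z)) (sphere (0 : ℂ) 1) := by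
      have := continuous_uu p
      fun_prop
    have cm := continuousOn_mu hA K
    have h1 : av (fun z => uu p (rr A K * z) * mu A K z) ≤ av (fun z => M * mu A K z) := by
      apply av_mono (cu.mul cm) (continuousOn_const.mul cm)
      intro z hz
      have h2 := mu_nonneg hA K hz
      have h3 := hM (rr A K * z) (by simpa using (rr_mul hA K hz).le)
      have h4 := le_of_abs_le h3
      exact mul_le_mul_of_nonneg_right h4 h2
    rw [av_real_const_mul] at h1
    refine h1.trans ?_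
    exact mul_le_mul_of_nonneg_left (qm_le hA K) hM0
  have hall : ∀ K : ℕ, uu p 0 ≤ ((1 / 2) * (2 * (Kf + KG + 1) +
      (4 * Real.log A * 8 + 100 * S2))) + M * (7 / 8) ^ K := by
    intro K
    refine (htel K).trans (add_le_add ?_ (hrem K))
    apply sum_le_hasSum _ _ hsum
    intro k _
    have := lk_nonneg hA k
    positivity
  have hlim : Tendsto (fun K : ℕ => ((1 / 2) * (2 * (Kf + KG + 1) +
      (4 * Real.log A * 8 + 100 * S2))) + M * (7 / 8) ^ K) atTop
      (𝓝 (((1 / 2) * (2 * (Kf + KG + 1) + (4 * Real.log A * 8 + 100 * S2))) + M * 0)) :=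
    tendsto_const_nhds.add ((tendsto_pow_atTop_nhds_zero_of_lt_one (by norm_num)
      (by norm_num)).const_mul M)
  have := ge_of_tendsto' hlim hall
  linarith

end Pool.Agent.Lib.MP_7d8448_an
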