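import Pool.Agent.Lib.MP_7d8448_anB.Final

set_option autoImplicit false

namespace Pool.Agent.Lib.MP_7d8448_an

/-- There is a holomorphic f on the bidisk in H^2 such that every H^1 function is an H^1-limit of polynomial multiples of f, but not every H^2 function is an H^2-limit of polynomial multiples of f. -/
theorem main_bidisk :
  ∃ f : ℂ × ℂ → ℂ,
    DifferentiableOn ℂ f (Metric.ball (0 : ℂ × ℂ) 1) ∧
    (⨆ r ∈ Set.Ioo (0:ℝ) 1,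
        ∫⁻ x in Set.Icc (0:ℝ) (2 * Real.pi) ×ˢ Set.Icc (0:ℝ) (2 * Real.pi),
          (‖f ((r:ℂ) * Complex.exp ((x.1:ℂ) * Complex.I),
               (r:ℂ) * Complex.exp ((x.2:ℂ) * Complex.I))‖ₑ) ^ (2:ℝ)) < ⊤ ∧
    (∀ g : ℂ × ℂ → ℂ, DifferentiableOn ℂ g (Metric.ball (0 : ℂ × ℂ) 1) →
      (⨆ r ∈ Set.Ioo (0:ℝ) 1,
        ∫⁻ x in Set.Icc (0:ℝ) (2 * Real.pi) ×ˢ Set.Icc (0:ℝ) (2 * Real.pi),
          (‖g ((r:ℂ) * Complex.exp ((x.1:ℂ) * Complex.I),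
               (r:ℂ) * Complex.exp ((x.2:ℂ) * Complex.I))‖ₑ) ^ (1:ℝ)) < ⊤ →
      ∀ ε : ENNReal, 0 < ε → ∃ P : MvPolynomial (Fin 2) ℂ,
        (⨆ r ∈ Set.Ioo (0:ℝ) 1,
          ∫⁻ x in Set.Icc (0:ℝ) (2 * Real.pi) ×ˢ Set.Icc (0:ℝ) (2 * Real.pi),
            (‖MvPolynomial.eval ![(r:ℂ) * Complex.exp ((x.1:ℂ) * Complex.I),
                                  (r:ℂ) * Complex.exp ((x.2:ℂ) * Complex.I)] P *
                f ((r:ℂ) * Complex.exp ((x.1:ℂ) * Complex.I),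
                   (r:ℂ) * Complex.exp ((x.2:ℂ) * Complex.I)) -
              g ((r:ℂ) * Complex.exp ((x.1:ℂ) * Complex.I),
                 (r:ℂ) * Complex.exp ((x.2:ℂ) * Complex.I))‖ₑ) ^ (1:ℝ)) < ε) ∧
    ¬ (∀ g : ℂ × ℂ → ℂ, DifferentiableOn ℂ g (Metric.ball (0 : ℂ × ℂ) 1) →
      (⨆ r ∈ Set.Ioo (0:ℝ) 1,
        ∫⁻ x in Set.Icc (0:ℝ) (2 * Real.pi) ×ˢ Set.Icc (0:ℝ) (2 * Real.pi),
          (‖g ((r:ℂ) * Complex.exp ((x.1:ℂ) * Complex.I),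
               (r:ℂ) * Complex.exp ((x.2:ℂ) * Complex.I))‖ₑ) ^ (2:ℝ)) < ⊤ →
      ∀ ε : ENNReal, 0 < ε → ∃ P : MvPolynomial (Fin 2) ℂ,
        (⨆ r ∈ Set.Ioo (0:ℝ) 1,
          ∫⁻ x in Set.Icc (0:ℝ) (2 * Real.pi) ×ˢ Set.Icc (0:ℝ) (2 * Real.pi),
            (‖MvPolynomial.eval ![(r:ℂ) * Complex.exp ((x.1:ℂ) * Complex.I),
                                  (r:ℂ) * Complex.exp ((x.2:ℂ) * Complex.I)] P *
                f ((r:ℂ) * Complex.exp ((x.1:ℂ) * Complex.I),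
                   (r:ℂ) * Complex.exp ((x.2:ℂ) * Complex.I)) -
              g ((r:ℂ) * Complex.exp ((x.1:ℂ) * Complex.I),
                 (r:ℂ) * Complex.exp ((x.2:ℂ) * Complex.I))‖ₑ) ^ (2:ℝ)) < ε) := by
  obtain ⟨A, hA, hbig⟩ := Pool.Agent.Lib.MP_7d8448_an.exists_large
    Pool.Agent.Lib.MP_7d8448_an.CC
  refine ⟨Pool.Agent.Lib.MP_7d8448_an.ff A,
    Pool.Agent.Lib.MP_7d8448_an.differentiableOn_ff hA, ?_, ?_, ?_⟩
  · refine lt_of_le_of_lt (b := ENNReal.ofReal (5 * Real.exp 2 * (2 * Real.pi) ^ 2)) ?_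
      ENNReal.ofReal_lt_top
    refine iSup₂_le fun r hr => ?_
    exact Pool.Agent.Lib.MP_7d8448_an.growth_f hA hr.1 hr.2
  · intro g hg hgb ε hε
    have hC : max (ENNReal.ofReal (5 * Real.exp 2 * (2 * Real.pi) ^ 2))
        (ENNReal.ofReal (5 * Real.exp (2 * (A + 1)) * (2 * Real.pi) ^ 2)) ≠ ⊤ :=
      (max_lt ENNReal.ofReal_lt_top ENNReal.ofReal_lt_top).ne
    obtain ⟨δ, hδ0, hδ⟩ := exists_between hε
    obtain ⟨P, hP⟩ := Pool.Agent.Lib.MP_7d8448_an.cyclic_one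
      (Pool.Agent.Lib.MP_7d8448_an.differentiableOn_ff hA)
      (fun z _ => Pool.Agent.Lib.MP_7d8448_an.ff_ne_zero z) hC
      (fun r h0 h1 => (Pool.Agent.Lib.MP_7d8448_an.growth_f hA h0 h1).trans (le_max_left _ _))
      (fun r h0 h1 => (Pool.Agent.Lib.MP_7d8448_an.growth_inv hA h0 h1).trans (le_max_right _ _))
      hg hgb.ne (fun r h0 h1 => le_iSup₂_of_le (f := fun (r : ℝ) (_ : r ∈ Set.Ioo (0 : ℝ) 1) =>
        ∫⁻ x in Set.Icc (0:ℝ) (2 * Real.pi) ×ˢ Set.Icc (0:ℝ) (2 * Real.pi),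
          (‖g ((r:ℂ) * Complex.exp ((x.1:ℂ) * Complex.I),
               (r:ℂ) * Complex.exp ((x.2:ℂ) * Complex.I))‖ₑ) ^ (1:ℝ)) r ⟨h0, h1⟩ le_rfl) hδ0
    refine ⟨P, lt_of_le_of_lt (iSup₂_le fun r hr => ?_) hδ⟩
    exact hP r hr.1 hr.2
  · intro h
    obtain ⟨P, hP⟩ := h (fun _ => 1) (differentiableOn_const _) (by
      refine lt_of_le_of_lt (b := ENNReal.ofReal ((2 * Real.pi) ^ 2)) ?_ ENNReal.ofReal_lt_top
      refine iSup₂_le fun r hr => ?_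
      have := Pool.Agent.Lib.MP_7d8448_an.T2_const 1
      rw [one_mul] at this
      rw [← this]
      simp [Pool.Agent.Lib.MP_7d8448_an.T2, Pool.Agent.Lib.MP_7d8448_an.Ang])
      (ENNReal.ofReal (1 / 4 * (2 * Real.pi) ^ 2)) (ENNReal.ofReal_pos.2 (by positivity))
    refine Pool.Agent.Lib.MP_7d8448_an.not_cyclic hA hbig P fun r h0 h1 => ?_
    refine le_trans ?_ hP.le
    exact le_iSup₂_of_le (f := fun (r : ℝ) (_ : r ∈ Set.Ioo (0 : ℝ) 1) =>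
        ∫⁻ x in Set.Icc (0:ℝ) (2 * Real.pi) ×ˢ Set.Icc (0:ℝ) (2 * Real.pi),
            (‖MvPolynomial.eval ![(r:ℂ) * Complex.exp ((x.1:ℂ) * Complex.I),
                                  (r:ℂ) * Complex.exp ((x.2:ℂ) * Complex.I)] P *
                Pool.Agent.Lib.MP_7d8448_an.ff A ((r:ℂ) * Complex.exp ((x.1:ℂ) * Complex.I),
                   (r:ℂ) * Complex.exp ((x.2:ℂ) * Complex.I)) - 1‖ₑ) ^ (2:ℝ)) r ⟨h0, h1⟩ le_rfl

end Pool.Agent.Lib.MP_7d8448_an
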