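import Pool.Agent.Lib.MP_7d8448_anB.Factor

set_option autoImplicit false

namespace Pool.Agent.Lib.MP_7d8448_an

open Complex Metric Filter Topology
open scoped ComplexConjugate NNReal ENNReal

/-- Taylor coefficients at `0`. -/
noncomputable def tc (f : ℂ → ℂ) (n : ℕ) : ℂ := ((n.factorial : ℂ))⁻¹ * iteratedDeriv n f 0

lemma hasSum_tc {f : ℂ → ℂ} (hf : DifferentiableOn ℂ f (ball 0 1)) {z : ℂ} (hz : ‖z‖ < 1) :
    HasSum (fun n => tc f n * z ^ n) (f z) := by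
  have h := Complex.hasSum_taylorSeries_on_ball hf (z := z) (by simpa using hz)
  refine h.congr_fun ?_ |> fun h => h
  intro n
  simp only [tc, smul_eq_mul, sub_zero]
  ring

lemma summable_norm_tc {f : ℂ → ℂ} (hf : DifferentiableOn ℂ f (ball 0 1)) {t : ℝ} (ht0 : 0 ≤ t)
    (ht : t < 1) : Summable fun n => ‖tc f n * (t : ℂ) ^ n‖ :=
  (hasSum_tc hf (z := (t : ℂ)) (by simpa [abs_of_nonneg ht0] using ht)).summable.norm

/-- Polynomial approximation on closed discs. -/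
lemma exists_poly_approx {f : ℂ → ℂ} (hf : DifferentiableOn ℂ f (ball 0 1)) {ρ : ℝ} (hρ0 : 0 < ρ)
    (hρ1 : ρ < 1) {ε : ℝ} (hε : 0 < ε) :
    ∃ g : Polynomial ℂ, ∀ z ∈ closedBall (0 : ℂ) ρ, ‖f z - g.eval z‖ ≤ ε := by
  have hs := summable_norm_tc hf hρ0.le hρ1
  have htail := (tendsto_sum_nat_add (fun n => ‖tc f n * (ρ : ℂ) ^ n‖))
  obtain ⟨K, hK⟩ := (htail.eventually (gt_mem_nhds hε)).exists
  refine ⟨∑ n ∈ Finset.range K, Polynomial.C (tc f n) * Polynomial.X ^ n, ?_⟩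
  intro z hz
  have hz' : ‖z‖ ≤ ρ := by simpa using hz
  have hsum := hasSum_tc hf (z := z) (by linarith)
  have e : (∑ n ∈ Finset.range K, Polynomial.C (tc f n) * Polynomial.X ^ n).eval z
      = ∑ n ∈ Finset.range K, tc f n * z ^ n := by
    rw [Polynomial.eval_finsetSum]; simp
  rw [e, ← hsum.tsum_eq, ← hsum.summable.sum_add_tsum_nat_add K, add_sub_cancel_left]
  have hs2 : Summable fun n => ‖tc f (n + K) * (ρ : ℂ) ^ (n + K)‖ := (summable_nat_add_iff K).2 hs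
  have hle : ∀ n, ‖tc f (n + K) * z ^ (n + K)‖ ≤ ‖tc f (n + K) * (ρ : ℂ) ^ (n + K)‖ := by
    intro n
    rw [norm_mul, norm_mul, norm_pow, norm_pow, norm_real, Real.norm_of_nonneg hρ0.le]
    gcongr
  calc ‖∑' n, tc f (n + K) * z ^ (n + K)‖ ≤ ∑' n, ‖tc f (n + K) * (ρ : ℂ) ^ (n + K)‖ :=
        tsum_of_norm_bounded hs2.hasSum hle
    _ ≤ ε := hK.le

/-- Bessel for functions on the disc dominated by a continuous `Q`. -/
lemma sum_tc_le {F : ℂ → ℂ} (hF : DifferentiableOn ℂ F (ball 0 1)) {Q : ℂ → ℝ} (hQ : Continuous Q)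
    (hFQ : ∀ z ∈ ball (0 : ℂ) 1, ‖F z‖ ^ 2 ≤ Q z) (K : ℕ) :
    ∑ n ∈ Finset.range K, ‖tc F n‖ ^ 2 ≤ av Q := by
  have h1 : ∀ t : ℝ, 0 ≤ t → t < 1 →
      ∑ n ∈ Finset.range K, ‖tc F n * (t : ℂ) ^ n‖ ^ 2 ≤ av fun z => Q (t * z) := by
    intro t ht0 ht
    have hs := summable_norm_tc hF ht0 ht
    have hp := parseval hs
    have hlt : ∀ z : ℂ, ‖z‖ = 1 → ‖(t : ℂ) * z‖ < 1 := by
      intro z hz
      rw [norm_mul, hz, norm_real, Real.norm_of_nonneg ht0, mul_one]; exact ht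
    have e : av (fun z => ‖∑' n, tc F n * (t : ℂ) ^ n * z ^ n‖ ^ 2) = av fun z => ‖F (t * z)‖ ^ 2 := by
      apply av_congr
      intro z hz
      rw [← (hasSum_tc hF (hlt z hz)).tsum_eq]
      simp only [mul_pow, mul_assoc]
    rw [e] at hp
    refine (sum_le_hasSum _ (fun i _ => by positivity) hp).trans ?_
    apply av_mono
    · have : ContinuousOn F (ball 0 1) := hF.continuousOn
      refine ((this.comp (f := fun z : ℂ => (t : ℂ) * z) (by fun_prop) ?_).norm).pow 2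
      intro z hz
      have := hlt z (by simpa using hz)
      simpa using this
    · exact (hQ.comp (by fun_prop)).continuousOn
    · intro z hz
      exact hFQ _ (by simpa using hlt z hz)
  have hlim1 : Tendsto (fun t : ℝ => ∑ n ∈ Finset.range K, ‖tc F n * (t : ℂ) ^ n‖ ^ 2) (𝓝[<] 1)
      (𝓝 (∑ n ∈ Finset.range K, ‖tc F n * ((1 : ℝ) : ℂ) ^ n‖ ^ 2)) := by
    apply tendsto_nhdsWithin_of_tendsto_nhds
    apply Continuous.tendsto
    fun_prop
  have hlim2 : Tendsto (fun t : ℝ => av fun z => Q (t * z)) (𝓝[<] 1) (𝓝 (av fun z => Q ((1 : ℝ) * z))) := by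
    apply tendsto_nhdsWithin_of_tendsto_nhds
    have hc : Continuous fun t : ℝ => av fun z => Q (t * z) := by
      unfold av
      simp only [Real.circleAverage_def, smul_eq_mul]
      have hc1 : Continuous fun t : ℝ => ∫ θ in (0:ℝ)..2 * Real.pi, Q (t * circleMap 0 1 θ) := by
        apply intervalIntegral.continuous_parametric_intervalIntegral_of_continuous'
        fun_prop
      exact continuous_const.mul hc1
    exact hc.tendsto 1
  have hfin := le_of_tendsto_of_tendsto hlim1 hlim2 (by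
    have : ∀ᶠ t : ℝ in 𝓝[<] 1, t ∈ Set.Ioo (0 : ℝ) 1 := Ioo_mem_nhdsLT one_pos
    filter_upwards [this] with t ht
    exact h1 t ht.1.le ht.2)
  simpa using hfin


lemma continuousOn_comp_mul {F : ℂ → ℂ} (hF : DifferentiableOn ℂ F (ball 0 1)) {t : ℝ}
    (ht0 : 0 ≤ t) (ht : t < 1) : ContinuousOn (fun z => F (t * z)) (sphere (0 : ℂ) 1) := by
  refine hF.continuousOn.comp (f := fun z : ℂ => (t : ℂ) * z) (by fun_prop) ?_
  intro z hz
  have hz' : ‖z‖ = 1 := by simpa using hz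
  simp only [mem_ball, dist_zero_right, norm_mul, hz', norm_real, Real.norm_of_nonneg ht0, mul_one]
  exact ht

/-- Coefficientwise limit in a power series. -/
lemma tendsto_series {α : ℕ → ℕ → ℂ} {a : ℕ → ℂ} {R : ℝ} (hR : ∀ n k, ‖α n k‖ ≤ R)
    (ha : ∀ k, Tendsto (fun n => α n k) atTop (𝓝 (a k))) {z : ℂ} (hz : ‖z‖ < 1) :
    Tendsto (fun n => ∑' k, α n k * z ^ k) atTop (𝓝 (∑' k, a k * z ^ k)) := by
  apply tendsto_tsum_of_dominated_convergence (bound := fun k => R * ‖z‖ ^ k)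
  · exact (summable_geometric_of_lt_one (norm_nonneg z) hz).mul_left R
  · intro k
    exact (ha k).mul_const _
  · filter_upwards with n k
    rw [norm_mul, norm_pow]
    exact mul_le_mul_of_nonneg_right (hR n k) (by positivity)

lemma exists_h2_factor {g : ℂ → ℂ} (hg : DifferentiableOn ℂ g (ball 0 1)) {s : ℕ → ℝ}
    (hs0 : ∀ n, 0 < s n) (hs1 : ∀ n, s n < 1) (hs : Tendsto s atTop (𝓝 1)) {M : ℝ}
    (hM : ∀ n, av (fun z => ‖g (s n * z)‖) ≤ M) :
    ∃ a b : ℕ → ℂ, (∀ K, ∑ n ∈ Finset.range K, ‖a n‖ ^ 2 ≤ M) ∧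
      (∀ K, ∑ n ∈ Finset.range K, ‖b n‖ ^ 2 ≤ M) ∧
      ∀ z : ℂ, ‖z‖ < 1 → g z = (∑' n, a n * z ^ n) * (∑' n, b n * z ^ n) := by
  have hM0 : 0 ≤ M := (av_nonneg fun z _ => norm_nonneg _).trans (hM 0)
  have hpoly : ∀ n : ℕ, ∃ q : Polynomial ℂ, ∀ z ∈ closedBall (0 : ℂ) (s n),
      ‖g z - q.eval z‖ ≤ 1 / ((n : ℝ) + 1) := fun n =>
    exists_poly_approx hg (hs0 n) (hs1 n) (by positivity)
  choose q hq using hpoly
  have hfact : ∀ n, HFact (fun z => ((q n).comp (Polynomial.C (s n : ℂ) * Polynomial.X)).eval z) :=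
    fun n => HFact_poly _
  choose F₁ F₂ Q h1 h2 h3 h4 h5 h6 h7 using hfact
  have hev : ∀ n z, ((q n).comp (Polynomial.C (s n : ℂ) * Polynomial.X)).eval z
      = (q n).eval (s n * z) := by
    intro n z
    simp
  simp only [hev] at h4 h7
  have hin : ∀ n (z : ℂ), ‖z‖ ≤ 1 → (s n : ℂ) * z ∈ closedBall (0 : ℂ) (s n) := by
    intro n z hz
    simp only [mem_closedBall, dist_zero_right, norm_mul, norm_real, Real.norm_of_nonneg (hs0 n).le]
    exact mul_le_of_le_one_right (hs0 n).le hz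
  have hQ : ∀ n, av (Q n) ≤ M + 1 / ((n : ℝ) + 1) := by
    intro n
    have e1 : av (Q n) ≤ av (fun z => ‖g (s n * z)‖ + 1 / ((n : ℝ) + 1)) := by
      apply av_mono (h3 n).continuousOn
      · exact (continuousOn_comp_mul hg (hs0 n).le (hs1 n)).norm.add continuousOn_const
      · intro z hz
        rw [h7 n z hz]
        have e2 := hq n _ (hin n z hz.le)
        have e3 := norm_sub_norm_le ((q n).eval (s n * z)) (g (s n * z))
        rw [norm_sub_rev] at e3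
        linarith
    rw [av_add (continuousOn_comp_mul hg (hs0 n).le (hs1 n)).norm continuousOn_const, av_const] at e1
    exact e1.trans (by linarith [hM n])
  have hb1 : ∀ n K, ∑ k ∈ Finset.range K, ‖tc (F₁ n) k‖ ^ 2 ≤ M + 1 / ((n : ℝ) + 1) := fun n K =>
    (sum_tc_le (h1 n) (h3 n) (h5 n) K).trans (hQ n)
  have hb2 : ∀ n K, ∑ k ∈ Finset.range K, ‖tc (F₂ n) k‖ ^ 2 ≤ M + 1 / ((n : ℝ) + 1) := fun n K =>
    (sum_tc_le (h2 n) (h3 n) (h6 n) K).trans (hQ n)
  have hone : ∀ n : ℕ, 1 / ((n : ℝ) + 1) ≤ 1 := by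
    intro n
    rw [div_le_one (by positivity)]
    have : (0 : ℝ) ≤ n := Nat.cast_nonneg n
    linarith
  have hR : ∀ (F : ℕ → ℂ → ℂ), (∀ n K, ∑ k ∈ Finset.range K, ‖tc (F n) k‖ ^ 2 ≤ M + 1 / ((n : ℝ) + 1)) →
      ∀ n k, ‖tc (F n) k‖ ≤ Real.sqrt (M + 1) := by
    intro F hF n k
    apply Real.le_sqrt_of_sq_le
    have e1 := hF n (k + 1)
    have e2 : ‖tc (F n) k‖ ^ 2 ≤ ∑ k ∈ Finset.range (k + 1), ‖tc (F n) k‖ ^ 2 :=
      Finset.single_le_sum (f := fun k => ‖tc (F n) k‖ ^ 2) (fun i _ => by positivity)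
        (Finset.self_mem_range_succ k)
    have := hone n
    linarith
  have hR1 := hR F₁ hb1
  have hR2 := hR F₂ hb2
  have hcomp : IsCompact ((Set.univ.pi fun _ : ℕ => closedBall (0 : ℂ) (Real.sqrt (M + 1))) ×ˢ
      (Set.univ.pi fun _ : ℕ => closedBall (0 : ℂ) (Real.sqrt (M + 1)))) :=
    (isCompact_univ_pi fun _ => isCompact_closedBall _ _).prod
      (isCompact_univ_pi fun _ => isCompact_closedBall _ _)
  obtain ⟨⟨a, b⟩, -, φ, hφ, hlim⟩ := hcomp.tendsto_subseq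
    (x := fun n => ((fun k => tc (F₁ n) k), (fun k => tc (F₂ n) k))) (by
      intro n
      simp only [Set.mem_prod, Set.mem_pi, Set.mem_univ, true_implies, mem_closedBall,
        dist_zero_right]
      exact ⟨hR1 n, hR2 n⟩)
  have hlimp := Prod.tendsto_iff _ _ |>.1 hlim
  have ha : ∀ k, Tendsto (fun n => tc (F₁ (φ n)) k) atTop (𝓝 (a k)) := fun k =>
    (tendsto_pi_nhds.1 hlimp.1) k
  have hb : ∀ k, Tendsto (fun n => tc (F₂ (φ n)) k) atTop (𝓝 (b k)) := fun k =>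
    (tendsto_pi_nhds.1 hlimp.2) k
  have hinv : Tendsto (fun n => M + 1 / (((φ n : ℕ) : ℝ) + 1)) atTop (𝓝 (M + 0)) :=
    tendsto_const_nhds.add (tendsto_one_div_add_atTop_nhds_zero_nat.comp hφ.tendsto_atTop)
  rw [add_zero] at hinv
  have hsumlim : ∀ (F : ℕ → ℂ → ℂ) (a : ℕ → ℂ),
      (∀ n K, ∑ k ∈ Finset.range K, ‖tc (F n) k‖ ^ 2 ≤ M + 1 / ((n : ℝ) + 1)) →
      (∀ k, Tendsto (fun n => tc (F (φ n)) k) atTop (𝓝 (a k))) →
      ∀ K, ∑ n ∈ Finset.range K, ‖a n‖ ^ 2 ≤ M := by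
    intro F a hF hlim K
    refine le_of_tendsto_of_tendsto' (tendsto_finsetSum (Finset.range K) fun k _ =>
      ((hlim k).norm.pow 2)) hinv ?_
    intro n
    exact hF (φ n) K
  refine ⟨a, b, hsumlim F₁ a hb1 ha, hsumlim F₂ b hb2 hb, ?_⟩
  intro z hz
  have t1 : Tendsto (fun n => F₁ (φ n) z) atTop (𝓝 (∑' n, a n * z ^ n)) := by
    have := tendsto_series (α := fun n k => tc (F₁ (φ n)) k) (fun n k => hR1 (φ n) k) ha hz
    refine this.congr fun n => ?_
    exact (hasSum_tc (h1 (φ n)) hz).tsum_eq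
  have t2 : Tendsto (fun n => F₂ (φ n) z) atTop (𝓝 (∑' n, b n * z ^ n)) := by
    have := tendsto_series (α := fun n k => tc (F₂ (φ n)) k) (fun n k => hR2 (φ n) k) hb hz
    refine this.congr fun n => ?_
    exact (hasSum_tc (h2 (φ n)) hz).tsum_eq
  have t3 := t1.mul t2
  have t4 : Tendsto (fun n => (q (φ n)).eval (s (φ n) * z)) atTop (𝓝 (g z)) := by
    have hc : Tendsto (fun n => g (s (φ n) * z)) atTop (𝓝 (g z)) := by
      have hz' : z ∈ ball (0 : ℂ) 1 := by simpa using hz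
      have hcz : ContinuousAt g z := (hg.continuousOn.continuousAt (isOpen_ball.mem_nhds hz'))
      have hl : Tendsto (fun n => ((s (φ n) : ℝ) : ℂ) * z) atTop (𝓝 z) := by
        have h5 : Tendsto (fun n => ((s (φ n) : ℝ) : ℂ)) atTop (𝓝 ((1 : ℝ) : ℂ)) :=
          (continuous_ofReal.tendsto 1).comp (hs.comp hφ.tendsto_atTop)
        simpa using h5.mul_const z
      exact hcz.tendsto.comp hl
    have hd : Tendsto (fun n => (q (φ n)).eval (s (φ n) * z) - g (s (φ n) * z)) atTop (𝓝 0) := by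
      rw [tendsto_zero_iff_norm_tendsto_zero]
      refine squeeze_zero (fun n => norm_nonneg _) (g := fun n => 1 / (((φ n : ℕ) : ℝ) + 1)) ?_ ?_
      · intro n
        rw [norm_sub_rev]
        exact hq (φ n) _ (hin (φ n) z hz.le)
      · exact tendsto_one_div_add_atTop_nhds_zero_nat.comp hφ.tendsto_atTop
    simpa using hd.add hc
  refine tendsto_nhds_unique t4 (t3.congr fun n => ?_)
  exact h4 (φ n) z (by simpa using hz)

end Pool.Agent.Lib.MP_7d8448_an
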