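import Pool.Agent.Lib.MP_7d8448_anB.Torus
import Pool.Agent.Lib.MP_7d8448_anB.Dil

set_option autoImplicit false

namespace Pool.Agent.Lib.MP_7d8448_an

open Complex Metric MeasureTheory Filter Topology
open scoped ComplexConjugate NNReal ENNReal

/-- The `p`-th power mean over the torus of radius `r` (unnormalised). -/
noncomputable def Hr (p : ℝ) (F : ℂ × ℂ → ℂ) (r : ℝ) : ℝ≥0∞ :=
  T2 (fun z w => ‖F (r * z, r * w)‖ₑ ^ p)

lemma mem_bd {a b : ℂ} : (a, b) ∈ ball (0 : ℂ × ℂ) 1 ↔ ‖a‖ < 1 ∧ ‖b‖ < 1 := by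
  rw [mem_ball, dist_zero_right, Prod.norm_mk, max_lt_iff]

lemma mem_bd_mul {r : ℝ} (h0 : 0 ≤ r) (h1 : r < 1) {z w : ℂ} (hz : ‖z‖ ≤ 1) (hw : ‖w‖ ≤ 1) :
    ((r : ℂ) * z, (r : ℂ) * w) ∈ ball (0 : ℂ × ℂ) 1 := by
  rw [mem_bd, norm_mul, norm_mul, norm_real, Real.norm_of_nonneg h0]
  constructor
  · exact lt_of_le_of_lt (mul_le_of_le_one_right h0 hz) h1
  · exact lt_of_le_of_lt (mul_le_of_le_one_right h0 hw) h1

/-- Slices of a holomorphic function on the bidisc. -/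
noncomputable def sl (g : ℂ × ℂ → ℂ) (y : ℝ) (z : ℂ) : ℂ := g (z, z * ei y)

lemma differentiableOn_sl {g : ℂ × ℂ → ℂ} (hg : DifferentiableOn ℂ g (ball (0 : ℂ × ℂ) 1)) (y : ℝ) :
    DifferentiableOn ℂ (sl g y) (ball 0 1) := by
  unfold sl
  refine hg.comp (f := fun z : ℂ => (z, z * ei y)) (by fun_prop) ?_
  intro z hz
  have hz' : ‖z‖ < 1 := by simpa using hz
  rw [mem_bd, norm_mul, norm_ei, mul_one]
  exact ⟨hz', hz'⟩

lemma continuousOn_torus {g : ℂ × ℂ → ℂ} (hg : ContinuousOn g (ball (0 : ℂ × ℂ) 1)) {r : ℝ}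
    (h0 : 0 ≤ r) (h1 : r < 1) :
    ContinuousOn (fun p : ℂ × ℂ => g (r * p.1, r * p.2)) (sphere (0 : ℂ) 1 ×ˢ sphere (0 : ℂ) 1) := by
  refine hg.comp (f := fun p : ℂ × ℂ => ((r : ℂ) * p.1, (r : ℂ) * p.2)) (by fun_prop) ?_
  intro p hp
  simp only [Set.mem_prod, mem_sphere, dist_zero_right] at hp
  exact mem_bd_mul h0 h1 hp.1.le hp.2.le

lemma enorm_rpow_ofReal {p : ℝ} (hp : 0 ≤ p) (a : ℂ) : ‖a‖ₑ ^ p = ENNReal.ofReal (‖a‖ ^ p) := by
  rw [← ENNReal.ofReal_rpow_of_nonneg (norm_nonneg a) hp, ofReal_norm]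

lemma continuousOn_enorm_rpow {p : ℝ} (hp : 0 ≤ p) {g : ℂ × ℂ → ℂ} {s : Set (ℂ × ℂ)}
    (hg : ContinuousOn g s) : ContinuousOn (fun x => ‖g x‖ₑ ^ p) s := by
  simp only [enorm_rpow_ofReal hp]
  refine ENNReal.continuous_ofReal.comp_continuousOn ?_
  exact hg.norm.rpow_const fun x _ => Or.inr hp

lemma Hr_eq {p : ℝ} (hp : 0 ≤ p) {g : ℂ × ℂ → ℂ} (hg : ContinuousOn g (ball (0 : ℂ × ℂ) 1)) {r : ℝ}
    (h0 : 0 ≤ r) (h1 : r < 1) :
    Hr p g r = ∫⁻ y in Ang, T1 (fun z => ‖sl g y (r * z)‖ₑ ^ p) := by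
  unfold Hr
  rw [T2_eq (measurable_of_continuousOn (continuousOn_enorm_rpow hp (continuousOn_torus hg h0 h1)))]
  simp only [sl, mul_assoc]

/-- Measurability of slice integrals. -/
lemma measurable_slice {p : ℝ} (hp : 0 ≤ p) {g : ℂ × ℂ → ℂ}
    (hg : ContinuousOn g (ball (0 : ℂ × ℂ) 1)) {r : ℝ} (h0 : 0 ≤ r) (h1 : r < 1) :
    Measurable fun y => T1 (fun z => ‖sl g y (r * z)‖ₑ ^ p) := by
  unfold T1
  have hm : Measurable fun q : ℝ × ℝ => ‖sl g q.1 (r * ei q.2)‖ₑ ^ p := by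
    have h2 : Measurable fun x : ℝ × ℝ => ‖g (r * ei x.1, r * ei x.2)‖ₑ ^ p :=
      measurable_of_continuousOn (F := fun z w => ‖g (r * z, r * w)‖ₑ ^ p)
        (continuousOn_enorm_rpow hp (continuousOn_torus hg h0 h1))
    have h3 : Measurable fun q : ℝ × ℝ => (q.2, q.2 + q.1) := by fun_prop
    have := h2.comp h3
    simpa only [sl, Function.comp_def, ei_add, mul_assoc] using this
  exact hm.lintegral_prod_right'

theorem dilation {p : ℝ} (hp : 0 < p) (hst : OneVarStmt p) {g : ℂ × ℂ → ℂ}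
    (hg : DifferentiableOn ℂ g (ball (0 : ℂ × ℂ) 1)) {C : ℝ≥0∞} (hC : C ≠ ⊤)
    (hb : ∀ r : ℝ, 0 < r → r < 1 → Hr p g r ≤ C) {ε : ℝ≥0∞} (hε : 0 < ε) :
    ∃ ρ : ℝ, 0 < ρ ∧ ρ < 1 ∧ ∀ r : ℝ, 0 < r → r < 1 →
      Hr p (fun z => g z - g (ρ * z.1, ρ * z.2)) r ≤ ε := by
  by_contra hcon
  push Not at hcon
  obtain ⟨K, hK, hst⟩ := hst
  set s : ℕ → ℝ := fun n => 1 - 1 / ((n : ℝ) + 2) with hs
  have hs0 : ∀ n, 0 < s n := by
    intro n
    have : 1 / ((n : ℝ) + 2) < 1 := by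
      rw [div_lt_one (by positivity)]
      have : (0 : ℝ) ≤ n := Nat.cast_nonneg n
      linarith
    simp only [hs]; linarith
  have hs1 : ∀ n, s n < 1 := by
    intro n
    have : 0 < 1 / ((n : ℝ) + 2) := by positivity
    simp only [hs]; linarith
  have hslim : Tendsto s atTop (𝓝 1) := by
    have h1 : Tendsto (fun n : ℕ => 1 / ((n : ℝ) + 2)) atTop (𝓝 0) := by
      have := (tendsto_add_atTop_iff_nat 1).2 (tendsto_one_div_add_atTop_nhds_zero_nat (𝕜 := ℝ))
      refine this.congr fun n => ?_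
      push_cast; ring_nf
    have := tendsto_const_nhds (x := (1 : ℝ)).sub h1
    rw [sub_zero] at this
    exact this
  choose! R hR0 hR1 hR using hcon
  set r : ℕ → ℝ := fun n => R (s n) with hr
  have hr0 : ∀ n, 0 < r n := fun n => hR0 _ (hs0 n) (hs1 n)
  have hr1 : ∀ n, r n < 1 := fun n => hR1 _ (hs0 n) (hs1 n)
  have hgc : ContinuousOn g (ball (0 : ℂ × ℂ) 1) := hg.continuousOn
  have hgρ : ∀ n, ContinuousOn (fun z : ℂ × ℂ => g z - g (s n * z.1, s n * z.2))
      (ball (0 : ℂ × ℂ) 1) := by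
    intro n
    refine hgc.sub (hgc.comp (f := fun z : ℂ × ℂ => ((s n : ℂ) * z.1, (s n : ℂ) * z.2))
      (by fun_prop) ?_)
    rintro ⟨a, b⟩ hz
    rw [mem_bd] at hz
    exact mem_bd_mul (hs0 n).le (hs1 n) hz.1.le hz.2.le
  set Fn : ℕ → ℝ → ℝ≥0∞ := fun n y =>
    T1 (fun z => ‖sl (fun z : ℂ × ℂ => g z - g (s n * z.1, s n * z.2)) y (r n * z)‖ₑ ^ p) with hFn
  set Gn : ℕ → ℝ → ℝ≥0∞ := fun n y => T1 (fun z => ‖sl g y (s n * z)‖ₑ ^ p) with hGn
  have hFm : ∀ n, Measurable (Fn n) := fun n => measurable_slice hp.le (hgρ n) (hr0 n).le (hr1 n)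
  have hGm : ∀ n, Measurable (Gn n) := fun n => measurable_slice hp.le hgc (hs0 n).le (hs1 n)
  set N : ℝ → ℝ≥0∞ := fun y => liminf (fun n => Gn n y) atTop with hN
  have hNm : Measurable N := Measurable.liminf hGm
  have hNint : ∫⁻ y in Ang, N y ≤ C := by
    refine (lintegral_liminf_le hGm).trans ?_
    refine liminf_le_of_frequently_le' (Frequently.of_forall fun n => ?_)
    rw [hGn]
    beta_reduce
    rw [← Hr_eq hp.le hgc (hs0 n).le (hs1 n)]
    exact hb _ (hs0 n) (hs1 n)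
  have hNfin : ∀ᵐ y ∂(volume.restrict Ang), N y < ⊤ :=
    ae_lt_top hNm (lt_of_le_of_lt hNint hC.lt_top).ne
  -- the one variable statement on a slice
  have hone : ∀ y, N y < ⊤ → (∀ n, Fn n y ≤ ENNReal.ofReal K * (N y + 1)) ∧
      Tendsto (fun n => Fn n y) atTop (𝓝 0) := by
    intro y hy
    set M : ℝ := (N y).toReal + 1 with hM
    have hMN : N y < ENNReal.ofReal M := by
      rw [hM, ENNReal.lt_ofReal_iff_toReal_lt hy.ne]
      linarith
    have hfr : ∃ᶠ n in atTop, Gn n y < ENNReal.ofReal M := frequently_lt_of_liminf_lt (by isBoundedDefault) hMN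
    obtain ⟨φ, hφ, hφ2⟩ := extraction_of_frequently_atTop hfr
    have hsl := differentiableOn_sl hg y
    have hav : ∀ n, Gn n y = ENNReal.ofReal (2 * Real.pi * av (fun z => ‖sl g y (s n * z)‖ ^ p)) := by
      intro n
      simp only [hGn, enorm_rpow_ofReal hp.le]
      apply T1_ofReal
      · exact (continuousOn_comp_mul hsl (hs0 n).le (hs1 n)).norm.rpow_const fun _ _ => Or.inr hp.le
      · intro z _; positivity
    have havle : ∀ n, av (fun z => ‖sl g y (s (φ n) * z)‖ ^ p) ≤ M / (2 * Real.pi) := by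
      intro n
      have := (hφ2 n).le
      rw [hav, ENNReal.ofReal_le_ofReal_iff (by positivity)] at this
      rw [le_div_iff₀ (by positivity)]
      linarith
    obtain ⟨a1, a2⟩ := hst (sl g y) hsl (fun n => s (φ n)) (fun n => hs0 _) (fun n => hs1 _)
      (hslim.comp hφ.tendsto_atTop) _ havle
    have hFav : ∀ n, Fn n y = ENNReal.ofReal (2 * Real.pi *
        av (fun z => ‖sl g y (r n * z) - sl g y (s n * (r n * z))‖ ^ p)) := by
      intro n
      have e1 : ∀ z, sl (fun z : ℂ × ℂ => g z - g (s n * z.1, s n * z.2)) y (r n * z) =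
          sl g y (r n * z) - sl g y (s n * (r n * z)) := by
        intro z
        simp only [sl, mul_assoc]
      simp only [hFn, enorm_rpow_ofReal hp.le, e1]
      apply T1_ofReal
      · have c1 := continuousOn_comp_mul hsl (hr0 n).le (hr1 n)
        have c2 := continuousOn_comp_mul hsl (mul_nonneg (hs0 n).le (hr0 n).le)
          (mul_lt_one_of_nonneg_of_lt_one_left (hs0 n).le (hs1 n) (hr1 n).le)
        have c3 : ContinuousOn (fun z => sl g y (s n * (r n * z))) (sphere (0 : ℂ) 1) := by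
          refine c2.congr fun z _ => ?_
          simp only [ofReal_mul, mul_assoc]
        exact (c1.sub c3).norm.rpow_const fun _ _ => Or.inr hp.le
      · intro z _; positivity
    constructor
    · intro n
      rw [hFav n]
      have h3 := a1 (r n) (s n) (hr0 n).le (hr1 n) (hs0 n).le (hs1 n).le
      have h4 : 2 * Real.pi * av (fun z => ‖sl g y (r n * z) - sl g y (s n * (r n * z))‖ ^ p)
          ≤ K * M := by
        calc _ ≤ 2 * Real.pi * (K * (M / (2 * Real.pi))) := by gcongr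
          _ = K * M := by field_simp
      refine (ENNReal.ofReal_le_ofReal h4).trans ?_
      rw [ENNReal.ofReal_mul hK.le, hM, ENNReal.ofReal_add ENNReal.toReal_nonneg zero_le_one,
        ENNReal.ofReal_toReal hy.ne, ENNReal.ofReal_one]
    · have h5 := a2 r s (fun n => (hr0 n).le) hr1 (fun n => (hs0 n).le) (fun n => (hs1 n).le) hslim
      have h6 := ENNReal.tendsto_ofReal (h5.const_mul (2 * Real.pi))
      rw [mul_zero, ENNReal.ofReal_zero] at h6
      refine h6.congr fun n => ?_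
      rw [hFav n]
  have hdct : Tendsto (fun n => ∫⁻ y in Ang, Fn n y) atTop (𝓝 (∫⁻ y in Ang, (0 : ℝ≥0∞))) := by
    apply tendsto_lintegral_of_dominated_convergence (fun y => ENNReal.ofReal K * (N y + 1)) hFm
    · intro n
      filter_upwards [hNfin] with y hy
      exact (hone y hy).1 n
    · rw [lintegral_const_mul _ (by fun_prop), lintegral_add_left hNm, lintegral_one]
      refine ENNReal.mul_ne_top ENNReal.ofReal_ne_top (ENNReal.add_ne_top.2
        ⟨(lt_of_le_of_lt hNint hC.lt_top).ne, ?_⟩)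
      rw [Measure.restrict_apply_univ]
      exact (isCompact_Icc.measure_lt_top).ne
    · filter_upwards [hNfin] with y hy
      exact (hone y hy).2
  rw [lintegral_zero] at hdct
  have hev := hdct.eventually (gt_mem_nhds hε)
  obtain ⟨n, hn⟩ := hev.exists
  have hbad := hR (s n) (hs0 n) (hs1 n)
  rw [Hr_eq hp.le (hgρ n) (hr0 n).le (hr1 n)] at hbad
  exact absurd hn (not_lt.2 hbad.le)

end Pool.Agent.Lib.MP_7d8448_an
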