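import Mathlib

set_option autoImplicit false

namespace Pool.Agent.Lib.MP_7d8448_an

open Complex Metric
open scoped ComplexConjugate

/-- Maps the disc into the upper half plane, `Gs 0 = 1 + i`. -/
noncomputable def Gs (w : ℂ) : ℂ := 1 + I * ((1 + w) / (1 - w))
/-- Maps the disc into the strip `0 < Re < 1`. -/
noncomputable def V (w : ℂ) : ℂ := log (Gs w) / (I * Real.pi)
noncomputable def X (w : ℂ) : ℝ := (V w).re
noncomputable def U (a : ℂ) (t : ℝ) (w : ℂ) : ℂ := (1 + t + conj a * w) / (1 + t - conj a * w)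

lemma one_sub_ne {w : ℂ} (hw : ‖w‖ < 1) : 1 - w ≠ 0 := by
  intro h
  have : w = 1 := by linear_combination -h
  rw [this] at hw
  simp at hw

lemma one_add_I_mul_ne {w : ℂ} (hw : ‖w‖ < 1) : 1 + I * w ≠ 0 := by
  intro h
  have h1 : I * w = -1 := by linear_combination h
  have h2 : ‖I * w‖ = 1 := by rw [h1]; simp
  rw [norm_mul, norm_I, one_mul] at h2
  linarith

lemma Gs_eq {w : ℂ} (hw : ‖w‖ < 1) : Gs w = (1 + I) * (1 + I * w) / (1 - w) := by
  have h := one_sub_ne hw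
  unfold Gs
  field_simp
  linear_combination (-w) * I_sq

lemma Gs_im {w : ℂ} (hw : ‖w‖ < 1) : (Gs w).im = (1 - ‖w‖ ^ 2) / ‖1 - w‖ ^ 2 := by
  have h := one_sub_ne hw
  have hn : normSq (1 - w) ≠ 0 := by simpa using h
  unfold Gs
  rw [← normSq_eq_norm_sq, ← normSq_eq_norm_sq]
  simp only [add_im, one_im, mul_im, I_re, I_im, div_re, div_im, add_re, one_re, sub_re, sub_im]
  field_simp
  simp [normSq_apply]
  ring

lemma Gs_im_pos {w : ℂ} (hw : ‖w‖ < 1) : 0 < (Gs w).im := by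
  rw [Gs_im hw]
  have h := one_sub_ne hw
  have h2 : 0 < ‖1 - w‖ := norm_pos_iff.mpr h
  have h3 : 0 ≤ ‖w‖ := norm_nonneg w
  apply div_pos _ (by positivity)
  nlinarith

lemma X_eq (w : ℂ) : X w = arg (Gs w) / Real.pi := by
  unfold X V
  have : log (Gs w) / (I * Real.pi) = (-I * log (Gs w)) / (Real.pi : ℝ) := by
    have : (Real.pi : ℂ) ≠ 0 := by exact_mod_cast Real.pi_ne_zero
    field_simp
    rw [I_sq]; ring
  rw [this, div_ofReal_re]
  simp [log_im]

lemma differentiableOn_V : DifferentiableOn ℂ V (ball 0 1) := by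
  intro w hw
  have hw : ‖w‖ < 1 := by simpa using hw
  apply DifferentiableAt.differentiableWithinAt
  have h := one_sub_ne hw
  unfold V
  apply DifferentiableAt.div_const
  apply DifferentiableAt.clog
  · unfold Gs
    fun_prop (disch := exact h)
  · rw [mem_slitPlane_iff]
    right
    exact (Gs_im_pos hw).ne'

lemma arg_pos {w : ℂ} (hw : ‖w‖ < 1) : 0 < arg (Gs w) := by
  have h := Gs_im_pos hw
  rcases lt_or_eq_of_le (arg_nonneg_iff.mpr h.le) with h1 | h1
  · exact h1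
  · have := arg_eq_zero_iff.mp h1.symm
    linarith [this.2]

lemma arg_lt {w : ℂ} (hw : ‖w‖ < 1) : arg (Gs w) < Real.pi := by
  have h := Gs_im_pos hw
  rw [arg_lt_pi_iff]
  right
  exact h.ne'

lemma X_pos {w : ℂ} (hw : ‖w‖ < 1) : 0 < X w := by
  rw [X_eq]
  exact div_pos (arg_pos hw) Real.pi_pos

lemma X_lt_one {w : ℂ} (hw : ‖w‖ < 1) : X w < 1 := by
  rw [X_eq, div_lt_one Real.pi_pos]
  exact arg_lt hw

lemma X_zero : X 0 = 1 / 4 := by
  rw [X_eq]
  have : Gs 0 = (Real.sqrt 2 : ℝ) * (Real.cos (Real.pi / 4) + Real.sin (Real.pi / 4) * I) := by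
    unfold Gs
    rw [Real.cos_pi_div_four, Real.sin_pi_div_four]
    push_cast
    have h : ((Real.sqrt 2 : ℝ) : ℂ) ^ 2 = 2 := by
      rw [← ofReal_pow, Real.sq_sqrt (by norm_num)]; norm_num
    simp only [add_zero, sub_zero, div_one, mul_one]
    linear_combination (-(1 + I) / 2) * h
  rw [this, ofReal_cos, ofReal_sin, arg_mul_cos_add_sin_mul_I (by positivity)]
  · field_simp
  · constructor <;> linarith [Real.pi_pos]

lemma hasDerivAt_V {w : ℂ} (hw : ‖w‖ < 1) :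
    HasDerivAt V (2 / (Real.pi * (1 + I) * (1 + I * w) * (1 - w))) w := by
  have h := one_sub_ne hw
  have h' := one_add_I_mul_ne hw
  have hG : HasDerivAt Gs (I * (2 / (1 - w) ^ 2)) w := by
    have h1 : HasDerivAt (fun w : ℂ => 1 + w) 1 w := (hasDerivAt_id w).const_add 1
    have h2 : HasDerivAt (fun w : ℂ => 1 - w) (-1) w := (hasDerivAt_id w).const_sub 1
    have h3 := ((h1.div h2 h).const_mul I).const_add 1
    have h5 : I * ((1 * (1 - w) - (1 + w) * (-1)) / (1 - w) ^ 2) = I * (2 / (1 - w) ^ 2) := by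
      congr 2
      ring
    rw [h5] at h3
    exact h3
  have hs : Gs w ∈ slitPlane := by
    rw [mem_slitPlane_iff]; right; exact (Gs_im_pos hw).ne'
  have h4 := (hG.clog hs).div_const (I * Real.pi)
  have hpi : (Real.pi : ℂ) ≠ 0 := by exact_mod_cast Real.pi_ne_zero
  have h1I : (1 + I : ℂ) ≠ 0 := by
    intro hh
    have := congrArg Complex.re hh
    simp at this
  have h5 : I * (2 / (1 - w) ^ 2) / Gs w / (I * Real.pi) =
      2 / (Real.pi * (1 + I) * (1 + I * w) * (1 - w)) := by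
    rw [Gs_eq hw]
    field_simp
  rw [h5] at h4
  exact h4

lemma norm_one_add_I : ‖(1 + I : ℂ)‖ = Real.sqrt 2 := by
  rw [show (1 + I : ℂ) = ((1 : ℝ) : ℂ) + ((1 : ℝ) : ℂ) * I by push_cast; ring]
  rw [norm_add_mul_I]
  norm_num

lemma norm_V_sub_le {w : ℂ} (hw : ‖w‖ ≤ 1 / 2) : ‖V w - V 0‖ ≤ 2 * ‖w‖ := by
  have key : ‖V w - V 0‖ ≤ 2 * ‖w - 0‖ := by
    apply Convex.norm_image_sub_le_of_norm_hasDerivWithin_le (s := closedBall (0 : ℂ) (1 / 2))
      (f' := fun w => 2 / (Real.pi * (1 + I) * (1 + I * w) * (1 - w)))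
    · intro x hx
      have hx : ‖x‖ ≤ 1 / 2 := by simpa using hx
      exact (hasDerivAt_V (by linarith)).hasDerivWithinAt
    · intro x hx
      have hx : ‖x‖ ≤ 1 / 2 := by simpa using hx
      have h1 : 1 / 2 ≤ ‖1 - x‖ := by
        have := norm_sub_norm_le (1 : ℂ) x
        rw [norm_one] at this
        linarith
      have h2 : 1 / 2 ≤ ‖1 + I * x‖ := by
        have := norm_sub_norm_le (1 : ℂ) (-(I * x))
        rw [norm_one, norm_neg, norm_mul, norm_I, one_mul, sub_neg_eq_add] at this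
        linarith
      rw [norm_div, norm_mul, norm_mul, norm_mul, norm_one_add_I]
      have hpi : ‖(Real.pi : ℂ)‖ = Real.pi := by
        rw [norm_real]; exact abs_of_pos Real.pi_pos
      rw [hpi]
      have h2' : ‖(2 : ℂ)‖ = 2 := by simp
      rw [h2']
      have hp : 3 < Real.pi := Real.pi_gt_three
      have hs : 1.4 < Real.sqrt 2 := by
        apply Real.lt_sqrt_of_sq_lt; norm_num
      have h5 : 3 * 1.4 ≤ Real.pi * Real.sqrt 2 := by
        apply mul_le_mul hp.le hs.le (by norm_num) (by positivity)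
      have h6 : 3 * 1.4 * (1 / 2) ≤ Real.pi * Real.sqrt 2 * ‖1 + I * x‖ := by
        apply mul_le_mul h5 h2 (by norm_num) (by positivity)
      have h7 : 3 * 1.4 * (1 / 2) * (1 / 2) ≤ Real.pi * Real.sqrt 2 * ‖1 + I * x‖ * ‖1 - x‖ := by
        apply mul_le_mul h6 h1 (by norm_num) (by positivity)
      rw [div_le_iff₀ (by linarith)]
      linarith
    · exact convex_closedBall _ _
    · simp
    · simpa using hw
  simpa using key

lemma abs_X_sub_le {w : ℂ} (hw : ‖w‖ < 1) : |X w - 1 / 4| ≤ 2 * ‖w‖ := by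
  by_cases h : ‖w‖ ≤ 1 / 2
  · rw [← X_zero]
    calc |X w - X 0| = |(V w - V 0).re| := by simp [X]
      _ ≤ ‖V w - V 0‖ := abs_re_le_norm _
      _ ≤ _ := norm_V_sub_le h
  · push Not at h
    have h1 := X_pos hw
    have h2 := X_lt_one hw
    rw [abs_le]
    constructor <;> linarith

lemma sin_X {w : ℂ} (hw : ‖w‖ < 1) :
    Real.sin (Real.pi * X w) = (1 - ‖w‖ ^ 2) / (Real.sqrt 2 * ‖1 - w‖ * ‖w - I‖) := by
  have h := one_sub_ne hw
  have h' := one_add_I_mul_ne hw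
  rw [X_eq, mul_div_cancel₀ _ Real.pi_ne_zero, sin_arg, Gs_im hw]
  have h1 : ‖Gs w‖ = Real.sqrt 2 * ‖w - I‖ / ‖1 - w‖ := by
    rw [Gs_eq hw, norm_div, norm_mul, norm_one_add_I]
    congr 2
    rw [show (1 + I * w : ℂ) = I * (w - I) by linear_combination I_sq]
    rw [norm_mul, norm_I, one_mul]
  rw [h1]
  have h2 : ‖1 - w‖ ≠ 0 := by simpa using h
  have h3 : ‖w - I‖ ≠ 0 := by
    intro hh
    have : w - I = 0 := norm_eq_zero.mp hh
    apply h'
    linear_combination I * this + I_sq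
  field_simp

lemma one_sub_X_ge {w : ℂ} (hw : ‖w‖ < 1) : (1 - ‖w‖) / 18 ≤ 1 - X w := by
  have h := one_sub_ne hw
  have h' := one_add_I_mul_ne hw
  have hX0 := X_pos hw
  have hX1 := X_lt_one hw
  have h1 : Real.sin (Real.pi * X w) ≤ Real.pi * (1 - X w) := by
    rw [show Real.pi * X w = Real.pi - Real.pi * (1 - X w) by ring, Real.sin_pi_sub]
    apply Real.sin_le
    have := Real.pi_pos
    apply mul_nonneg this.le
    linarith
  rw [sin_X hw] at h1
  have h2 : 0 < ‖1 - w‖ := norm_pos_iff.mpr h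
  have h3 : 0 < ‖w - I‖ := by
    rw [norm_pos_iff]
    intro hh
    apply h'
    linear_combination I * hh + I_sq
  have h4 : ‖1 - w‖ ≤ 2 := by
    have := norm_sub_le (1 : ℂ) w
    rw [norm_one] at this
    linarith
  have h5 : ‖w - I‖ ≤ 2 := by
    have := norm_sub_le w I
    rw [norm_I] at this
    linarith
  have hs : Real.sqrt 2 < 1.4143 := by
    rw [Real.sqrt_lt' (by norm_num)]; norm_num
  have hs0 : 0 < Real.sqrt 2 := by positivity
  have hp : Real.pi < 3.1416 := Real.pi_lt_d4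
  have h6 : Real.sqrt 2 * ‖1 - w‖ * ‖w - I‖ ≤ 1.4143 * 2 * 2 := by
    apply mul_le_mul _ h5 h3.le (by norm_num)
    apply mul_le_mul hs.le h4 h2.le (by norm_num)
  rw [div_le_iff₀ (by positivity)] at h1
  have h7 : Real.pi * (1 - X w) * (Real.sqrt 2 * ‖1 - w‖ * ‖w - I‖) ≤
      3.1416 * (1 - X w) * (1.4143 * 2 * 2) := by
    apply mul_le_mul _ h6 (by positivity) (by nlinarith)
    apply mul_le_mul_of_nonneg_right hp.le (by linarith)
  have h8 : 1 - ‖w‖ ≤ 1 - ‖w‖ ^ 2 := by nlinarith [norm_nonneg w]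
  nlinarith

lemma U_den {a : ℂ} (ha : ‖a‖ = 1) {t : ℝ} (ht : 0 < t) {w : ℂ} (hw : ‖w‖ ≤ 1) :
    (1 + t - conj a * w : ℂ) ≠ 0 := by
  intro h
  have h1 : (1 + t : ℂ) = conj a * w := by linear_combination h
  have h2 : ‖(1 + t : ℂ)‖ = ‖conj a * w‖ := by rw [h1]
  rw [norm_mul, RCLike.norm_conj, ha, one_mul] at h2
  have h3 : ‖(1 + t : ℂ)‖ = 1 + t := by
    rw [show (1 + t : ℂ) = ((1 + t : ℝ) : ℂ) by push_cast; ring, norm_real]
    exact abs_of_pos (by linarith)
  linarith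

lemma differentiableOn_U {a : ℂ} (ha : ‖a‖ = 1) {t : ℝ} (ht : 0 < t) :
    DifferentiableOn ℂ (U a t) (closedBall 0 1) := by
  intro w hw
  have hw : ‖w‖ ≤ 1 := by simpa using hw
  apply DifferentiableAt.differentiableWithinAt
  have h := U_den ha ht hw
  unfold U
  fun_prop (disch := exact h)

lemma U_zero {a : ℂ} {t : ℝ} (ht : 0 < t) : U a t 0 = 1 := by
  unfold U
  rw [mul_zero, add_zero, sub_zero, div_self]
  rw [show (1 + t : ℂ) = ((1 + t : ℝ) : ℂ) by push_cast; ring]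
  exact_mod_cast (by positivity : (1 + t) ≠ 0)

lemma U_re {a : ℂ} (ha : ‖a‖ = 1) {t : ℝ} (ht : 0 < t) {w : ℂ} (hw : ‖w‖ ≤ 1) :
    (U a t w).re = ((1 + t) ^ 2 - ‖w‖ ^ 2) / ‖(1 + t - conj a * w : ℂ)‖ ^ 2 := by
  have h := U_den ha ht hw
  have hn : normSq (1 + t - conj a * w) ≠ 0 := by simpa using h
  have hz : ‖w‖ = ‖conj a * w‖ := by rw [norm_mul, RCLike.norm_conj, ha, one_mul]
  rw [hz]
  unfold U
  generalize conj a * w = z at *
  rw [← normSq_eq_norm_sq, ← normSq_eq_norm_sq, div_re]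
  simp only [add_re, one_re, ofReal_re, sub_re, add_im, one_im, ofReal_im, sub_im]
  field_simp
  simp only [normSq_apply]
  ring

lemma U_re_nonneg {a : ℂ} (ha : ‖a‖ = 1) {t : ℝ} (ht : 0 < t) {w : ℂ} (hw : ‖w‖ ≤ 1) :
    0 ≤ (U a t w).re := by
  rw [U_re ha ht hw]
  apply div_nonneg _ (by positivity)
  nlinarith [norm_nonneg w]

lemma U_re_ge {a : ℂ} (ha : ‖a‖ = 1) {t : ℝ} (ht : 0 < t) {w : ℂ} (hw : ‖w‖ ≤ 1)
    (h : ‖w - a‖ < t) : 1 / (2 * t) ≤ (U a t w).re := by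
  rw [U_re ha ht hw]
  have h0 := U_den ha ht hw
  have h1 : 0 < ‖(1 + t - conj a * w : ℂ)‖ := norm_pos_iff.mpr h0
  have h2 : ‖(1 + t - conj a * w : ℂ)‖ ≤ 2 * t := by
    have hc : conj a * a = 1 := by
      rw [mul_comm, mul_conj, normSq_eq_norm_sq, ha]; norm_num
    have : (1 + t - conj a * w : ℂ) = t - conj a * (w - a) := by
      linear_combination (-1 : ℂ) * hc
    rw [this]
    calc ‖(t : ℂ) - conj a * (w - a)‖ ≤ ‖(t : ℂ)‖ + ‖conj a * (w - a)‖ := norm_sub_le _ _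
      _ = t + ‖w - a‖ := by
          rw [norm_mul, RCLike.norm_conj, ha, one_mul, norm_real]
          congr 1
          exact abs_of_pos ht
      _ ≤ 2 * t := by linarith
  rw [div_le_div_iff₀ (by positivity) (by positivity)]
  have h3 : ‖(1 + t - conj a * w : ℂ)‖ ^ 2 ≤ (2 * t) ^ 2 := by
    apply pow_le_pow_left₀ h1.le h2
  have h4 : 2 * t ≤ (1 + t) ^ 2 - ‖w‖ ^ 2 := by nlinarith [norm_nonneg w]
  nlinarith

lemma X_mul_le_sin {w : ℂ} (hw : ‖w‖ < 1) :
    X w * (1 - X w) ≤ Real.sin (Real.pi * X w) / 2 := by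
  have hX0 := X_pos hw
  have hX1 := X_lt_one hw
  have jordan : ∀ m : ℝ, 0 ≤ m → m ≤ 1 / 2 → 2 * m ≤ Real.sin (Real.pi * m) := by
    intro m h0 h1
    have := Real.mul_le_sin (x := Real.pi * m) (by positivity)
      (by have := Real.pi_pos; nlinarith)
    have hpi := Real.pi_ne_zero
    calc 2 * m = 2 / Real.pi * (Real.pi * m) := by field_simp
      _ ≤ _ := this
  by_cases h : X w ≤ 1 / 2
  · have := jordan _ hX0.le h
    nlinarith
  · push Not at h
    have := jordan (1 - X w) (by linarith) (by linarith)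
    rw [show Real.pi * (1 - X w) = Real.pi - Real.pi * X w by ring, Real.sin_pi_sub] at this
    nlinarith

lemma X_mul_le {w : ℂ} (hw : ‖w‖ < 1) {t : ℝ} (ht : 0 < t) :
    X w * (1 - X w) ≤ (1 - ‖w‖) / t + t / 2 * ((U 1 t w).re + (U I t w).re) := by
  have hU1 := U_re_nonneg (a := 1) (by simp) ht hw.le
  have hU2 := U_re_nonneg (a := I) (by simp) ht hw.le
  have hX0 := X_pos hw
  have hX1 := X_lt_one hw
  have hq : X w * (1 - X w) ≤ 1 / 4 := by nlinarith [sq_nonneg (X w - 1 / 2)]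
  have hn : 0 ≤ (1 - ‖w‖) / t := div_nonneg (by linarith) ht.le
  by_cases h1 : ‖w - 1‖ < t
  · have h := U_re_ge (a := 1) (by simp) ht hw.le h1
    have h2 : t / 2 * (1 / (2 * t)) ≤ t / 2 * ((U 1 t w).re + (U I t w).re) := by
      apply mul_le_mul_of_nonneg_left _ (by positivity)
      linarith
    have h3 : t / 2 * (1 / (2 * t)) = 1 / 4 := by field_simp; norm_num
    linarith
  by_cases h2 : ‖w - I‖ < t
  · have h := U_re_ge (a := I) (by simp) ht hw.le h2
    have h2 : t / 2 * (1 / (2 * t)) ≤ t / 2 * ((U 1 t w).re + (U I t w).re) := by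
      apply mul_le_mul_of_nonneg_left _ (by positivity)
      linarith
    have h3 : t / 2 * (1 / (2 * t)) = 1 / 4 := by field_simp; norm_num
    linarith
  push Not at h1 h2
  rw [norm_sub_rev] at h1
  have hs := X_mul_le_sin hw
  rw [sin_X hw] at hs
  have hs2 : Real.sqrt 2 ^ 2 = 2 := Real.sq_sqrt (by norm_num)
  have hs0 : 0 < Real.sqrt 2 := by positivity
  have hsum : Real.sqrt 2 ≤ ‖1 - w‖ + ‖w - I‖ := by
    have : ‖(1 - w) + (w - I)‖ ≤ ‖1 - w‖ + ‖w - I‖ := norm_add_le _ _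
    have h3 : ‖((1 - w) + (w - I) : ℂ)‖ = Real.sqrt 2 := by
      rw [show ((1 - w) + (w - I) : ℂ) = conj (1 + I) by simp; ring, RCLike.norm_conj,
        norm_one_add_I]
    linarith
  have hprod : Real.sqrt 2 / 2 * t ≤ ‖1 - w‖ * ‖w - I‖ := by
    rcases le_total ‖1 - w‖ ‖w - I‖ with h | h
    · have h3 : Real.sqrt 2 / 2 ≤ ‖w - I‖ := by linarith
      calc Real.sqrt 2 / 2 * t = t * (Real.sqrt 2 / 2) := by ring
        _ ≤ _ := mul_le_mul h1 h3 (by positivity) (by positivity)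
    · have h3 : Real.sqrt 2 / 2 ≤ ‖1 - w‖ := by linarith
      exact mul_le_mul h3 h2 (by positivity) (by positivity)
  have hden : t ≤ Real.sqrt 2 * ‖1 - w‖ * ‖w - I‖ := by
    have := mul_le_mul_of_nonneg_left hprod hs0.le
    nlinarith
  have h5 : (1 - ‖w‖ ^ 2) / (Real.sqrt 2 * ‖1 - w‖ * ‖w - I‖) ≤ (1 - ‖w‖ ^ 2) / t := by
    apply div_le_div_of_nonneg_left _ ht hden
    nlinarith [norm_nonneg w]
  have h6 : (1 - ‖w‖ ^ 2) / t ≤ 2 * ((1 - ‖w‖) / t) := by
    rw [← mul_div_assoc]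
    apply div_le_div_of_nonneg_right _ ht.le
    nlinarith [norm_nonneg w]
  have h7 : 0 ≤ t / 2 * ((U 1 t w).re + (U I t w).re) := by positivity
  linarith

end Pool.Agent.Lib.MP_7d8448_an
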