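import Pool.Agent.Lib.MP_7d8448_anB.Growth
import Pool.Agent.Lib.MP_7d8448_anB.Diag

set_option autoImplicit false

namespace Pool.Agent.Lib.MP_7d8448_an

open Complex Metric MeasureTheory Filter Topology
open scoped ComplexConjugate NNReal ENNReal

/-- Restriction of `x_j` to the diagonal. -/
noncomputable def xd (A : ℝ) (j : ℕ) (z : ℂ) : ℝ := xf A j (z, z)

/-- Products of `1 - x_i`. -/
noncomputable def Pd (A : ℝ) (n : ℕ) (z : ℂ) : ℝ := ∏ i ∈ Finset.range n, (1 - xd A i z)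

noncomputable def TT (A : ℝ) (j : ℕ) (R : ℝ) : ℝ :=
  av fun z => xd A j (R * z) * Pd A (j + 1) (R * z)

variable {A : ℝ}

lemma norm_diag {z : ℂ} (hz : ‖z‖ < 1) : ‖((z, z) : ℂ × ℂ)‖ < 1 := by simpa using hz

lemma xd_pos (hA : 1 ≤ A) {z : ℂ} (hz : ‖z‖ < 1) (j : ℕ) : 0 < xd A j z := xf_pos hA (norm_diag hz) j

lemma xd_lt_one (hA : 1 ≤ A) {z : ℂ} (hz : ‖z‖ < 1) (j : ℕ) : xd A j z < 1 :=
  xf_lt_one hA (norm_diag hz) j

/-- holomorphic functions with real part `x_j` on the diagonal -/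
noncomputable def Vd (A : ℝ) (j : ℕ) (z : ℂ) : ℂ := V (Wf A j (z, z))

lemma xd_eq (j : ℕ) (z : ℂ) : xd A j z = (Vd A j z).re := rfl

lemma mapsTo_diag : Set.MapsTo (fun z : ℂ => ((z, z) : ℂ × ℂ)) (ball 0 1) (ball 0 1) := by
  intro z hz
  have : ‖z‖ < 1 := by simpa using hz
  rw [mem_bd]; exact ⟨this, this⟩

lemma differentiableOn_Vd (hA : 1 ≤ A) (j : ℕ) : DifferentiableOn ℂ (Vd A j) (ball 0 1) := by
  unfold Vd
  exact (differentiableOn_VWf hA j).comp (f := fun z : ℂ => ((z, z) : ℂ × ℂ)) (by fun_prop)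
    mapsTo_diag

lemma differentiableOn_Wd (hA : 1 ≤ A) (j : ℕ) :
    DifferentiableOn ℂ (fun z => Wf A j (z, z)) (ball 0 1) :=
  (differentiableOn_Wf hA j).comp (f := fun z : ℂ => ((z, z) : ℂ × ℂ)) (by fun_prop) mapsTo_diag

lemma continuousOn_xd (hA : 1 ≤ A) (j : ℕ) : ContinuousOn (xd A j) (ball 0 1) :=
  continuous_re.comp_continuousOn (differentiableOn_Vd hA j).continuousOn

lemma continuousOn_Pd (hA : 1 ≤ A) (n : ℕ) : ContinuousOn (Pd A n) (ball 0 1) := by
  unfold Pd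
  exact continuousOn_finsetProd _ fun i _ => continuousOn_const.sub (continuousOn_xd hA i)

lemma mem_ball_mul {R : ℝ} (h0 : 0 ≤ R) (h1 : R < 1) {z : ℂ} (hz : ‖z‖ ≤ 1) :
    ‖(R : ℂ) * z‖ < 1 := by
  rw [norm_mul, norm_real, Real.norm_of_nonneg h0]
  exact lt_of_le_of_lt (mul_le_of_le_one_right h0 hz) h1

lemma cont_R {F : ℂ → ℝ} (hF : ContinuousOn F (ball 0 1)) {R : ℝ} (h0 : 0 ≤ R) (h1 : R < 1) :
    ContinuousOn (fun z => F (R * z)) (sphere (0 : ℂ) 1) := by
  refine hF.comp (f := fun z : ℂ => (R : ℂ) * z) (by fun_prop) ?_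
  intro z hz
  have hz' : ‖z‖ = 1 := by simpa using hz
  simpa using mem_ball_mul h0 h1 hz'.le

lemma Pd_nonneg (hA : 1 ≤ A) {z : ℂ} (hz : ‖z‖ < 1) (n : ℕ) : 0 ≤ Pd A n z :=
  Finset.prod_nonneg fun i _ => by linarith [xd_lt_one hA hz i]

lemma Pd_succ (n : ℕ) (z : ℂ) : Pd A (n + 1) z = Pd A n z * (1 - xd A n z) :=
  Finset.prod_range_succ _ _

lemma Pd_anti (hA : 1 ≤ A) {z : ℂ} (hz : ‖z‖ < 1) : Antitone fun n => Pd A n z := by
  apply antitone_nat_of_succ_le
  intro n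
  rw [Pd_succ]
  exact mul_le_of_le_one_right (Pd_nonneg hA hz n) (by linarith [xd_pos hA hz n])

lemma Pd_le_one (hA : 1 ≤ A) {z : ℂ} (hz : ‖z‖ < 1) (n : ℕ) : Pd A n z ≤ 1 := by
  have := Pd_anti hA hz (Nat.zero_le n)
  simpa [Pd] using this

lemma one_sub_Pd_le (hA : 1 ≤ A) {z : ℂ} (hz : ‖z‖ < 1) (n : ℕ) :
    1 - Pd A n z ≤ ∑ i ∈ Finset.range n, xd A i z := by
  induction n with
  | zero => simp [Pd]
  | succ n ih =>
    rw [Pd_succ, Finset.sum_range_succ]
    have h1 := Pd_le_one hA hz n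
    have h2 := xd_pos hA hz n
    have h3 := Pd_nonneg hA hz n
    nlinarith

lemma TT_nonneg (hA : 1 ≤ A) {R : ℝ} (h0 : 0 ≤ R) (h1 : R < 1) (j : ℕ) : 0 ≤ TT A j R := by
  refine av_nonneg fun z hz => ?_
  have := mem_ball_mul h0 h1 hz.le
  exact mul_nonneg (xd_pos hA this j).le (Pd_nonneg hA this _)

lemma norm_Wd (j : ℕ) (z : ℂ) :
    ‖Wf A j (z, z)‖ = Real.exp (-∑ i ∈ Finset.range j, xd A i z) * ‖z‖ ^ Np A j := by
  unfold Wf
  rw [norm_mul, norm_Mf, EN_diag, norm_pow]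
  rfl

lemma Wd_zero (hA : 1 ≤ A) (j : ℕ) : Wf A j (0, 0) = 0 := by
  unfold Wf
  rw [EN_diag, zero_pow (by have := one_le_Np hA j; omega), mul_zero]

lemma av_U (hA : 1 ≤ A) {a : ℂ} (ha : ‖a‖ = 1) {t : ℝ} (ht : 0 < t) {R : ℝ} (h0 : 0 ≤ R)
    (h1 : R < 1) (j : ℕ) :
    av (fun z => (U a t (Wf A j (R * z, R * z))).re) = 1 := by
  have hd : DifferentiableOn ℂ (fun z : ℂ => U a t (Wf A j (R * z, R * z))) (closedBall 0 1) := by
    have h2 : DifferentiableOn ℂ (fun z : ℂ => Wf A j (R * z, R * z)) (closedBall 0 1) := by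
      refine (differentiableOn_Wd hA j).comp (f := fun z : ℂ => (R : ℂ) * z) (by fun_prop) ?_
      intro z hz
      simpa using mem_ball_mul h0 h1 (by simpa using hz : ‖z‖ ≤ 1)
    refine (differentiableOn_U ha ht).comp h2 ?_
    intro z hz
    have h3 := norm_Wf_lt hA (norm_diag (mem_ball_mul h0 h1 (by simpa using hz : ‖z‖ ≤ 1))) j
    simpa using h3.le
  have := av_re_eq hd
  rw [this, mul_zero, Wd_zero hA, U_zero ht, one_re]

lemma TT_le (hA : 1 ≤ A) {R : ℝ} (h0 : 0 ≤ R) (h1 : R < 1) (j : ℕ) {t : ℝ} (ht : 0 < t) :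
    TT A j R ≤ (Np A j * (1 - R) + ∑ i ∈ Finset.range j, TT A i R) / t + t := by
  have cx : ∀ i, ContinuousOn (fun z => xd A i (R * z)) (sphere (0 : ℂ) 1) := fun i =>
    cont_R (continuousOn_xd hA i) h0 h1
  have cP : ∀ i, ContinuousOn (fun z => Pd A i (R * z)) (sphere (0 : ℂ) 1) := fun i =>
    cont_R (continuousOn_Pd hA i) h0 h1
  have cU : ∀ a : ℂ, ‖a‖ = 1 →
      ContinuousOn (fun z => (U a t (Wf A j (R * z, R * z))).re) (sphere (0 : ℂ) 1) := by
    intro a ha
    refine continuous_re.comp_continuousOn ?_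
    refine (differentiableOn_U ha ht).continuousOn.comp
      (f := fun z : ℂ => Wf A j (R * z, R * z)) ?_ ?_
    · refine (differentiableOn_Wd hA j).continuousOn.comp (f := fun z : ℂ => (R : ℂ) * z)
        (by fun_prop) ?_
      intro z hz
      simpa using mem_ball_mul h0 h1 (by simpa using (by simpa using hz : ‖z‖ = 1).le : ‖z‖ ≤ 1)
    · intro z hz
      have hz' : ‖z‖ = 1 := by simpa using hz
      have h3 := norm_Wf_lt hA (norm_diag (mem_ball_mul h0 h1 hz'.le)) j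
      simpa using h3.le
  have hpt : ∀ z : ℂ, ‖z‖ = 1 → xd A j (R * z) * Pd A (j + 1) (R * z) ≤
      1 / t * (Np A j * (1 - R) + ∑ i ∈ Finset.range j, xd A i (R * z) * Pd A (i + 1) (R * z)) +
      t / 2 * ((U 1 t (Wf A j (R * z, R * z))).re + (U I t (Wf A j (R * z, R * z))).re) := by
    intro z hz
    have hz1 : ‖(R : ℂ) * z‖ < 1 := mem_ball_mul h0 h1 hz.le
    have hRz : ‖(R : ℂ) * z‖ = R := by
      rw [norm_mul, hz, norm_real, Real.norm_of_nonneg h0, mul_one]
    have hW := norm_Wf_lt hA (norm_diag hz1) j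
    have e1 := X_mul_le hW ht
    have e2 : X (Wf A j (R * z, R * z)) = xd A j (R * z) := rfl
    rw [e2] at e1
    set P := Pd A j (R * z) with hP
    have hP0 : 0 ≤ P := Pd_nonneg hA hz1 j
    have hP1 : P ≤ 1 := Pd_le_one hA hz1 j
    set s := ∑ i ∈ Finset.range j, xd A i (R * z) with hs
    have hs0 : 0 ≤ s := Finset.sum_nonneg fun i _ => (xd_pos hA hz1 i).le
    have hu1 := U_re_nonneg (a := 1) (by simp) ht hW.le
    have hu2 := U_re_nonneg (a := I) (by simp) ht hW.le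
    have hnW : 1 - ‖Wf A j (R * z, R * z)‖ ≤ Np A j * (1 - R) + s := by
      rw [norm_Wd, hRz]
      have b1 : 1 - s ≤ Real.exp (-s) := by linarith [Real.add_one_le_exp (-s)]
      have b2 : 1 - Np A j * (1 - R) ≤ R ^ Np A j := by
        have := one_add_mul_le_pow (a := R - 1) (by linarith) (Np A j)
        have e : (1 : ℝ) + (R - 1) = R := by ring
        rw [e] at this
        linarith
      have b3 : R ^ Np A j ≤ 1 := pow_le_one₀ h0 h1.le
      have b4 : 0 ≤ R ^ Np A j := by positivity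
      have b5 : Real.exp (-s) ≤ 1 := Real.exp_le_one_iff.2 (by linarith)
      have b6 : 0 < Real.exp (-s) := Real.exp_pos _
      rw [← hs]
      nlinarith
    have hsum : s * P ≤ ∑ i ∈ Finset.range j, xd A i (R * z) * Pd A (i + 1) (R * z) := by
      rw [hs, Finset.sum_mul]
      refine Finset.sum_le_sum fun i hi => ?_
      have hij : i + 1 ≤ j := Finset.mem_range.1 hi
      have := Pd_anti hA hz1 hij
      exact mul_le_mul_of_nonneg_left this (xd_pos hA hz1 i).le
    have hNR : 0 ≤ Np A j * (1 - R) := mul_nonneg (Nat.cast_nonneg _) (by linarith)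
    calc xd A j (R * z) * Pd A (j + 1) (R * z)
        = xd A j (R * z) * (1 - xd A j (R * z)) * P := by rw [Pd_succ]; ring
      _ ≤ ((1 - ‖Wf A j (R * z, R * z)‖) / t + t / 2 * ((U 1 t (Wf A j (R * z, R * z))).re +
          (U I t (Wf A j (R * z, R * z))).re)) * P := by gcongr
      _ = 1 / t * ((1 - ‖Wf A j (R * z, R * z)‖) * P) +
          t / 2 * ((U 1 t (Wf A j (R * z, R * z))).re +
          (U I t (Wf A j (R * z, R * z))).re) * P := by ring
      _ ≤ 1 / t * ((Np A j * (1 - R) + s) * P) +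
          t / 2 * ((U 1 t (Wf A j (R * z, R * z))).re +
          (U I t (Wf A j (R * z, R * z))).re) * 1 := by gcongr
      _ ≤ _ := by
        rw [mul_one]
        gcongr
        nlinarith
  have c1 : ContinuousOn (fun z : ℂ => (Np A j * (1 - R) +
      ∑ i ∈ Finset.range j, xd A i (R * z) * Pd A (i + 1) (R * z))) (sphere (0 : ℂ) 1) :=
    continuousOn_const.add (continuousOn_finsetSum _ fun i _ => (cx i).mul (cP (i + 1)))
  have c2 := (cU 1 (by simp)).add (cU I (by simp))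
  have c3 := (continuousOn_const (c := 1 / t)).mul c1
  have c4 := (continuousOn_const (c := t / 2)).mul c2
  have hav := av_mono ((cx j).mul (cP (j + 1))) (c3.add c4) hpt
  have s1 := av_add c3 c4
  have s2 := av_real_const_mul (1 / t) (fun z : ℂ => (Np A j * (1 - R) +
      ∑ i ∈ Finset.range j, xd A i (R * z) * Pd A (i + 1) (R * z)))
  have s3 := av_real_const_mul (t / 2) (fun z : ℂ => (U 1 t (Wf A j (R * z, R * z))).re +
      (U I t (Wf A j (R * z, R * z))).re)
  have s4 := av_add (cU 1 (by simp)) (cU I (by simp))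
  have s5 := av_add (continuousOn_const (c := (Np A j * (1 - R) : ℝ)))
    (continuousOn_finsetSum (Finset.range j) fun i _ => (cx i).mul (cP (i + 1)))
  have s6 := av_sum (t := Finset.range j) (F := fun i z => xd A i (R * z) * Pd A (i + 1) (R * z))
    fun i _ => (cx i).mul (cP (i + 1))
  beta_reduce at s1 s2 s3 s4 s5 s6
  rw [av_U hA (by simp) ht h0 h1 j, av_U hA (by simp) ht h0 h1 j] at s4
  rw [av_const] at s5
  have total : av ((fun z : ℂ => 1 / t * (Np A j * (1 - R) +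
      ∑ i ∈ Finset.range j, xd A i (R * z) * Pd A (i + 1) (R * z))) +
      fun z : ℂ => t / 2 * ((U 1 t (Wf A j (R * z, R * z))).re +
      (U I t (Wf A j (R * z, R * z))).re)) =
      1 / t * (Np A j * (1 - R) + ∑ i ∈ Finset.range j, TT A i R) + t / 2 * (1 + 1) := by
    refine s1.trans ?_
    congr 1
    · refine s2.trans ?_
      congr 1
      refine s5.trans ?_
      congr 1
    · refine s3.trans ?_
      congr 1
  calc TT A j R ≤ _ := hav
    _ = _ := total
    _ = _ := by ring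

end Pool.Agent.Lib.MP_7d8448_an
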