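import Pool.Agent.Lib.MP_7d8448_anB.Av

set_option autoImplicit false

namespace Pool.Agent.Lib.MP_7d8448_an

open Complex Metric MeasureTheory Filter Topology
open scoped ComplexConjugate NNReal ENNReal

/-- Unit circle point. -/
noncomputable def ei (x : ℝ) : ℂ := exp (x * I)

lemma norm_ei (x : ℝ) : ‖ei x‖ = 1 := norm_exp_ofReal_mul_I x

@[fun_prop]
lemma continuous_ei : Continuous ei := by unfold ei; fun_prop

lemma ei_add (x y : ℝ) : ei (x + y) = ei x * ei y := by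
  unfold ei
  rw [← exp_add]; push_cast; ring_nf

lemma ei_periodic (x : ℝ) : ei (x + 2 * Real.pi) = ei x := by
  unfold ei
  push_cast
  rw [add_mul, exp_add, exp_two_pi_mul_I, mul_one]

/-- The angle interval. -/
def Ang : Set ℝ := Set.Icc (0 : ℝ) (2 * Real.pi)

noncomputable def T1 (F : ℂ → ℝ≥0∞) : ℝ≥0∞ := ∫⁻ x in Ang, F (ei x)

noncomputable def T2 (F : ℂ → ℂ → ℝ≥0∞) : ℝ≥0∞ := ∫⁻ x in Ang ×ˢ Ang, F (ei x.1) (ei x.2)

lemma lintegral_shift {φ : ℝ → ℝ≥0∞} (hφ : ∀ x, φ (x + 2 * Real.pi) = φ x) (a : ℝ) :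
    ∫⁻ y in Ang, φ (a + y) = ∫⁻ y in Ang, φ y := by
  unfold Ang
  rw [setLIntegral_congr (Ioc_ae_eq_Icc (α := ℝ)).symm, setLIntegral_congr (Ioc_ae_eq_Icc (α := ℝ)).symm]
  have h1 : ∫⁻ y in Set.Ioc 0 (2 * Real.pi), φ (a + y) = ∫⁻ y in Set.Ioc a (a + 2 * Real.pi), φ y := by
    have := (measurePreserving_add_left (volume : Measure ℝ) a).setLIntegral_comp_preimage_emb
      (measurableEmbedding_addLeft a) φ (Set.Ioc a (a + 2 * Real.pi))
    rw [← this]
    congr 2
    ext y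
    simp only [Set.mem_preimage, Set.mem_Ioc]
    constructor <;> rintro ⟨h1, h2⟩ <;> constructor <;> linarith
  rw [h1]
  have : VAddInvariantMeasure (AddSubgroup.zmultiples (2 * Real.pi)) ℝ volume :=
    ⟨fun c s _ => measure_preimage_add _ _ _⟩
  have h2 := (isAddFundamentalDomain_Ioc Real.two_pi_pos a).setLIntegral_eq
    (isAddFundamentalDomain_Ioc Real.two_pi_pos 0) φ (by
      have hper : Function.Periodic φ (2 * Real.pi) := hφ
      intro g x
      exact hper.map_vadd_zmultiples g x)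
  rw [zero_add] at h2
  exact h2

/-- Slicing the torus by rotations. -/
lemma T2_eq {F : ℂ → ℂ → ℝ≥0∞} (hF : Measurable fun x : ℝ × ℝ => F (ei x.1) (ei x.2)) :
    T2 F = ∫⁻ y in Ang, T1 (fun z => F z (z * ei y)) := by
  unfold T2 T1
  rw [Measure.volume_eq_prod, ← Measure.prod_restrict, lintegral_prod _ hF.aemeasurable]
  have h1 : ∀ x : ℝ, ∫⁻ y in Ang, F (ei x) (ei y) = ∫⁻ y in Ang, F (ei x) (ei x * ei y) := by
    intro x
    rw [← lintegral_shift (φ := fun y => F (ei x) (ei y)) (by intro y; rw [ei_periodic]) x]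
    simp only [ei_add]
  simp only [h1]
  rw [lintegral_lintegral_swap]
  apply Measurable.aemeasurable
  have : Function.uncurry (fun x y => F (ei x) (ei x * ei y)) =
      (fun x : ℝ × ℝ => F (ei x.1) (ei x.2)) ∘ (fun p : ℝ × ℝ => (p.1, p.1 + p.2)) := by
    ext ⟨x, y⟩
    simp [ei_add]
  rw [this]
  exact hF.comp (by fun_prop)

/-- Iterated form. -/
lemma T2_eq' {F : ℂ → ℂ → ℝ≥0∞} (hF : Measurable fun x : ℝ × ℝ => F (ei x.1) (ei x.2)) :
    T2 F = ∫⁻ y in Ang, T1 (fun z => F z (ei y)) := by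
  unfold T2 T1
  rw [Measure.volume_eq_prod, ← Measure.prod_restrict, lintegral_prod_symm _ hF.aemeasurable]

lemma T1_ofReal {F : ℂ → ℝ} (hF : ContinuousOn F (sphere 0 1)) (h0 : ∀ z, ‖z‖ = 1 → 0 ≤ F z) :
    T1 (fun z => ENNReal.ofReal (F z)) = ENNReal.ofReal (2 * Real.pi * av F) := by
  have hc : Continuous fun x => F (ei x) :=
    hF.comp_continuous continuous_ei fun x => by simp [norm_ei]
  unfold T1 av Ang
  rw [Real.circleAverage_def, smul_eq_mul, ← mul_assoc, mul_inv_cancel₀ Real.two_pi_pos.ne', one_mul]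
  have e : ∀ x, F (circleMap 0 1 x) = F (ei x) := by
    intro x; simp [circleMap, ei]
  simp only [e]
  rw [intervalIntegral.integral_of_le Real.two_pi_pos.le, ← integral_Icc_eq_integral_Ioc,
    ofReal_integral_eq_lintegral_ofReal]
  · exact hc.continuousOn.integrableOn_Icc
  · exact Filter.Eventually.of_forall fun x => h0 _ (norm_ei x)

lemma measurable_of_continuousOn {F : ℂ → ℂ → ℝ≥0∞}
    (hF : ContinuousOn (fun p : ℂ × ℂ => F p.1 p.2) (sphere (0 : ℂ) 1 ×ˢ sphere (0 : ℂ) 1)) :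
    Measurable fun x : ℝ × ℝ => F (ei x.1) (ei x.2) := by
  apply Continuous.measurable
  refine hF.comp_continuous (f := fun x : ℝ × ℝ => (ei x.1, ei x.2)) (by fun_prop) fun x => ?_
  simp [norm_ei]

end Pool.Agent.Lib.MP_7d8448_an
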